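import Pool.Agent.H8.FJ3.Defs
import Pool.Agent.H8.FJ2.FP

/-!
# Closure properties of the class
-/

namespace Pool.Agent.H8.FJ3

open Pool.Agent.H8.FJ

variable {C : ∀ (G : Type) [Group G], Prop}

namespace FJClosed

/-- The smallest class. -/
theorem of_FJClass (hC : FJClosed C) {G : Type} [Group G] (h : Pool.Agent.H8.FJ2.FJClass G) :
    C G := by
  induction h with
  | tree Γ hΓ hadj hinv hcyc => exact hC.tree Γ hΓ hadj hinv hcyc
  | sub f hf h ih => exact hC.sub f hf ih
  | fi N hN h ih => exact hC.fi N hN ih
  | prod hG hH ihG ihH => exact hC.prod ihG ihH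
  | ext f hQ h ihQ ih => exact hC.ext f ihQ ih
  | colim G f hid hcomp g hg hsurj hinj h ih => exact hC.colim G f hid hcomp g hg hsurj hinj ih

variable (hC : FJClosed C)

include hC

/-- Finite groups. -/
theorem finite (G : Type) [Group G] [Finite G] : C G :=
  hC.of_FJClass (.finite G)

theorem of_mulEquiv {G H : Type} [Group G] [Group H] (e : G ≃* H) (h : C G) : C H :=
  hC.sub e.symm.toMonoidHom e.symm.injective h

theorem subgroup {G : Type} [Group G] (H : Subgroup G) (h : C G) : C H :=
  hC.sub H.subtype H.subtype_injective h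

theorem mono {G : Type} [Group G] {H K : Subgroup G} (hHK : H ≤ K) (h : C K) : C H :=
  hC.sub (Subgroup.inclusion hHK) (Subgroup.inclusion_injective hHK) h

/-- Directed unions. -/
theorem union {G : Type} [Group G] {I : Type} [Nonempty I]
    (K : I → Subgroup G) (hK : Directed (· ≤ ·) K) (hu : ∀ g, ∃ i, g ∈ K i)
    (h : ∀ i, C (K i)) : C G := by
  let _ : Preorder I := Preorder.lift K
  have : IsDirected I (· ≤ ·) := ⟨hK⟩
  exact hC.colim (fun i => K i) (fun i j hij => Subgroup.inclusion hij) (fun _ _ => rfl)
    (fun _ _ _ _ _ _ => rfl) (fun i => (K i).subtype) (fun _ _ _ _ => rfl)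
    (fun y => by obtain ⟨i, hi⟩ := hu y; exact ⟨i, ⟨y, hi⟩, rfl⟩)
    (fun i x hx => ⟨i, le_rfl, by
      have : (x : G) = 1 := hx
      exact Subtype.ext this⟩) h

/-- A group all of whose finitely generated subgroups are in the class. -/
theorem of_fg {G : Type} [Group G] (h : ∀ K : Subgroup G, K.FG → C K) : C G := by
  have : Nonempty {K : Subgroup G // K.FG} := ⟨⟨⊥, ⟨∅, by simp⟩⟩⟩
  refine hC.union (I := {K : Subgroup G // K.FG}) (fun K => K.1) ?_ ?_ (fun i => h i.1 i.2)
  · intro a b
    exact ⟨⟨a.1 ⊔ b.1, a.2.sup b.2⟩, le_sup_left, le_sup_right⟩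
  · intro g
    exact ⟨⟨Subgroup.closure {g}, ⟨{g}, by simp⟩⟩, Subgroup.subset_closure rfl⟩

/-- Finite powers. -/
theorem pi {G : Type} [Group G] (hG : C G) (ι : Type) [Finite ι] : C (ι → G) := by
  have key : ∀ n : ℕ, C (Fin n → G) := by
    intro n
    induction n with
    | zero => exact hC.finite _
    | succ n ih =>
      refine hC.sub (G := G × (Fin n → G))
        { toFun := fun x => (x 0, fun i => x i.succ)
          map_one' := rfl
          map_mul' := fun _ _ => rfl } ?_ (hC.prod hG ih)
      intro x y hxy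
      simp only [MonoidHom.coe_mk, OneHom.coe_mk, Prod.mk.injEq] at hxy
      funext i
      refine Fin.cases hxy.1 (fun j => congrFun hxy.2 j) i
  obtain ⟨n, ⟨e⟩⟩ := Finite.exists_equiv_fin ι
  refine hC.sub (G := Fin n → G)
    { toFun := fun x i => x (e.symm i)
      map_one' := rfl
      map_mul' := fun _ _ => rfl } ?_ (key n)
  intro x y hxy
  funext i
  have := congrFun hxy (e i)
  simpa using this

/-- A group acting on a tree with a homomorphism to a group of the class which is injective on the
vertex stabilisers. -/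
theorem of_tree {G V Q : Type} [Group G] [MulAction G V] [Group Q] (Γ : SimpleGraph V)
    (hΓ : Γ.IsTree) (hadj : ∀ (g : G) (v w : V), Γ.Adj v w → Γ.Adj (g • v) (g • w))
    (hinv : ∀ (g : G) (v w : V), Γ.Adj v w → g • v = w → g • w ≠ v) (f : G →* Q)
    (hf : ∀ (v : V) (g : G), g • v = v → f g = 1 → g = 1) (hQ : C Q) : C G := by
  refine hC.ext f hQ (fun q => ?_)
  refine hC.tree (V := V) Γ hΓ (fun g v w h => hadj g v w h) (fun g v w h => hinv g v w h) ?_
  intro v
  let p : MulAction.stabilizer ((Subgroup.zpowers q).comap f) v →* Subgroup.zpowers q :=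
    { toFun := fun x => ⟨f x.1.1, x.1.2⟩
      map_one' := Subtype.ext (map_one f)
      map_mul' := fun x y => Subtype.ext (map_mul f _ _) }
  refine isCyclic_of_injective p ?_
  rw [injective_iff_map_eq_one]
  intro x hx
  apply Subtype.ext
  apply Subtype.ext
  have h1 : f x.1.1 = 1 := congrArg Subtype.val hx
  have h2 : (x.1.1 : G) • v = v := x.2
  exact hf v _ h2 h1

/-- Wreath products with symmetric groups of finite sets. -/
theorem wr {Y L : Type} [Group L] [Finite Y] (h : C L) : C (Wr Y L) := by
  let p : Wr Y L →* Equiv.Perm Y :=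
    { toFun := fun g => g.perm, map_one' := rfl, map_mul' := fun _ _ => rfl }
  have hfin : p.ker.FiniteIndex := by
    have : Finite (Equiv.Perm Y) := inferInstance
    exact Subgroup.finiteIndex_ker p
  refine hC.fi p.ker hfin ?_
  refine hC.sub (G := Y → L)
    { toFun := fun g x => g.1.sec x
      map_one' := rfl
      map_mul' := fun g h => by
        funext x
        have hh : h.1.perm = 1 := h.2
        simp [hh] } ?_ (hC.pi h Y)
  intro g h hgh
  apply Subtype.ext
  have hg : g.1.perm = 1 := g.2
  have hh : h.1.perm = 1 := h.2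
  exact Wr.ext (hg.trans hh.symm) (fun x => congrFun hgh x)

/-- An extension by a solvable group. -/
theorem of_solvable_ker {G Q : Type} [Group G] [Group Q] (f : G →* Q)
    (hf : Group.IsSolvable f.ker) (hQ : C Q) : C G := by
  refine hC.ext f hQ (fun q => hC.solv ?_)
  let p : ((Subgroup.zpowers q).comap f) →* Subgroup.zpowers q :=
    { toFun := fun x => ⟨f x.1, x.2⟩
      map_one' := Subtype.ext (map_one f)
      map_mul' := fun x y => Subtype.ext (map_mul f _ _) }
  have h1 : Group.IsSolvable (Subgroup.zpowers q) := by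
    let _ : CommGroup (Subgroup.zpowers q) := IsCyclic.commGroup
    infer_instance
  have h2 : Group.IsSolvable p.ker := by
    let j : p.ker →* f.ker :=
      { toFun := fun x => ⟨x.1.1, congrArg Subtype.val x.2⟩
        map_one' := rfl
        map_mul' := fun _ _ => rfl }
    refine Group.isSolvable_of_isSolvable_injective (f := j) ?_
    intro x y hxy
    apply Subtype.ext
    apply Subtype.ext
    have h3 : ((j x : f.ker) : G) = (j y : f.ker) := by rw [hxy]
    exact h3
  exact Group.isSolvable_of_ker_le_range p.ker.subtype p (by simp)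

end FJClosed

end Pool.Agent.H8.FJ3
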