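import Pool.Agent.H8.FJ3.GWreath

/-!
# The universal property of graph wreath products
-/

namespace Pool.Agent.H8.FJ3

theorem FJClosed.isGWr {C : ∀ (G : Type) [Group G], Prop} (hC : FJClosed C) {X A G W : Type}
    [Group A] [Group G] [Group W] [MulAction G X] {E : SimpleGraph X}
    (hE : ∀ (g : G) (x y : X), E.Adj x y → E.Adj (g • x) (g • y)) {α : X → A →* W} {γ : G →* W}
    (h : IsGWr E α γ) (hA : C A) (hG : C G) : C W := by
  obtain ⟨f, ⟨hf1, hf2⟩, -⟩ := h.univ (GWr A hE)
    (fun x => (SemidirectProduct.inl : GProd X A E →* GWr A hE).comp (gof E x))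
    (SemidirectProduct.inr : G →* GWr A hE)
    (fun x y a b hxy => by
      show (SemidirectProduct.inl : GProd X A E →* GWr A hE) (gof E x a) *
        (SemidirectProduct.inl : GProd X A E →* GWr A hE) (gof E y b) =
        (SemidirectProduct.inl : GProd X A E →* GWr A hE) (gof E y b) *
        (SemidirectProduct.inl : GProd X A E →* GWr A hE) (gof E x a)
      rw [← map_mul, gof_comm hxy, map_mul])
    (fun g x a => by
      show (SemidirectProduct.inr : G →* GWr A hE) g *
        (SemidirectProduct.inl : GProd X A E →* GWr A hE) (gof E x a) =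
        (SemidirectProduct.inl : GProd X A E →* GWr A hE) (gof E (g • x) a) *
        (SemidirectProduct.inr : G →* GWr A hE) g
      rw [← gact_gof hE g x a, SemidirectProduct.inl_aut, map_inv, inv_mul_cancel_right])
  let k : GWr A hE →* W := SemidirectProduct.lift (glift α (fun x y hxy a b => h.comm x y a b hxy))
    γ (by
      intro g
      refine ghom_ext (fun x a => ?_)
      have h4 : glift α (fun x y hxy a b => h.comm x y a b hxy) (gact A hE g (gof E x a)) =
          γ g * glift α (fun x y hxy a b => h.comm x y a b hxy) (gof E x a) * (γ g)⁻¹ := by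
        rw [gact_gof, glift_gof, glift_gof, h.conj, mul_inv_cancel_right]
      exact h4)
  obtain ⟨i, -, hi⟩ := h.univ W α γ h.comm h.conj
  have h1 : k.comp f = i := by
    apply hi
    refine ⟨fun x a => ?_, fun g => ?_⟩
    · show k (f (α x a)) = α x a
      rw [hf1]
      show SemidirectProduct.lift _ _ _ (SemidirectProduct.inl (gof E x a)) = α x a
      rw [SemidirectProduct.lift_inl, glift_gof]
    · show k (f (γ g)) = γ g
      rw [hf2]
      exact SemidirectProduct.lift_inr _ _ _ _
  have h2 : MonoidHom.id W = i := hi _ ⟨fun _ _ => rfl, fun _ => rfl⟩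
  have h3 : ∀ w, k (f w) = w := fun w =>
    congrArg (fun f : W →* W => f w) (h1.trans h2.symm)
  exact hC.sub f (fun w w' hw => by rw [← h3 w, hw, h3]) (hC.gwreath hE hA hG)

/-- The semidirect product `GWr A hE` has the universal property. -/
theorem isGWr_GWr {X A G : Type} [Group A] [Group G] [MulAction G X] {E : SimpleGraph X}
    (hE : ∀ (g : G) (x y : X), E.Adj x y → E.Adj (g • x) (g • y)) :
    IsGWr E (fun x => (SemidirectProduct.inl : GProd X A E →* GWr A hE).comp (gof E x))
      (SemidirectProduct.inr : G →* GWr A hE) := by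
  refine ⟨?_, ?_, ?_⟩
  · intro x y a b hxy
    show (SemidirectProduct.inl : GProd X A E →* GWr A hE) (gof E x a) *
      (SemidirectProduct.inl : GProd X A E →* GWr A hE) (gof E y b) =
      (SemidirectProduct.inl : GProd X A E →* GWr A hE) (gof E y b) *
      (SemidirectProduct.inl : GProd X A E →* GWr A hE) (gof E x a)
    rw [← map_mul, gof_comm hxy, map_mul]
  · intro g x a
    show (SemidirectProduct.inr : G →* GWr A hE) g *
      (SemidirectProduct.inl : GProd X A E →* GWr A hE) (gof E x a) =
      (SemidirectProduct.inl : GProd X A E →* GWr A hE) (gof E (g • x) a) *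
      (SemidirectProduct.inr : G →* GWr A hE) g
    rw [← gact_gof hE g x a, SemidirectProduct.inl_aut, map_inv, inv_mul_cancel_right]
  · intro H _ α' γ' h1 h2
    have h3 : ∀ g : G, (glift α' (fun x y hxy a b => h1 x y a b hxy)).comp
        (MulEquiv.toMonoidHom (gact A hE g)) = (MulEquiv.toMonoidHom (MulAut.conj (γ' g))).comp
          (glift (E := E) α' (fun x y hxy a b => h1 x y a b hxy)) := by
      intro g
      refine ghom_ext (fun x a => ?_)
      have h4 : glift α' (fun x y hxy a b => h1 x y a b hxy) (gact A hE g (gof E x a)) =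
          γ' g * glift α' (fun x y hxy a b => h1 x y a b hxy) (gof E x a) * (γ' g)⁻¹ := by
        rw [gact_gof, glift_gof, glift_gof, h2, mul_inv_cancel_right]
      exact h4
    refine ⟨SemidirectProduct.lift (glift α' (fun x y hxy a b => h1 x y a b hxy)) γ' h3,
      ⟨fun x a => ?_, fun g => ?_⟩, ?_⟩
    · show SemidirectProduct.lift _ _ _ (SemidirectProduct.inl (gof E x a)) = α' x a
      rw [SemidirectProduct.lift_inl, glift_gof]
    · exact SemidirectProduct.lift_inr _ _ _ _
    · rintro f ⟨hf1, hf2⟩
      refine SemidirectProduct.hom_ext ?_ ?_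
      · refine ghom_ext (fun x a => ?_)
        have h5 : f (SemidirectProduct.inl (gof E x a)) = α' x a := hf1 x a
        show f (SemidirectProduct.inl (gof E x a)) =
          SemidirectProduct.lift _ _ h3 (SemidirectProduct.inl (gof E x a))
        rw [h5, SemidirectProduct.lift_inl, glift_gof]
      · refine MonoidHom.ext (fun g => ?_)
        show f (SemidirectProduct.inr g) = SemidirectProduct.lift _ _ h3 (SemidirectProduct.inr g)
        rw [hf2 g]
        exact (SemidirectProduct.lift_inr _ _ _ _).symm

end Pool.Agent.H8.FJ3
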