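import Pool.Agent.H8.FJ3.Main
import Pool.Agent.H8.FJ3.IsGWr

/-!
# A class of groups satisfying the Farrell-Jones conjecture
-/

namespace Pool.Agent.H8.FJ3

open Pool.Agent.H8.FJ Pool.Agent.H8.FJ2 Matrix

/-- The class is contained in every class with the inheritance properties. -/
theorem FJBig.mem {G : Type} [Group G] (h : FJBig G) (C : ∀ (G : Type) [Group G], Prop)
    (hC : FJClosed C) : C G := by
  induction h with
  | tree Γ hΓ hadj hinv hcyc => exact hC.tree Γ hΓ hadj hinv hcyc
  | solv h => exact hC.solv h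
  | sub f hf h ih => exact hC.sub f hf ih
  | fi N hN h ih => exact hC.fi N hN ih
  | prod hG hH ihG ihH => exact hC.prod ihG ihH
  | ext f hQ h ihQ ih => exact hC.ext f ihQ ih
  | colim G f hid hcomp g hg hsurj hinj h ih => exact hC.colim G f hid hcomp g hg hsurj hinj ih
  | automata K hK => exact hC.of_FJClass (FJClass.of_gens hK)
  | recursion φ π hπ hker h ih => exact hC.of_recursion φ π hπ hker ih
  | locFin N hN hQ ih => exact hC.of_locallyFinite N hN ih
  | @locInner G _ N _ I hI K hdir hN j P _ ι p h1 h2 hι hp hP hQ ihP ihQ =>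
    exact hC.of_locInner N ⟨I, hI, K, hdir, hN, fun g i => ⟨j g i, h1 g i, h2 g i, P g i,
      inferInstance, ι g i, p g i, ihP g i, hι g i, hp g i⟩⟩ ihQ
  | gwreath hE h hA hG ihA ihG => exact hC.isGWr hE h ihA ihG
  | @length G _ M hM Q _ ψ hψ hQ ih =>
    exact hC.of_length M hM (fun n => ⟨Q n, inferInstance, ψ n, ih n, hψ n⟩)
  | gl2 h hJ ih => exact hC.GL2 h ih
  | gl2poly h ih => exact hC.GL2_mvPolynomial _ _ ih

end Pool.Agent.H8.FJ3
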