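import Pool.Agent.H8.FJ2.Types

/-!
# Classes of groups with the inheritance properties of the Farrell-Jones conjecture

`FJClosed C` says that the class `C` of groups contains the solvable groups and the groups acting on
trees with cyclic stabilisers and is closed under the operations known to preserve the Farrell-Jones
conjecture with coefficients in additive categories and with finite wreath products.  `FJBig` is the
smallest class which has these properties and the further closure properties proved here.
-/

namespace Pool.Agent.H8.FJ3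

open Pool.Agent.H8.FJ Pool.Agent.H8.FJ2 Matrix

/-- The class `C` of groups contains the groups acting on trees without inversions and with cyclic
vertex stabilisers and the solvable groups, and is closed under subgroups, overgroups of finite
index, products of two groups, directed colimits, and the following extension principle: `G` is in
the class if there is a homomorphism `f` from `G` to a group `Q` of the class such that the
preimages of all the cyclic subgroups of `Q` are in the class. -/
structure FJClosed (C : ∀ (G : Type) [Group G], Prop) : Prop where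
  tree : ∀ {G V : Type} [Group G] [MulAction G V] (Γ : SimpleGraph V), Γ.IsTree →
    (∀ (g : G) (v w : V), Γ.Adj v w → Γ.Adj (g • v) (g • w)) →
    (∀ (g : G) (v w : V), Γ.Adj v w → g • v = w → g • w ≠ v) →
    (∀ v : V, IsCyclic (MulAction.stabilizer G v)) → C G
  solv : ∀ {G : Type} [Group G], Group.IsSolvable G → C G
  sub : ∀ {G H : Type} [Group G] [Group H] (f : H →* G), Function.Injective f → C G → C H
  fi : ∀ {G : Type} [Group G] (N : Subgroup G), N.FiniteIndex → C N → C G
  prod : ∀ {G H : Type} [Group G] [Group H], C G → C H → C (G × H)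
  ext : ∀ {G Q : Type} [Group G] [Group Q] (f : G →* Q), C Q →
    (∀ q : Q, C ((Subgroup.zpowers q).comap f)) → C G
  colim : ∀ {I : Type} [Preorder I] [IsDirected I (· ≤ ·)] [Nonempty I] (G : I → Type)
    [∀ i, Group (G i)] (f : ∀ i j, i ≤ j → G i →* G j),
    (∀ i x, f i i le_rfl x = x) →
    (∀ i j k (hij : i ≤ j) (hjk : j ≤ k) (x : G i),
      f j k hjk (f i j hij x) = f i k (hij.trans hjk) x) →
    ∀ {H : Type} [Group H] (g : ∀ i, G i →* H),
    (∀ i j (hij : i ≤ j) (x : G i), g j (f i j hij x) = g i x) →
    (∀ y, ∃ i, ∃ x, g i x = y) →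
    (∀ i x, g i x = 1 → ∃ j, ∃ hij : i ≤ j, f i j hij x = 1) →
    (∀ i, C (G i)) → C H

/-! ### Wreath recursions -/

/-- For a wreath recursion `φ : G →* Wr X G` (a homomorphism to the wreath product of `G` with the
symmetric group of `X`), `Killed φ n g` says that `g` is in the kernel of the `n`-th iterate
`G →* Wr (X^n) G` of `φ`. -/
def Killed {G X : Type} [Group G] (φ : G →* Wr X G) : ℕ → G → Prop
  | 0, g => g = 1
  | n + 1, g => (φ g).perm = 1 ∧ ∀ x, Killed φ n ((φ g).sec x)

/-! ### Ultrametric length functions -/

/-- `M` is half of the displacement of a base vertex of a tree. -/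
structure Ultra {G : Type} [Group G] (M : G → ℕ) : Prop where
  one : M 1 = 0
  inv : ∀ g, M g⁻¹ = M g
  mul : ∀ g h, M (g * h) ≤ M g + M h
  four : ∀ g h k, M (g⁻¹ * h) + M k ≤ max (M (g⁻¹ * k) + M h) (M (k⁻¹ * h) + M g)

/-! ### Graph wreath products -/

/-- The graph wreath product of `A` and `G` over the graph `E` with an action of `G`: the group `W`
generated by copies `α x` of `A`, `x` a vertex, and by the group `G`, where the copies at adjacent
vertices commute and `G` permutes the copies. -/
structure IsGWr {X A G W : Type} [Group A] [Group G] [Group W] [MulAction G X]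
    (E : SimpleGraph X) (α : X → A →* W) (γ : G →* W) : Prop where
  comm : ∀ x y a b, E.Adj x y → α x a * α y b = α y b * α x a
  conj : ∀ g x a, γ g * α x a = α (g • x) a * γ g
  univ : ∀ (H : Type) [Group H] (α' : X → A →* H) (γ' : G →* H),
    (∀ x y a b, E.Adj x y → α' x a * α' y b = α' y b * α' x a) →
    (∀ g x a, γ' g * α' x a = α' (g • x) a * γ' g) →
    ∃! f : W →* H, (∀ x a, f (α x a) = α' x a) ∧ ∀ g, f (γ g) = γ' g

/-! ### Degree functions -/

/-- A degree function on the ring `R`, and a sequence of ideals such that the elements of bounded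
degree are separated from `0` by an ideal of the sequence. -/
structure DegSep {R : Type} [CommRing R] (deg : R → ℕ) (J : ℕ → Ideal R) : Prop where
  mul : ∀ r s, r ≠ 0 → s ≠ 0 → deg (r * s) = deg r + deg s
  add : ∀ r s, deg (r + s) ≤ max (deg r) (deg s)
  sep : ∀ n, ∃ m, ∀ r ∈ J m, deg r ≤ n → r = 0

/-! ### The class -/

/-- The smallest class of groups with the properties listed by the constructors.  The constructors
`tree`, `solv`, `sub`, `fi`, `prod`, `ext`, `colim` are the properties of `FJClosed`, the others are
the new ones. -/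
inductive FJBig : (G : Type) → [Group G] → Prop
  /-- Groups acting on trees without inversions and with cyclic vertex stabilisers. -/
  | tree {G V : Type} [Group G] [MulAction G V] (Γ : SimpleGraph V) (hΓ : Γ.IsTree)
      (hadj : ∀ (g : G) (v w : V), Γ.Adj v w → Γ.Adj (g • v) (g • w))
      (hinv : ∀ (g : G) (v w : V), Γ.Adj v w → g • v = w → g • w ≠ v)
      (hcyc : ∀ v : V, IsCyclic (MulAction.stabilizer G v)) : FJBig G
  /-- Solvable groups. -/
  | solv {G : Type} [Group G] (h : Group.IsSolvable G) : FJBig G
  /-- Subgroups. -/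
  | sub {G H : Type} [Group G] [Group H] (f : H →* G) (hf : Function.Injective f)
      (h : FJBig G) : FJBig H
  /-- Overgroups of finite index. -/
  | fi {G : Type} [Group G] (N : Subgroup G) (hN : N.FiniteIndex) (h : FJBig N) : FJBig G
  /-- Products. -/
  | prod {G H : Type} [Group G] [Group H] (hG : FJBig G) (hH : FJBig H) : FJBig (G × H)
  /-- The extension principle. -/
  | ext {G Q : Type} [Group G] [Group Q] (f : G →* Q) (hQ : FJBig Q)
      (h : ∀ q : Q, FJBig ((Subgroup.zpowers q).comap f)) : FJBig G
  /-- Directed colimits. -/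
  | colim {I : Type} [Preorder I] [IsDirected I (· ≤ ·)] [Nonempty I] (G : I → Type)
      [∀ i, Group (G i)] (f : ∀ i j, i ≤ j → G i →* G j)
      (hid : ∀ i x, f i i le_rfl x = x)
      (hcomp : ∀ i j k (hij : i ≤ j) (hjk : j ≤ k) (x : G i),
        f j k hjk (f i j hij x) = f i k (hij.trans hjk) x)
      {H : Type} [Group H] (g : ∀ i, G i →* H)
      (hg : ∀ i j (hij : i ≤ j) (x : G i), g j (f i j hij x) = g i x)
      (hsurj : ∀ y, ∃ i, ∃ x, g i x = y)
      (hinj : ∀ i x, g i x = 1 → ∃ j, ∃ hij : i ≤ j, f i j hij x = 1)
      (h : ∀ i, FJBig (G i)) : FJBig H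
  /-- Groups generated by automorphisms of a regular rooted tree which are of polynomial type, or
  automatic of polynomial activity. -/
  | automata {X : Type} [Finite X] (K : Subgroup (TAut X))
      (hK : K ≤ Subgroup.closure {g | (∃ n, PolyType n g) ∨ (Automatic g ∧ PolyActivity g)}) :
      FJBig K
  /-- The quotient of `G` by the elements killed by the iterates of a wreath recursion. -/
  | recursion {G X H : Type} [Group G] [Finite X] [Group H] (φ : G →* Wr X G) (π : G →* H)
      (hπ : Function.Surjective π) (hker : ∀ g, π g = 1 ↔ ∃ n, Killed φ n g)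
      (h : FJBig G) : FJBig H
  /-- Extensions with locally finite kernel. -/
  | locFin {G : Type} [Group G] (N : Subgroup G) [N.Normal]
      (hN : ∀ K : Subgroup G, K ≤ N → K.FG → Finite K) (hQ : FJBig (G ⧸ N)) : FJBig G
  /-- Extensions with locally inner action: the kernel `N` is the union of a directed family of
  subgroups `K i`, and for all `g` and `i` the conjugation by `g` on `K i` is the restriction of an
  inner automorphism of a group `P g i` of the class containing a member `K (j g i)` of the family
  with `K i ≤ K (j g i)` and `g * K i * g⁻¹ ≤ K (j g i)`. -/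
  | locInner {G : Type} [Group G] (N : Subgroup G) [N.Normal] {I : Type} [Nonempty I]
      (K : I → Subgroup G) (hdir : Directed (· ≤ ·) K) (hN : ∀ x, x ∈ N ↔ ∃ i, x ∈ K i)
      (j : G → I → I) (P : G → I → Type) [∀ g i, Group (P g i)]
      (ι : ∀ g i, K (j g i) →* P g i) (p : ∀ g i, P g i)
      (h1 : ∀ g i, K i ≤ K (j g i)) (h2 : ∀ g i, ∀ x ∈ K i, g * x * g⁻¹ ∈ K (j g i))
      (hι : ∀ g i, Function.Injective (ι g i))
      (hp : ∀ g i (x y : K (j g i)), (x : G) ∈ K i → (y : G) = g * x * g⁻¹ →
        ι g i y = p g i * ι g i x * (p g i)⁻¹)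
      (hP : ∀ g i, FJBig (P g i)) (hQ : FJBig (G ⧸ N)) : FJBig G
  /-- Graph wreath products. -/
  | gwreath {X A G W : Type} [Group A] [Group G] [Group W] [MulAction G X] {E : SimpleGraph X}
      (hE : ∀ (g : G) (x y : X), E.Adj x y → E.Adj (g • x) (g • y)) {α : X → A →* W} {γ : G →* W}
      (h : IsGWr E α γ) (hA : FJBig A) (hG : FJBig G) : FJBig W
  /-- Groups with an ultrametric length function such that the elements of bounded length are
  separated from `1` by a homomorphism to a group of the class. -/
  | length {G : Type} [Group G] (M : G → ℕ) (hM : Ultra M) (Q : ℕ → Type) [∀ n, Group (Q n)]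
      (ψ : ∀ n, G →* Q n) (hψ : ∀ n g, M g ≤ n → ψ n g = 1 → g = 1)
      (hQ : ∀ n, FJBig (Q n)) : FJBig G
  /-- `GL₂` of a domain with a degree function. -/
  | gl2 {R : Type} [CommRing R] [IsDomain R] {deg : R → ℕ} {J : ℕ → Ideal R}
      (h : DegSep deg J) (hJ : ∀ m, FJBig (GL (Fin 2) (R ⧸ J m))) : FJBig (GL (Fin 2) R)
  /-- `GL₂` of the polynomial rings over a domain. -/
  | gl2poly {σ R : Type} [CommRing R] [IsDomain R] (h : FJBig (GL (Fin 2) R)) :
      FJBig (GL (Fin 2) (MvPolynomial σ R))

end Pool.Agent.H8.FJ3
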