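import Pool.Agent.H8.FJ3.Core

/-!
# Classes of groups with the inheritance properties of the Farrell-Jones conjecture

`FJClosed C` says that the class `C` of groups contains the solvable groups and the groups acting on
trees with cyclic stabilisers and is closed under the operations known to preserve the Farrell-Jones
conjecture with coefficients in additive categories and with finite wreath products.
-/

namespace Pool.Agent.H8.FJ3

open Pool.Agent.H8.FJ

/-! ### Locally inner actions -/

/-- The subgroup `N` is the union of a directed family of subgroups `K i`, and for all `g` and `i`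
there is `j` such that `K j` contains `K i` and `g * K i * g⁻¹` and has an injective homomorphism to
a group `P` of the class `C` with an element `p` such that the conjugation by `p` extends the
homomorphism `x ↦ g * x * g⁻¹` from `K i` to `K j`. -/
def LocInner (C : ∀ (G : Type) [Group G], Prop) (G : Type) [Group G] (N : Subgroup G) : Prop :=
  ∃ (I : Type) (_ : Nonempty I) (K : I → Subgroup G), Directed (· ≤ ·) K ∧
    (∀ x, x ∈ N ↔ ∃ i, x ∈ K i) ∧
    ∀ (g : G) (i : I), ∃ j, K i ≤ K j ∧ (∀ x ∈ K i, g * x * g⁻¹ ∈ K j) ∧
      ∃ (P : Type) (_ : Group P) (ι : K j →* P) (p : P), C P ∧ Function.Injective ι ∧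
        ∀ x y : K j, (x : G) ∈ K i → (y : G) = g * x * g⁻¹ → ι y = p * ι x * p⁻¹

/-! ### Graph products -/

/-- The commutation relations of the graph product. -/
def gpRel (X A : Type) [Group A] (E : SimpleGraph X) : Set (Monoid.CoprodI (fun _ : X => A)) :=
  {r | ∃ x y a b, E.Adj x y ∧
      r = Monoid.CoprodI.of (M := fun _ : X => A) (i := x) a *
        Monoid.CoprodI.of (M := fun _ : X => A) (i := y) b *
        (Monoid.CoprodI.of (M := fun _ : X => A) (i := x) a)⁻¹ *
        (Monoid.CoprodI.of (M := fun _ : X => A) (i := y) b)⁻¹}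

/-- The graph product of copies of the group `A` indexed by the vertices of the graph `E`: the free
product of the copies `A_x` modulo the relations that the elements of `A_x` and `A_y` commute if
`x` and `y` are adjacent. -/
abbrev GProd (X A : Type) [Group A] (E : SimpleGraph X) : Type :=
  Monoid.CoprodI (fun _ : X => A) ⧸ Subgroup.normalClosure (gpRel X A E)

section GProd

variable {X A : Type} [Group A] {E : SimpleGraph X}

/-- The copy of `A` at the vertex `x`. -/
noncomputable def gof (E : SimpleGraph X) (x : X) : A →* GProd X A E :=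
  (QuotientGroup.mk' _).comp (Monoid.CoprodI.of (M := fun _ : X => A) (i := x))

theorem gof_comm {x y : X} (h : E.Adj x y) (a b : A) :
    gof E x a * gof E y b = gof E y b * gof E x a := by
  have h1 : gof E x a * gof E y b * (gof E x a)⁻¹ * (gof E y b)⁻¹ = 1 := by
    show (QuotientGroup.mk' _) _ * (QuotientGroup.mk' _) _ * ((QuotientGroup.mk' _) _)⁻¹ *
      ((QuotientGroup.mk' _) _)⁻¹ = 1
    exact (QuotientGroup.eq_one_iff _).2 (Subgroup.subset_normalClosure ⟨x, y, a, b, h, rfl⟩)
  rw [mul_inv_eq_one, mul_inv_eq_iff_eq_mul] at h1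
  exact h1

theorem gprod_lift_ker {H : Type} [Group H] (f : X → A →* H)
    (hf : ∀ x y, E.Adj x y → ∀ a b, f x a * f y b = f y b * f x a) :
    ∀ r ∈ Subgroup.normalClosure (gpRel X A E), Monoid.CoprodI.lift f r = 1 := by
  intro r hr
  have h : Subgroup.normalClosure (gpRel X A E) ≤ (Monoid.CoprodI.lift f).ker := by
    refine Subgroup.normalClosure_le_normal ?_
    rintro r ⟨x, y, a, b, hxy, rfl⟩
    show Monoid.CoprodI.lift f _ = 1
    rw [map_mul, map_mul, map_mul, map_inv, map_inv, Monoid.CoprodI.lift_of,
      Monoid.CoprodI.lift_of, hf x y hxy, mul_inv_cancel_right, mul_inv_cancel]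
  exact h hr

/-- The universal property. -/
noncomputable def glift {H : Type} [Group H] (f : X → A →* H)
    (hf : ∀ x y, E.Adj x y → ∀ a b, f x a * f y b = f y b * f x a) : GProd X A E →* H :=
  QuotientGroup.lift _ (Monoid.CoprodI.lift f) (gprod_lift_ker f hf)

theorem glift_gof {H : Type} [Group H] (f : X → A →* H)
    (hf : ∀ x y, E.Adj x y → ∀ a b, f x a * f y b = f y b * f x a) (x : X) (a : A) :
    glift f hf (gof E x a) = f x a := by
  show QuotientGroup.lift _ _ _ (QuotientGroup.mk' _ _) = _
  exact (QuotientGroup.lift_mk' _ _ _).trans (Monoid.CoprodI.lift_of _ _)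

theorem ghom_ext {H : Type} [Group H] {f g : GProd X A E →* H}
    (h : ∀ x a, f (gof E x a) = g (gof E x a)) : f = g := by
  refine QuotientGroup.monoidHom_ext _ ?_
  refine Monoid.CoprodI.ext_hom _ _ (fun x => ?_)
  exact MonoidHom.ext (fun a => h x a)

theorem gmap_comm_aux {Y : Type} {F : SimpleGraph Y} (e : X → Y)
    (he : ∀ x y, E.Adj x y → F.Adj (e x) (e y)) (x y : X) (h : E.Adj x y) (a b : A) :
    gof F (e x) a * gof F (e y) b = gof F (e y) b * gof F (e x) a :=
  gof_comm (he x y h) a b

/-- A map of the vertices which preserves the adjacency. -/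
noncomputable def gmap {Y : Type} {F : SimpleGraph Y} (e : X → Y)
    (he : ∀ x y, E.Adj x y → F.Adj (e x) (e y)) : GProd X A E →* GProd Y A F :=
  glift (fun x => gof F (e x)) (gmap_comm_aux e he)

theorem gmap_gof {Y : Type} {F : SimpleGraph Y} (e : X → Y)
    (he : ∀ x y, E.Adj x y → F.Adj (e x) (e y)) (x : X) (a : A) :
    gmap (E := E) (F := F) e he (gof E x a) = gof F (e x) a := glift_gof _ _ x a

section Act

variable {G : Type} [Group G] [MulAction G X]
  (hE : ∀ (g : G) (x y : X), E.Adj x y → E.Adj (g • x) (g • y))

/-- The endomorphism of the graph product given by an element of `G`. -/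
noncomputable def gend (A : Type) [Group A] (g : G) : GProd X A E →* GProd X A E :=
  gmap (fun x => g • x) (hE g)

theorem gend_gof (g : G) (x : X) (a : A) : gend hE A g (gof E x a) = gof E (g • x) a :=
  gmap_gof (E := E) (F := E) (fun x => g • x) (hE g) x a

theorem gend_one (z : GProd X A E) : gend hE A 1 z = z := by
  have h : gend hE A 1 = MonoidHom.id (GProd X A E) := by
    refine ghom_ext (fun x a => ?_)
    rw [gend_gof, one_smul]
    rfl
  exact congrArg (fun f : GProd X A E →* GProd X A E => f z) h

theorem gend_mul (g g' : G) (z : GProd X A E) :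
    gend hE A (g * g') z = gend hE A g (gend hE A g' z) := by
  have h : gend hE A (g * g') = (gend hE A g).comp (gend hE A g') := by
    refine ghom_ext (fun x a => ?_)
    rw [MonoidHom.comp_apply, gend_gof, gend_gof, gend_gof, mul_smul]
  exact congrArg (fun f : GProd X A E →* GProd X A E => f z) h

theorem gend_inv_left (g : G) (z : GProd X A E) : gend hE A g⁻¹ (gend hE A g z) = z := by
  rw [← gend_mul, inv_mul_cancel, gend_one]

theorem gend_inv_right (g : G) (z : GProd X A E) : gend hE A g (gend hE A g⁻¹ z) = z := by
  rw [← gend_mul, mul_inv_cancel, gend_one]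

/-- The automorphism of the graph product given by an element of `G`. -/
noncomputable def gaut (A : Type) [Group A] (g : G) : MulAut (GProd X A E) :=
  { toFun := gend hE A g
    invFun := gend hE A g⁻¹
    left_inv := gend_inv_left hE g
    right_inv := gend_inv_right hE g
    map_mul' := map_mul (gend hE A g) }

theorem gaut_one : gaut hE A 1 = 1 := by
  ext z
  exact gend_one hE z

theorem gaut_mul (g g' : G) : gaut hE A (g * g') = gaut hE A g * gaut hE A g' := by
  ext z
  exact gend_mul hE g g' z

end Act

/-- The action of a group of automorphisms of the graph. -/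
noncomputable def gact (A : Type) [Group A] {G : Type} [Group G] [MulAction G X]
    (hE : ∀ (g : G) (x y : X), E.Adj x y → E.Adj (g • x) (g • y)) : G →* MulAut (GProd X A E) where
  toFun g := gaut hE A g
  map_one' := gaut_one hE
  map_mul' := gaut_mul hE

theorem gact_gof {G : Type} [Group G] [MulAction G X]
    (hE : ∀ (g : G) (x y : X), E.Adj x y → E.Adj (g • x) (g • y)) (g : G) (x : X) (a : A) :
    gact A hE g (gof E x a) = gof E (g • x) a :=
  gend_gof hE g x a

/-- The graph wreath product of `A` and `G` over a graph with an action of `G`. -/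
abbrev GWr (A : Type) [Group A] {G : Type} [Group G] [MulAction G X]
    (hE : ∀ (g : G) (x y : X), E.Adj x y → E.Adj (g • x) (g • y)) : Type :=
  GProd X A E ⋊[gact A hE] G

end GProd

/-! ### Finitary automorphisms of free modules -/

/-- The automorphism `f` maps the basis vector of `x` to the basis vector of `g • x` for all but
finitely many `x`. -/
def IsFin {R X G : Type} [Ring R] [Group G] [MulAction G X]
    (p : ((X →₀ R) ≃ₗ[R] (X →₀ R)) × G) : Prop :=
  {x | p.1 (Finsupp.single x 1) ≠ Finsupp.single (p.2 • x) 1}.Finite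

section IsFin

variable {R X G : Type} [Ring R] [Group G] [MulAction G X]

theorem isFin_one : IsFin (1 : ((X →₀ R) ≃ₗ[R] (X →₀ R)) × G) := by
  refine Set.finite_empty.subset ?_
  intro x hx
  refine hx ?_
  simp

theorem isFin_mul {p q : ((X →₀ R) ≃ₗ[R] (X →₀ R)) × G} (hp : IsFin p) (hq : IsFin q) :
    IsFin (p * q) := by
  have h1 : ((fun x => q.2 • x) ⁻¹' {x | p.1 (Finsupp.single x 1) ≠
      Finsupp.single (p.2 • x) 1}).Finite :=
    Set.Finite.preimage (MulAction.injective q.2).injOn hp
  refine (Set.Finite.union hq h1).subset ?_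
  intro x hx
  by_contra h
  rw [Set.mem_union, not_or] at h
  obtain ⟨h2, h3⟩ := h
  have h4 : q.1 (Finsupp.single x 1) = Finsupp.single (q.2 • x) 1 := not_not.1 h2
  have h5 : p.1 (Finsupp.single (q.2 • x) 1) = Finsupp.single (p.2 • q.2 • x) 1 := not_not.1 h3
  refine hx ?_
  show p.1 (q.1 (Finsupp.single x 1)) = Finsupp.single ((p.2 * q.2) • x) 1
  rw [h4, h5, mul_smul]

theorem isFin_inv {p : ((X →₀ R) ≃ₗ[R] (X →₀ R)) × G} (hp : IsFin p) : IsFin p⁻¹ := by
  have h1 : ((fun x => p.2⁻¹ • x) ⁻¹' {x | p.1 (Finsupp.single x 1) ≠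
      Finsupp.single (p.2 • x) 1}).Finite :=
    Set.Finite.preimage (MulAction.injective p.2⁻¹).injOn hp
  refine h1.subset ?_
  intro x hx h
  refine hx ?_
  have h5 : p.1 (Finsupp.single (p.2⁻¹ • x) 1) = Finsupp.single (p.2 • p.2⁻¹ • x) 1 := h
  rw [smul_inv_smul] at h5
  show p.1.symm (Finsupp.single x 1) = Finsupp.single (p.2⁻¹ • x) 1
  rw [← h5, LinearEquiv.symm_apply_apply]

end IsFin

/-- The group of the pairs of an automorphism `f` of the free module with the basis `X` and an
element `g` of `G` such that `f` maps the basis vector of `x` to the basis vector of `g • x` for all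
but finitely many `x`. -/
def FinAut (R X G : Type) [Ring R] [Group G] [MulAction G X] :
    Subgroup (((X →₀ R) ≃ₗ[R] (X →₀ R)) × G) where
  carrier := {p | IsFin p}
  one_mem' := isFin_one
  mul_mem' := isFin_mul
  inv_mem' := isFin_inv

end Pool.Agent.H8.FJ3
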