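import Mathlib

/-!
# Extension of partial automorphisms of finite graphs
-/

namespace Pool.Agent.H8.FJ3

/-- Two functions on a finite set with fibres of the same cardinalities differ by a permutation. -/
theorem exists_perm_of_fibres {U T : Type} [Finite U] (a b : U → T)
    (h : ∀ t, Nat.card {u // a u = t} = Nat.card {u // b u = t}) :
    ∃ p : Equiv.Perm U, ∀ u, b (p u) = a u := by
  have e : ∀ t, {u // a u = t} ≃ {u // b u = t} := fun t =>
    ((Finite.card_eq (α := {u // a u = t}) (β := {u // b u = t})).1 (h t)).some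
  refine ⟨(Equiv.sigmaFiberEquiv a).symm.trans ((Equiv.sigmaCongrRight e).trans
    (Equiv.sigmaFiberEquiv b)), fun u => ?_⟩
  exact (e (a u) ⟨u, rfl⟩).2

/-- The graph of valuations. -/
private def valGraph (X : Type) : SimpleGraph (X × (X → Bool)) where
  Adj u v := u.1 ≠ v.1 ∧ u.2 v.1 ≠ v.2 u.1
  symm := ⟨fun _ _ h => ⟨h.1.symm, h.2.symm⟩⟩
  loopless := ⟨fun _ h => h.1 rfl⟩

/-- The automorphism of the graph of valuations given by a permutation and a set of switched pairs. -/
private def valPerm {X : Type} (σ : Equiv.Perm X) (Fl : X → X → Bool) :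
    Equiv.Perm (X × (X → Bool)) where
  toFun u := (σ u.1, fun z => xor (u.2 (σ.symm z)) (Fl u.1 (σ.symm z)))
  invFun u := (σ.symm u.1, fun y => xor (u.2 (σ y)) (Fl (σ.symm u.1) y))
  left_inv u := by
    refine Prod.ext (by simp) (funext fun y => ?_)
    simp
  right_inv u := by
    refine Prod.ext (by simp) (funext fun y => ?_)
    simp

/-- Hrushovski: every finite graph is an induced subgraph of a finite graph such that every
isomorphism between induced subgraphs of the given graph extends to an automorphism. -/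
theorem eppa (X : Type) [Finite X] (E : SimpleGraph X) : ∃ (Y : Type) (_ : Finite Y)
    (F : SimpleGraph Y) (e : X → Y), Function.Injective e ∧
      (∀ x y, E.Adj x y ↔ F.Adj (e x) (e y)) ∧
      ∀ (S : Set X) (s : S → X), Function.Injective s →
        (∀ x y : S, E.Adj x y ↔ E.Adj (s x) (s y)) →
        ∃ p : Equiv.Perm Y, (∀ x y, F.Adj x y ↔ F.Adj (p x) (p y)) ∧
          ∀ x : S, p (e x) = e (s x) := by
  classical
  obtain ⟨r, hr⟩ : ∃ r : X → X → Prop, ∀ x y, x ≠ y → (r x y ↔ ¬ r y x) := by
    obtain ⟨n, ⟨f⟩⟩ := Finite.exists_equiv_fin X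
    refine ⟨fun x y => f x < f y, fun x y hxy => ?_⟩
    have : f x ≠ f y := fun h => hxy (f.injective h)
    constructor
    · intro h h'
      exact absurd h' (not_lt.2 h.le)
    · intro h
      exact lt_of_le_of_ne (not_lt.1 h) this
  set χ : X → X → Bool := fun x y => decide (E.Adj x y ∧ r x y) with hχ
  have hχx : ∀ x, χ x x = false := fun x => by simp [hχ]
  have hχa : ∀ x y, x ≠ y → (E.Adj x y ↔ χ x y ≠ χ y x) := by
    intro x y hxy
    have h := hr x y hxy
    simp only [hχ, E.adj_comm y x]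
    by_cases h1 : E.Adj x y <;> by_cases h2 : r y x <;> simp_all
  refine ⟨X × (X → Bool), inferInstance, valGraph X, fun x => (x, χ x), ?_, ?_, ?_⟩
  · intro x y h
    exact congrArg Prod.fst h
  · intro x y
    constructor
    · intro h
      exact ⟨h.ne, (hχa x y h.ne).1 h⟩
    · rintro ⟨h1, h2⟩
      exact (hχa x y h1).2 h2
  · intro S s hs hiso
    set σ : Equiv.Perm X := (Equiv.ofInjective s hs).extendSubtype with hσ
    have hσs : ∀ x : S, σ x = s x := by
      intro x
      rw [hσ, Equiv.extendSubtype_apply_of_mem _ _ x.2]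
      rfl
    -- the correction
    set g : X → X → Bool := fun x y => xor (χ x y) (χ (σ x) (σ y)) with hg
    have hgg : ∀ x ∈ S, ∀ y ∈ S, g x y = g y x := by
      intro x hx y hy
      rcases eq_or_ne x y with rfl | hxy
      · rfl
      have h1 := hχa x y hxy
      have h2 := hχa (σ x) (σ y) (fun h => hxy (σ.injective h))
      have h3 := hiso ⟨x, hx⟩ ⟨y, hy⟩
      rw [← hσs, ← hσs] at h3
      simp only at h3
      rw [h1, h2] at h3
      simp only [hg]
      revert h3
      cases χ x y <;> cases χ y x <;> cases χ (σ x) (σ y) <;> cases χ (σ y) (σ x) <;> simp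
    set Fl : X → X → Bool := fun x y => (decide (x ∈ S) && g x y) || (decide (y ∈ S) && g y x) with hFl
    have hFs : ∀ x y, Fl x y = Fl y x := fun x y => by simp only [hFl]; exact Bool.or_comm _ _
    have hFx : ∀ x ∈ S, ∀ y, Fl x y = g x y := by
      intro x hx y
      by_cases hy : y ∈ S
      · simp [hFl, hx, hy, hgg y hy x hx]
      · simp [hFl, hx, hy]
    refine ⟨valPerm σ Fl, ?_, ?_⟩
    · intro u v
      have e1 : (valPerm σ Fl u).1 = σ u.1 := rfl
      have e2 : (valPerm σ Fl v).1 = σ v.1 := rfl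
      have e3 : (valPerm σ Fl u).2 (σ v.1) = xor (u.2 v.1) (Fl u.1 v.1) := by
        show xor (u.2 (σ.symm (σ v.1))) (Fl u.1 (σ.symm (σ v.1))) = _
        rw [Equiv.symm_apply_apply]
      have e4 : (valPerm σ Fl v).2 (σ u.1) = xor (v.2 u.1) (Fl u.1 v.1) := by
        show xor (v.2 (σ.symm (σ u.1))) (Fl v.1 (σ.symm (σ u.1))) = _
        rw [Equiv.symm_apply_apply, hFs]
      show (u.1 ≠ v.1 ∧ u.2 v.1 ≠ v.2 u.1) ↔ ((valPerm σ Fl u).1 ≠ (valPerm σ Fl v).1 ∧
        (valPerm σ Fl u).2 (valPerm σ Fl v).1 ≠ (valPerm σ Fl v).2 (valPerm σ Fl u).1)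
      rw [e1, e2, e3, e4]
      refine and_congr (not_congr σ.injective.eq_iff.symm) (not_congr ?_)
      cases u.2 v.1 <;> cases v.2 u.1 <;> cases Fl u.1 v.1 <;> simp
    · intro x
      refine Prod.ext (hσs x) (funext fun z => ?_)
      show xor (χ x (σ.symm z)) (Fl x (σ.symm z)) = χ (s x) z
      rw [hFx x x.2, ← hσs x]
      simp only [hg, Equiv.apply_symm_apply]
      cases χ x (σ.symm z) <;> cases χ (σ x) z <;> simp

end Pool.Agent.H8.FJ3
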