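import Pool.Agent.H8.FJ3.Basic

/-!
# Free products of copies of a group extended by a group permuting the factors
-/

namespace Pool.Agent.H8.FJ3

open Pool.Agent.H8.FJ2

/-- The action of `P` on the free product of the copies of `A` indexed by the set `S` with an
action of `P`. -/
def pD (P S A : Type) [Group P] [MulAction P S] [Group A] : FPD P S A where
  σ := MulAction.toPermHom P S
  α _ _ := 1
  hα _ _ _ := (one_mul _).symm

private theorem fpc_of_hom {C : ∀ (G : Type) [Group G], Prop} (hC : FJClosed C) {T S N : Type}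
    [Group T] [Group N] (D : FPD T S N) {Q : Type} [Group Q] (f : D.FP →* Q) (hQ : C Q)
    (h1 : ∀ (g : D.FP) (x : KK S N), g.left * D.θ g.right x = x → f g = 1 → g = 1)
    (h2 : ∀ (g : D.FP) (s : S) (x : KK S N) (n : N), D.σ g.right s = s →
      g.left * D.θ g.right x = x * lt s n → f g = 1 → g = 1) : C D.FP := by
  refine hC.of_tree (V := D.Vert) D.tree D.isTree (fun g v w h => D.adj_smul g v w h)
    (fun g v w h hg => D.no_inv g v w h hg) f ?_ hQ
  intro v g hg hfg
  rcases v with x | q
  · refine h1 g x ?_ hfg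
    have h3 : g • D.cen x = D.cen x := hg
    rw [FPD.smul_center] at h3
    exact D.cen_inj h3
  · induction q using Leaf.ind with
    | h s x =>
      have h3 : g • D.lf (mkLeaf s x) = D.lf (mkLeaf s x) := hg
      rw [FPD.smul_leaf] at h3
      obtain ⟨h5, n, hn⟩ := mkLeaf_eq.1 (D.lf_inj h3).symm
      exact h2 g s x n h5.symm hn hfg

theorem FJClosed.fpd {C : ∀ (G : Type) [Group G], Prop} (hC : FJClosed C) {P S A : Type} [Group P]
    [MulAction P S] [Group A] (hP : C P) (hA : C A) : C (pD P S A).FP := by
  let p : (pD P S A).FP →* A :=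
    SemidirectProduct.lift (Monoid.CoprodI.lift (fun _ => MonoidHom.id A)) 1 (by
      intro t
      apply Monoid.CoprodI.ext_hom
      intro s
      apply MonoidHom.ext
      intro n
      show Monoid.CoprodI.lift (fun _ => MonoidHom.id A) ((pD P S A).θ t (lt s n)) =
        1 * Monoid.CoprodI.lift (fun _ => MonoidHom.id A) (lt s n) * 1⁻¹
      rw [FPD.θ_apply, FPD.act_of, Monoid.CoprodI.lift_of, Monoid.CoprodI.lift_of, one_mul,
        inv_one, mul_one]
      rfl)
  have hp : ∀ g : (pD P S A).FP, p g =
      Monoid.CoprodI.lift (fun _ => MonoidHom.id A) g.left := by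
    intro g
    show Monoid.CoprodI.lift (fun _ => MonoidHom.id A) g.left * 1 = _
    rw [mul_one]
  refine fpc_of_hom hC (pD P S A) (SemidirectProduct.rightHom.prod p) (hC.prod hP hA) ?_ ?_
  · intro g x hx hg
    have h1 : g.right = 1 := congrArg Prod.fst hg
    rw [h1, map_one] at hx
    have h2 : g.left * x = x := hx
    exact SemidirectProduct.ext (mul_eq_right.1 h2) h1
  · intro g s x n hs hx hg
    have h1 : g.right = 1 := congrArg Prod.fst hg
    have h2 : p g = 1 := congrArg Prod.snd hg
    rw [h1, map_one] at hx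
    have h3 : g.left * x = x * lt s n := hx
    have h4 : g.left = x * lt s n * x⁻¹ := by rw [← h3, mul_inv_cancel_right]
    rw [hp, h4, map_mul, map_mul, Monoid.CoprodI.lift_of, map_inv, conj_eq_one_iff] at h2
    have h5 : n = 1 := h2
    refine SemidirectProduct.ext ?_ h1
    rw [h4, h5, map_one, mul_one, mul_inv_cancel]
    rfl

end Pool.Agent.H8.FJ3
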