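import Pool.Agent.H8.FJ3.LI

/-!
# Finitary automorphisms of free modules
-/

namespace Pool.Agent.H8.FJ3

section FinAutC

variable {R X : Type} [Ring R]

/-- A linear map which maps the basis vectors of `S` into the vectors supported in `T` maps the
vectors supported in `S` into the vectors supported in `T`. -/
theorem FinAutC_map {S T : Set X} (f : (X →₀ R) →ₗ[R] (X →₀ R))
    (h : ∀ x ∈ S, f (Finsupp.single x 1) ∈ Finsupp.supported R R T)
    {v : X →₀ R} (hv : v ∈ Finsupp.supported R R S) : f v ∈ Finsupp.supported R R T := by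
  rw [Finsupp.supported_eq_span_single] at hv
  refine Submodule.span_induction ?_ ?_ ?_ ?_ hv
  · rintro _ ⟨x, hx, rfl⟩
    exact h x hx
  · rw [map_zero]
    exact Submodule.zero_mem _
  · intro a b _ _ ha hb
    rw [map_add]
    exact Submodule.add_mem _ ha hb
  · intro r a _ ha
    rw [map_smul]
    exact Submodule.smul_mem _ _ ha

/-- Linear maps which agree on the basis vectors of `S` agree on the vectors supported in `S`. -/
theorem FinAutC_eq {S : Set X} (f f' : (X →₀ R) →ₗ[R] (X →₀ R))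
    (h : ∀ x ∈ S, f (Finsupp.single x 1) = f' (Finsupp.single x 1))
    {v : X →₀ R} (hv : v ∈ Finsupp.supported R R S) : f v = f' v := by
  rw [Finsupp.supported_eq_span_single] at hv
  refine Submodule.span_induction ?_ ?_ ?_ ?_ hv
  · rintro _ ⟨x, hx, rfl⟩
    exact h x hx
  · rw [map_zero, map_zero]
  · intro a b _ _ ha hb
    rw [map_add, map_add, ha, hb]
  · intro r a _ ha
    rw [map_smul, map_smul, ha]

/-- Automorphisms which agree on the basis are equal. -/
theorem FinAutC_ext {f f' : (X →₀ R) ≃ₗ[R] (X →₀ R)}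
    (h : ∀ x, f (Finsupp.single x 1) = f' (Finsupp.single x 1)) : f = f' := by
  ext1 v
  exact FinAutC_eq (S := Set.univ) f.toLinearMap f'.toLinearMap (fun x _ => h x)
    (by rw [Finsupp.supported_univ]; trivial)

/-- The automorphism `f` is the identity outside `S` and preserves the vectors supported in `S`. -/
def FinAutC_Fix (S : Finset X) (f : (X →₀ R) ≃ₗ[R] (X →₀ R)) : Prop :=
  (∀ x, x ∉ S → f (Finsupp.single x 1) = Finsupp.single x 1) ∧
  ∀ x ∈ S, f (Finsupp.single x 1) ∈ Finsupp.supported R R (S : Set X)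

theorem FinAutC_Fix.map_mem {S : Finset X} {f : (X →₀ R) ≃ₗ[R] (X →₀ R)}
    (h : FinAutC_Fix S f) {v : X →₀ R} (hv : v ∈ Finsupp.supported R R (S : Set X)) :
    f v ∈ Finsupp.supported R R (S : Set X) :=
  FinAutC_map f.toLinearMap (fun x hx => h.2 x hx) hv

theorem FinAutC_Fix.one (S : Finset X) : FinAutC_Fix S (1 : (X →₀ R) ≃ₗ[R] (X →₀ R)) :=
  ⟨fun _ _ => rfl, fun x hx => Finsupp.single_mem_supported R 1 (by exact_mod_cast hx)⟩

theorem FinAutC_Fix.mul {S : Finset X} {f g : (X →₀ R) ≃ₗ[R] (X →₀ R)}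
    (hf : FinAutC_Fix S f) (hg : FinAutC_Fix S g) : FinAutC_Fix S (f * g) := by
  refine ⟨fun x hx => ?_, fun x hx => ?_⟩
  · show f (g (Finsupp.single x 1)) = _
    rw [hg.1 x hx, hf.1 x hx]
  · exact hf.map_mem (hg.2 x hx)

theorem FinAutC_Fix.inv {S : Finset X} {f : (X →₀ R) ≃ₗ[R] (X →₀ R)}
    (hf : FinAutC_Fix S f) : FinAutC_Fix S f⁻¹ := by
  classical
  refine ⟨fun x hx => ?_, fun x hx => ?_⟩
  · show f.symm (Finsupp.single x 1) = _
    rw [LinearEquiv.symm_apply_eq, hf.1 x hx]
  · show f.symm (Finsupp.single x 1) ∈ _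
    set v := f.symm (Finsupp.single x 1) with hv
    have hfv : f v = Finsupp.single x 1 := by rw [hv, LinearEquiv.apply_symm_apply]
    set v1 := v.filter (fun y => y ∈ S) with hv1
    set v2 := v.filter (fun y => ¬ y ∈ S) with hv2
    have hsum : v1 + v2 = v := Finsupp.filter_add_filter_not v _
    have h1 : v1 ∈ Finsupp.supported R R (S : Set X) := by
      rw [Finsupp.mem_supported']
      intro y hy
      rw [hv1]
      exact Finsupp.filter_apply_neg _ v (by exact_mod_cast hy)
    have h2 : v2 ∈ Finsupp.supported R R ((S : Set X)ᶜ) := by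
      rw [Finsupp.mem_supported']
      intro y hy
      rw [hv2]
      refine Finsupp.filter_apply_neg _ v ?_
      rw [Set.mem_compl_iff, not_not] at hy
      exact not_not.2 (by exact_mod_cast hy)
    have h3 : f v2 = v2 := FinAutC_eq f.toLinearMap LinearMap.id
      (fun y hy => hf.1 y (by exact_mod_cast hy)) h2
    have h4 : v2 = Finsupp.single x 1 - f v1 := by
      rw [← hfv, ← hsum, map_add, h3]
      abel
    have h5 : v2 ∈ Finsupp.supported R R (S : Set X) := by
      rw [h4]
      exact Submodule.sub_mem _ (Finsupp.single_mem_supported R 1 (by exact_mod_cast hx))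
        (hf.map_mem h1)
    rw [← hsum]
    exact Submodule.add_mem _ h1 h5

theorem FinAutC_Fix.mono {S T : Finset X} (hST : S ⊆ T) {f : (X →₀ R) ≃ₗ[R] (X →₀ R)}
    (hf : FinAutC_Fix S f) : FinAutC_Fix T f := by
  refine ⟨fun x hx => hf.1 x (fun h => hx (hST h)), fun x hx => ?_⟩
  by_cases h : x ∈ S
  · exact Finsupp.supported_mono (by exact_mod_cast hST) (hf.2 x h)
  · rw [hf.1 x h]
    exact Finsupp.single_mem_supported R 1 (by exact_mod_cast hx)

/-- An automorphism fixing all but finitely many basis vectors. -/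
theorem FinAutC_exists (f : (X →₀ R) ≃ₗ[R] (X →₀ R))
    (hf : {x | f (Finsupp.single x 1) ≠ Finsupp.single x 1}.Finite) :
    ∃ S : Finset X, FinAutC_Fix S f := by
  classical
  refine ⟨hf.toFinset ∪ hf.toFinset.biUnion (fun x => (f (Finsupp.single x 1)).support), ?_, ?_⟩
  · intro x hx
    by_contra h
    exact hx (Finset.mem_union_left _ (hf.mem_toFinset.2 h))
  · intro x hx
    by_cases h : x ∈ hf.toFinset
    · rw [Finsupp.mem_supported]
      intro y hy
      refine Finset.mem_coe.2 (Finset.mem_union_right _ (Finset.mem_biUnion.2 ⟨x, h, ?_⟩))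
      exact_mod_cast hy
    · have h1 : f (Finsupp.single x 1) = Finsupp.single x 1 := by
        by_contra h2
        exact h (hf.mem_toFinset.2 h2)
      rw [h1]
      exact Finsupp.single_mem_supported R 1 (by exact_mod_cast hx)

/-- The restriction of the automorphism to the vectors supported in `S`. -/
noncomputable def FinAutC_res {S : Finset X} {f : (X →₀ R) ≃ₗ[R] (X →₀ R)} (hf : FinAutC_Fix S f) :
    Finsupp.supported R R (S : Set X) ≃ₗ[R] Finsupp.supported R R (S : Set X) where
  toFun v := ⟨f v.1, hf.map_mem v.2⟩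
  map_add' _ _ := Subtype.ext (map_add f _ _)
  map_smul' _ _ := Subtype.ext (map_smul f _ _)
  invFun v := ⟨f.symm v.1, hf.inv.map_mem v.2⟩
  left_inv _ := Subtype.ext (f.symm_apply_apply _)
  right_inv _ := Subtype.ext (f.apply_symm_apply _)

variable {G : Type} [Group G] [MulAction G X]

/-- The elements of `FinAut R X G` which are supported in the finite set `S`. -/
def FinAutC_K (R G : Type) [Ring R] [Group G] [MulAction G X] (S : Finset X) :
    Subgroup (FinAut R X G) where
  carrier := {p | p.1.2 = 1 ∧ FinAutC_Fix S p.1.1}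
  one_mem' := ⟨rfl, FinAutC_Fix.one S⟩
  mul_mem' := by
    rintro p q ⟨hp1, hp2⟩ ⟨hq1, hq2⟩
    refine ⟨?_, hp2.mul hq2⟩
    show p.1.2 * q.1.2 = 1
    rw [hp1, hq1, one_mul]
  inv_mem' := by
    rintro p ⟨hp1, hp2⟩
    refine ⟨?_, hp2.inv⟩
    show (p.1.2)⁻¹ = 1
    rw [hp1, inv_one]

theorem FinAutC_memK {S : Finset X} {p : FinAut R X G} :
    p ∈ FinAutC_K R G S ↔ p.1.2 = 1 ∧ FinAutC_Fix S p.1.1 := Iff.rfl

theorem FinAutC_CK {C : ∀ (G : Type) [Group G], Prop} (hC : FJClosed C)
    (hR : ∀ n : ℕ, C ((Fin n → R) ≃ₗ[R] (Fin n → R))) (S : Finset X) :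
    C (FinAutC_K R G S) := by
  classical
  let e : Finsupp.supported R R (S : Set X) ≃ₗ[R] (Fin S.card → R) :=
    (Finsupp.supportedEquivFinsupp (S : Set X)).trans
      ((Finsupp.linearEquivFunOnFinite R R (S : Set X)).trans
        (LinearEquiv.funCongrLeft R R S.equivFin.symm))
  let φ : FinAutC_K R G S →* ((Fin S.card → R) ≃ₗ[R] (Fin S.card → R)) :=
    { toFun := fun p => (e.symm.trans (FinAutC_res p.2.2)).trans e
      map_one' := by
        ext1 v
        show e (FinAutC_res (FinAutC_Fix.one S) (e.symm v)) = v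
        have h : FinAutC_res (FinAutC_Fix.one (R := R) S) (e.symm v) = e.symm v := Subtype.ext rfl
        rw [h, LinearEquiv.apply_symm_apply]
      map_mul' := fun p q => by
        ext1 v
        show e (FinAutC_res (p.2.2.mul q.2.2) (e.symm v)) =
          e (FinAutC_res p.2.2 (e.symm (e (FinAutC_res q.2.2 (e.symm v)))))
        rw [LinearEquiv.symm_apply_apply]
        congr 1 }
  refine hC.sub φ ?_ (hR S.card)
  rw [injective_iff_map_eq_one]
  intro p hp
  have h1 : ∀ v : Finsupp.supported R R (S : Set X), FinAutC_res p.2.2 v = v := by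
    intro v
    have h2 : φ p (e v) = e v := by rw [hp]; rfl
    have h3 : e (FinAutC_res p.2.2 (e.symm (e v))) = e v := h2
    rw [LinearEquiv.symm_apply_apply] at h3
    exact e.injective h3
  apply Subtype.ext
  apply Subtype.ext
  refine Prod.ext ?_ p.2.1
  refine FinAutC_ext (fun x => ?_)
  by_cases hx : x ∈ S
  · have h4 : Finsupp.single x (1 : R) ∈ Finsupp.supported R R (S : Set X) :=
      Finsupp.single_mem_supported R 1 (by exact_mod_cast hx)
    exact congrArg Subtype.val (h1 ⟨_, h4⟩)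
  · exact p.2.2.1 x hx

/-- Extension of a map on `U`, injective, with values in `T`, to a permutation of `X` which is the
identity outside `T`. -/
theorem FinAutC_perm {U T : Finset X} (hUT : U ⊆ T) (g : X → X) (hg : Function.Injective g)
    (hT : ∀ x ∈ U, g x ∈ T) :
    ∃ τ : Equiv.Perm X, (∀ x ∈ U, τ x = g x) ∧ (∀ x, x ∉ T → τ x = x) ∧ ∀ x ∈ T, τ x ∈ T := by
  classical
  let U' : Finset T := Finset.univ.filter (fun x => x.1 ∈ U)
  obtain ⟨σ, hσ⟩ := Finset.exists_equiv_extend_of_card_eq (α := T) (β := X) (t := T)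
    (by simp) (s := U') (f := fun x => g x.1)
    (by
      intro y hy
      obtain ⟨x, hx, rfl⟩ := Finset.mem_image.1 hy
      exact hT x.1 (Finset.mem_filter.1 hx).2)
    (by
      intro x _ y _ hxy
      exact Subtype.ext (hg hxy))
  let τ : Equiv.Perm X := Equiv.Perm.ofSubtype (p := fun x => x ∈ T) σ
  have h1 : ∀ (x : X) (hx : x ∈ T), τ x = (σ ⟨x, hx⟩ : X) := fun x hx =>
    Equiv.Perm.ofSubtype_apply_of_mem (p := fun x => x ∈ T) σ hx
  refine ⟨τ, ?_, ?_, ?_⟩
  · intro x hx
    rw [h1 x (hUT hx)]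
    exact hσ ⟨x, hUT hx⟩ (Finset.mem_filter.2 ⟨Finset.mem_univ _, hx⟩)
  · intro x hx
    exact Equiv.Perm.ofSubtype_apply_of_not_mem (p := fun x => x ∈ T) σ hx
  · intro x hx
    rw [h1 x hx]
    exact (σ ⟨x, hx⟩).2

theorem FinAutC_locInner {C : ∀ (G : Type) [Group G], Prop} (hC : FJClosed C)
    (hR : ∀ n : ℕ, C ((Fin n → R) ≃ₗ[R] (Fin n → R))) (N : Subgroup (FinAut R X G))
    (hN : ∀ p : FinAut R X G, p ∈ N ↔ p.1.2 = 1) : LocInner C (FinAut R X G) N := by
  classical
  refine ⟨Finset X, inferInstance, fun S => FinAutC_K R G S, ?_, ?_, ?_⟩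
  · intro S T
    exact ⟨S ∪ T, fun p hp => ⟨hp.1, hp.2.mono Finset.subset_union_left⟩,
      fun p hp => ⟨hp.1, hp.2.mono Finset.subset_union_right⟩⟩
  · intro p
    rw [hN]
    constructor
    · intro hp
      have h1 : {x | p.1.1 (Finsupp.single x 1) ≠ Finsupp.single (p.1.2 • x) 1}.Finite := p.2
      simp only [hp, one_smul] at h1
      obtain ⟨S, hS⟩ := FinAutC_exists p.1.1 h1
      exact ⟨S, hp, hS⟩
    · rintro ⟨S, hS⟩
      exact hS.1
  · intro g S
    have hgfin : {x | g.1.1 (Finsupp.single x 1) ≠ Finsupp.single (g.1.2 • x) 1}.Finite := g.2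
    set f := g.1.1 with hf
    set h := g.1.2 with hh
    let U : Finset X := S ∪ hgfin.toFinset
    let T : Finset X := U ∪ U.image (fun x => h • x) ∪
      U.biUnion (fun x => (f (Finsupp.single x 1)).support)
    have hSU : S ⊆ U := Finset.subset_union_left
    have hUT : U ⊆ T := Finset.subset_union_left.trans Finset.subset_union_left
    have hUf : ∀ x, x ∉ U → f (Finsupp.single x 1) = Finsupp.single (h • x) 1 := by
      intro x hx
      by_contra hne
      exact hx (Finset.mem_union_right _ (hgfin.mem_toFinset.2 hne))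
    obtain ⟨τ, hτ1, hτ2, hτ3⟩ := FinAutC_perm hUT (fun x => h • x) (MulAction.injective h)
      (fun x hx => Finset.mem_union_left _ (Finset.mem_union_right _
        (Finset.mem_image_of_mem _ hx)))
    -- the permutation `h⁻¹ τ`
    let σ : Equiv.Perm X := τ.trans (MulAction.toPerm h⁻¹)
    have hσ : ∀ x, σ x = h⁻¹ • τ x := fun x => rfl
    have hσU : ∀ x ∈ U, σ x = x := by
      intro x hx
      rw [hσ, hτ1 x hx, inv_smul_smul]
    have hσU' : ∀ x, x ∉ U → σ x ∉ U := by
      intro x hx hx'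
      have h1 : σ (σ x) = σ x := hσU _ hx'
      exact hx (by rw [← σ.injective h1]; exact hx')
    have hhσ : ∀ x, h • σ x = τ x := by
      intro x
      rw [hσ, smul_inv_smul]
    let P : (X →₀ R) ≃ₗ[R] (X →₀ R) := Finsupp.domLCongr σ
    have hP : ∀ x, P (Finsupp.single x 1) = Finsupp.single (σ x) 1 := fun x =>
      Finsupp.domLCongr_single σ x 1
    let p : (X →₀ R) ≃ₗ[R] (X →₀ R) := f * P
    have hp : ∀ x, p (Finsupp.single x 1) = f (Finsupp.single (σ x) 1) := by
      intro x
      show f (P (Finsupp.single x 1)) = _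
      rw [hP]
    have hpfix : FinAutC_Fix T p := by
      refine ⟨fun x hx => ?_, fun x hx => ?_⟩
      · have hxU : x ∉ U := fun h1 => hx (hUT h1)
        rw [hp, hUf _ (hσU' x hxU), hhσ, hτ2 x hx]
      · by_cases hxU : x ∈ U
        · rw [hp, hσU x hxU, Finsupp.mem_supported]
          intro y hy
          refine Finset.mem_coe.2 (Finset.mem_union_right _ (Finset.mem_biUnion.2 ⟨x, hxU, ?_⟩))
          exact_mod_cast hy
        · rw [hp, hUf _ (hσU' x hxU), hhσ]
          exact Finsupp.single_mem_supported R 1 (by exact_mod_cast hτ3 x hx)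
    -- `P` commutes with the automorphisms supported in `S`
    have hcomm : ∀ f' : (X →₀ R) ≃ₗ[R] (X →₀ R), FinAutC_Fix S f' → P * f' = f' * P := by
      intro f' hf'
      refine FinAutC_ext (fun x => ?_)
      show P (f' (Finsupp.single x 1)) = f' (P (Finsupp.single x 1))
      by_cases hx : x ∈ S
      · rw [hP, hσU x (hSU hx)]
        exact FinAutC_eq P.toLinearMap LinearMap.id
          (fun y hy => by
            show P (Finsupp.single y 1) = Finsupp.single y 1
            rw [hP, hσU y (hSU (by exact_mod_cast hy))]) (hf'.2 x hx)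
      · have h1 : σ x ∉ S := by
          intro h2
          have h3 : σ (σ x) = σ x := hσU _ (hSU h2)
          exact hx (by rw [← σ.injective h3]; exact h2)
        rw [hf'.1 x hx, hP, hf'.1 _ h1]
    have hconj : ∀ f' : (X →₀ R) ≃ₗ[R] (X →₀ R), FinAutC_Fix S f' →
        f * f' * f⁻¹ = p * f' * p⁻¹ := by
      intro f' hf'
      show f * f' * f⁻¹ = f * P * f' * (f * P)⁻¹
      rw [mul_inv_rev, mul_assoc f P f', hcomm f' hf']
      group
    have hpmem : ((p, (1 : G)) : ((X →₀ R) ≃ₗ[R] (X →₀ R)) × G) ∈ FinAut R X G := by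
      show {x | p (Finsupp.single x 1) ≠ Finsupp.single ((1 : G) • x) 1}.Finite
      refine (Finset.finite_toSet T).subset ?_
      intro x hx
      by_contra hxT
      refine hx ?_
      rw [one_smul]
      exact hpfix.1 x (by exact_mod_cast hxT)
    have hpK : (⟨(p, 1), hpmem⟩ : FinAut R X G) ∈ FinAutC_K R G T := ⟨rfl, hpfix⟩
    have hST : S ⊆ T := hSU.trans hUT
    have hgx : ∀ x : FinAut R X G, x ∈ FinAutC_K R G S →
        g * x * g⁻¹ = (⟨(p, 1), hpmem⟩ : FinAut R X G) * x * (⟨(p, 1), hpmem⟩ : FinAut R X G)⁻¹ := by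
      intro x hx
      apply Subtype.ext
      refine Prod.ext ?_ ?_
      · show f * x.1.1 * f⁻¹ = p * x.1.1 * p⁻¹
        exact hconj _ hx.2
      · show h * x.1.2 * h⁻¹ = 1 * x.1.2 * 1⁻¹
        rw [hx.1, mul_one, mul_inv_cancel, mul_one, one_mul, inv_one]
    have hKST : FinAutC_K R G S ≤ FinAutC_K R G T := fun x hx => ⟨hx.1, hx.2.mono hST⟩
    refine ⟨T, hKST, ?_, FinAutC_K R G T, inferInstance, MonoidHom.id _,
      ⟨⟨(p, 1), hpmem⟩, hpK⟩, FinAutC_CK hC hR T, Function.injective_id, ?_⟩
    · intro x hx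
      rw [hgx x hx]
      exact mul_mem (mul_mem hpK (hKST hx)) (inv_mem hpK)
    · intro x y hx hy
      apply Subtype.ext
      show (y : FinAut R X G) = _
      rw [hy, hgx _ hx]
      rfl

end FinAutC

theorem FJClosed.finAut {C : ∀ (G : Type) [Group G], Prop} (hC : FJClosed C) {R X G : Type}
    [Ring R] [Group G] [MulAction G X] (hR : ∀ n : ℕ, C ((Fin n → R) ≃ₗ[R] (Fin n → R)))
    (hG : C G) : C (FinAut R X G) := by
  let π : FinAut R X G →* G :=
    { toFun := fun p => p.1.2
      map_one' := rfl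
      map_mul' := fun _ _ => rfl }
  exact hC.of_locInner π.ker (FinAutC_locInner hC hR π.ker (fun p => Iff.rfl))
    (hC.sub (QuotientGroup.kerLift π) (QuotientGroup.kerLift_injective π) hG)

end Pool.Agent.H8.FJ3
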