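import Pool.Agent.H8.FJ3.LTree2

/-!
# The group `GL₂` over a ring with a degree function
-/

namespace Pool.Agent.H8.FJ3

open Matrix

/-- The maximal degree of the entries. -/
def mdeg {R : Type} [CommRing R] (deg : R → ℕ) (g : GL (Fin 2) R) : ℕ :=
  (Finset.univ : Finset (Fin 2 × Fin 2)).sup fun p => deg (g.1 p.1 p.2)

section GL2aux

variable {R : Type} [CommRing R] [IsDomain R] {deg : R → ℕ} {J : ℕ → Ideal R}

theorem DegSep.gl_one (h : DegSep deg J) : deg 1 = 0 := by
  have h1 := h.mul 1 1 one_ne_zero one_ne_zero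
  rw [mul_one] at h1
  omega

theorem DegSep.gl_unit (h : DegSep deg J) {u v : R} (huv : u * v = 1) : deg u = 0 := by
  have hu : u ≠ 0 := left_ne_zero_of_mul_eq_one huv
  have hv : v ≠ 0 := right_ne_zero_of_mul_eq_one huv
  have h1 := h.mul u v hu hv
  rw [huv, h.gl_one] at h1
  omega

theorem DegSep.gl_zero (h : DegSep deg J) : deg 0 = 0 := by
  have h1 := h.add 1 (-1)
  have h2 : deg (-1) = 0 := h.gl_unit (u := -1) (v := -1) (by ring)
  rw [h.gl_one, h2, add_neg_cancel] at h1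
  simpa using h1

theorem DegSep.gl_unit_mul (h : DegSep deg J) {u v : R} (huv : u * v = 1) (x : R) :
    deg (u * x) = deg x := by
  by_cases hx : x = 0
  · rw [hx, mul_zero]
  · rw [h.mul u x (left_ne_zero_of_mul_eq_one huv) hx, h.gl_unit huv, zero_add]

theorem DegSep.gl_neg (h : DegSep deg J) (x : R) : deg (-x) = deg x := by
  have h1 := h.gl_unit_mul (u := -1) (v := -1) (by ring) x
  rwa [neg_one_mul] at h1

theorem DegSep.gl_mul_le (h : DegSep deg J) (x y : R) : deg (x * y) ≤ deg x + deg y := by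
  by_cases hx : x = 0
  · rw [hx, zero_mul, h.gl_zero]
    exact Nat.zero_le _
  · by_cases hy : y = 0
    · rw [hy, mul_zero, h.gl_zero]
      exact Nat.zero_le _
    · exact (h.mul x y hx hy).le

theorem DegSep.gl_sub (h : DegSep deg J) (x y : R) : deg (x - y) ≤ max (deg x) (deg y) := by
  have h1 := h.add x (-y)
  rwa [h.gl_neg, ← sub_eq_add_neg] at h1

omit [IsDomain R] in
theorem gl_le_mdeg (g : GL (Fin 2) R) (i j : Fin 2) : deg (g.1 i j) ≤ mdeg deg g := by
  unfold mdeg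
  exact Finset.le_sup (f := fun p : Fin 2 × Fin 2 => deg (g.1 p.1 p.2)) (Finset.mem_univ (i, j))

omit [IsDomain R] in
theorem gl_mdeg_le {g : GL (Fin 2) R} {n : ℕ} (hn : ∀ i j, deg (g.1 i j) ≤ n) :
    mdeg deg g ≤ n := by
  unfold mdeg
  exact Finset.sup_le fun p _ => hn p.1 p.2

theorem DegSep.gl_exists (h : DegSep deg J) (g : GL (Fin 2) R) :
    ∃ i j, g.1 i j ≠ 0 ∧ deg (g.1 i j) = mdeg deg g := by
  obtain ⟨p, _, hp⟩ := Finset.exists_mem_eq_sup (Finset.univ : Finset (Fin 2 × Fin 2))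
    Finset.univ_nonempty (fun p => deg (g.1 p.1 p.2))
  by_cases h0 : g.1 p.1 p.2 = 0
  · have hm : mdeg deg g = 0 := by
      unfold mdeg
      rw [hp, h0, h.gl_zero]
    obtain ⟨i, j, hij⟩ : ∃ i j, g.1 i j ≠ 0 := by
      by_contra hcon
      push Not at hcon
      have hz : g.1 = 0 := by
        ext i j
        exact hcon i j
      have h1 : g.1 * g⁻¹.1 = 1 := g.mul_inv
      rw [hz, zero_mul] at h1
      have h2 := congrFun (congrFun h1 0) 0
      simp at h2
    refine ⟨i, j, hij, ?_⟩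
    have := gl_le_mdeg (deg := deg) g i j
    omega
  · exact ⟨p.1, p.2, h0, hp.symm⟩

/-- The determinant of a column of `g` and a column of `h`. -/
def gl_D (g h : GL (Fin 2) R) (i j : Fin 2) : R := g.1 0 i * h.1 1 j - g.1 1 i * h.1 0 j

theorem DegSep.gl_entry (h : DegSep deg J) (g k : GL (Fin 2) R) (j : Fin 2) :
    ((deg ((g⁻¹ * k).1 0 j) = deg (gl_D g k 1 j) ∧ ((g⁻¹ * k).1 0 j = 0 ↔ gl_D g k 1 j = 0)) ∧
    (deg ((g⁻¹ * k).1 1 j) = deg (gl_D g k 0 j) ∧ ((g⁻¹ * k).1 1 j = 0 ↔ gl_D g k 0 j = 0))) := by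
  have hdet : g.1.det * g⁻¹.1.det = 1 := by
    rw [← Matrix.det_mul]
    have : g.1 * g⁻¹.1 = 1 := g.mul_inv
    rw [this, Matrix.det_one]
  have hadj : g.1.adjugate * k.1 = g.1.det • (g⁻¹ * k).1 := by
    have h1 : g.1 * (g⁻¹ * k).1 = k.1 := by
      have : g * (g⁻¹ * k) = k := by rw [mul_inv_cancel_left]
      exact congrArg Units.val this
    calc g.1.adjugate * k.1 = g.1.adjugate * (g.1 * (g⁻¹ * k).1) := by rw [h1]
      _ = g.1.det • (g⁻¹ * k).1 := by
        rw [← Matrix.mul_assoc, Matrix.adjugate_mul, Matrix.smul_mul, Matrix.one_mul]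
  have hne : g.1.det ≠ 0 := left_ne_zero_of_mul_eq_one hdet
  have e0 : g.1.det * (g⁻¹ * k).1 0 j = - gl_D g k 1 j := by
    have h2 := congrFun (congrFun hadj 0) j
    rw [Matrix.adjugate_fin_two, Matrix.mul_apply, Fin.sum_univ_two, Matrix.smul_apply,
      smul_eq_mul] at h2
    rw [← h2]
    unfold gl_D
    simp
    ring
  have e1 : g.1.det * (g⁻¹ * k).1 1 j = gl_D g k 0 j := by
    have h2 := congrFun (congrFun hadj 1) j
    rw [Matrix.adjugate_fin_two, Matrix.mul_apply, Fin.sum_univ_two, Matrix.smul_apply,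
      smul_eq_mul] at h2
    rw [← h2]
    unfold gl_D
    simp
    ring
  refine ⟨⟨?_, ?_⟩, ?_, ?_⟩
  · rw [← h.gl_unit_mul hdet ((g⁻¹ * k).1 0 j), e0, h.gl_neg]
  · constructor
    · intro h0
      rw [h0, mul_zero] at e0
      exact neg_eq_zero.1 e0.symm
    · intro h0
      rw [h0, neg_zero] at e0
      exact (mul_eq_zero.1 e0).resolve_left hne
  · rw [← h.gl_unit_mul hdet ((g⁻¹ * k).1 1 j), e1]
  · constructor
    · intro h0
      rw [h0, mul_zero] at e1
      exact e1.symm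
    · intro h0
      rw [h0] at e1
      exact (mul_eq_zero.1 e1).resolve_left hne

theorem DegSep.gl_D_le (h : DegSep deg J) (g k : GL (Fin 2) R) (i j : Fin 2) :
    deg (gl_D g k i j) ≤ mdeg deg (g⁻¹ * k) := by
  obtain ⟨h0, h1⟩ := h.gl_entry g k j
  fin_cases i
  · rw [show gl_D g k (⟨0, by norm_num⟩ : Fin 2) j = gl_D g k 0 j from rfl, ← h1.1]
    exact gl_le_mdeg _ _ _
  · rw [show gl_D g k (⟨1, by norm_num⟩ : Fin 2) j = gl_D g k 1 j from rfl, ← h0.1]
    exact gl_le_mdeg _ _ _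

theorem DegSep.gl_D_exists (h : DegSep deg J) (g k : GL (Fin 2) R) :
    ∃ i j, gl_D g k i j ≠ 0 ∧ deg (gl_D g k i j) = mdeg deg (g⁻¹ * k) := by
  obtain ⟨i, j, hij, hd⟩ := h.gl_exists (g⁻¹ * k)
  obtain ⟨h0, h1⟩ := h.gl_entry g k j
  rcases (by fin_cases i <;> simp : i = 0 ∨ i = 1) with hi | hi
  · subst hi
    exact ⟨1, j, fun hz => hij (h0.2.2 hz), by rw [← h0.1, hd]⟩
  · subst hi
    exact ⟨0, j, fun hz => hij (h1.2.2 hz), by rw [← h1.1, hd]⟩

omit [IsDomain R] in
theorem gl_cramer (g h k : GL (Fin 2) R) (i j r l : Fin 2) :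
    gl_D g h i j * k.1 r l = gl_D k h l j * g.1 r i + gl_D g k i l * h.1 r j := by
  unfold gl_D
  rcases (by fin_cases r <;> simp : r = 0 ∨ r = 1) with hr | hr
  · subst hr
    ring
  · subst hr
    ring

end GL2aux

theorem DegSep.ultra {R : Type} [CommRing R] [IsDomain R] {deg : R → ℕ} {J : ℕ → Ideal R}
    (h : DegSep deg J) : Ultra (mdeg deg) := by
  refine ⟨?_, ?_, ?_, ?_⟩
  · refine Nat.le_zero.1 (gl_mdeg_le fun i j => ?_)
    show deg ((1 : Matrix (Fin 2) (Fin 2) R) i j) ≤ 0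
    rw [Matrix.one_apply]
    split_ifs
    · rw [h.gl_one]
    · rw [h.gl_zero]
  · have key : ∀ g : GL (Fin 2) R, mdeg deg g⁻¹ ≤ mdeg deg g := by
      intro g
      refine gl_mdeg_le fun i j => ?_
      obtain ⟨h0, h1⟩ := h.gl_entry g 1 j
      rw [mul_one] at h0 h1
      have hD : ∀ i j, deg (gl_D g 1 i j) ≤ mdeg deg g := by
        intro i j
        unfold gl_D
        have e1 : ((1 : GL (Fin 2) R).1) = (1 : Matrix (Fin 2) (Fin 2) R) := rfl
        rw [e1]
        rcases (by fin_cases j <;> simp : j = 0 ∨ j = 1) with hj | hj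
        · subst hj
          simp only [Matrix.one_apply, Fin.isValue, one_ne_zero, if_false, if_true, mul_zero,
            mul_one, zero_sub]
          rw [h.gl_neg]
          exact gl_le_mdeg _ _ _
        · subst hj
          simp only [Matrix.one_apply, Fin.isValue, zero_ne_one, if_false, if_true, mul_zero,
            mul_one, sub_zero]
          exact gl_le_mdeg _ _ _
      rcases (by fin_cases i <;> simp : i = 0 ∨ i = 1) with hi | hi
      · subst hi
        rw [h0.1]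
        exact hD _ _
      · subst hi
        rw [h1.1]
        exact hD _ _
    intro g
    refine le_antisymm (key g) ?_
    have := key g⁻¹
    rwa [inv_inv] at this
  · intro g k
    refine gl_mdeg_le fun i j => ?_
    have e : (g * k).1 i j = g.1 i 0 * k.1 0 j + g.1 i 1 * k.1 1 j := by
      show (g.1 * k.1) i j = _
      rw [Matrix.mul_apply, Fin.sum_univ_two]
    rw [e]
    refine (h.add _ _).trans (max_le ?_ ?_)
    · exact (h.gl_mul_le _ _).trans (add_le_add (gl_le_mdeg _ _ _) (gl_le_mdeg _ _ _))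
    · exact (h.gl_mul_le _ _).trans (add_le_add (gl_le_mdeg _ _ _) (gl_le_mdeg _ _ _))
  · intro g k l
    obtain ⟨i, j, hij, hd⟩ := h.gl_D_exists g k
    obtain ⟨r, s, hrs, hd'⟩ := h.gl_exists l
    have e := gl_cramer g k l i j r s
    have e2 := h.mul _ _ hij hrs
    rw [e, hd, hd'] at e2
    rw [← e2]
    refine (h.add _ _).trans ?_
    rw [max_comm]
    refine max_le_max ?_ ?_
    · exact (h.gl_mul_le _ _).trans (add_le_add (h.gl_D_le _ _ _ _) (gl_le_mdeg _ _ _))
    · exact (h.gl_mul_le _ _).trans (add_le_add (h.gl_D_le _ _ _ _) (gl_le_mdeg _ _ _))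

/-- `GL₂` over a domain with a degree function. -/
theorem FJClosed.GL2 {C : ∀ (G : Type) [Group G], Prop} (hC : FJClosed C) {R : Type} [CommRing R]
    [IsDomain R] {deg : R → ℕ} {J : ℕ → Ideal R} (h : DegSep deg J)
    (hJ : ∀ m, C (GL (Fin 2) (R ⧸ J m))) : C (GL (Fin 2) R) := by
  refine hC.of_length (mdeg deg) h.ultra fun n => ?_
  obtain ⟨m, hm⟩ := h.sep n
  refine ⟨GL (Fin 2) (R ⧸ J m), inferInstance,
    Matrix.GeneralLinearGroup.map (Ideal.Quotient.mk (J m)), hJ m, fun g hg hg1 => ?_⟩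
  apply Units.ext
  ext i j
  have h1 : Ideal.Quotient.mk (J m) (g.1 i j) = (1 : Matrix (Fin 2) (Fin 2) (R ⧸ J m)) i j := by
    have := congrArg (fun x : GL (Fin 2) (R ⧸ J m) => x.1 i j) hg1
    simpa using this
  have h2 : g.1 i j - (1 : Matrix (Fin 2) (Fin 2) R) i j ∈ J m := by
    rw [← Ideal.Quotient.eq_zero_iff_mem, map_sub, h1, Matrix.one_apply, Matrix.one_apply]
    split_ifs <;> simp
  have h3 : deg (g.1 i j - (1 : Matrix (Fin 2) (Fin 2) R) i j) ≤ n := by
    refine (h.gl_sub _ _).trans (max_le ((gl_le_mdeg g i j).trans hg) ?_)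
    rw [Matrix.one_apply]
    split_ifs
    · rw [h.gl_one]
      exact Nat.zero_le _
    · rw [h.gl_zero]
      exact Nat.zero_le _
  exact sub_eq_zero.1 (hm _ h2 h3)

end Pool.Agent.H8.FJ3
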