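import Pool.Agent.H8.FJ3.Basic

/-!
# General linear groups modulo a nilpotent ideal
-/

namespace Pool.Agent.H8.FJ3

open Matrix

/-- Two invertible matrices congruent to `1` modulo an ideal of square zero commute. -/
theorem GLNil_comm {S : Type} [CommRing S] (J : Ideal S) (hJ : J * J = ⊥) (n : ℕ)
    (g h : GL (Fin n) S)
    (hg : Matrix.GeneralLinearGroup.map (n := Fin n) (Ideal.Quotient.mk J) g = 1)
    (hh : Matrix.GeneralLinearGroup.map (n := Fin n) (Ideal.Quotient.mk J) h = 1) :
    g * h = h * g := by
  have key : ∀ u : GL (Fin n) S,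
      Matrix.GeneralLinearGroup.map (n := Fin n) (Ideal.Quotient.mk J) u = 1 →
      ∀ i j, ((u : Matrix (Fin n) (Fin n) S) - 1) i j ∈ J := by
    intro u hu i j
    have h1 : (Matrix.GeneralLinearGroup.map (n := Fin n) (Ideal.Quotient.mk J) u :
        Matrix (Fin n) (Fin n) (S ⧸ J)) i j = (1 : Matrix (Fin n) (Fin n) (S ⧸ J)) i j := by
      rw [hu]; rfl
    rw [Matrix.GeneralLinearGroup.map_apply] at h1
    rw [← Ideal.Quotient.eq_zero_iff_mem, Matrix.sub_apply, map_sub, h1]
    by_cases hij : i = j
    · subst hij; simp
    · simp [hij]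
  have hz : ∀ u v : GL (Fin n) S,
      Matrix.GeneralLinearGroup.map (n := Fin n) (Ideal.Quotient.mk J) u = 1 →
      Matrix.GeneralLinearGroup.map (n := Fin n) (Ideal.Quotient.mk J) v = 1 →
      ((u : Matrix (Fin n) (Fin n) S) - 1) * ((v : Matrix (Fin n) (Fin n) S) - 1) = 0 := by
    intro u v hu hv
    ext i j
    rw [Matrix.mul_apply, Matrix.zero_apply]
    refine Finset.sum_eq_zero (fun k _ => ?_)
    have : ((u : Matrix (Fin n) (Fin n) S) - 1) i k * ((v : Matrix (Fin n) (Fin n) S) - 1) k j
        ∈ J * J := Ideal.mul_mem_mul (key u hu i k) (key v hv k j)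
    rw [hJ] at this
    simpa using this
  apply Units.ext
  have h1 := hz g h hg hh
  have h2 := hz h g hh hg
  push_cast
  have e1 : ((g : Matrix (Fin n) (Fin n) S) - 1) * ((h : Matrix (Fin n) (Fin n) S) - 1) =
    (g : Matrix (Fin n) (Fin n) S) * h - g - h + 1 := by noncomm_ring
  have e2 : ((h : Matrix (Fin n) (Fin n) S) - 1) * ((g : Matrix (Fin n) (Fin n) S) - 1) =
    (h : Matrix (Fin n) (Fin n) S) * g - g - h + 1 := by noncomm_ring
  rw [e1] at h1
  rw [e2] at h2
  have h3 := h1.trans h2.symm
  have h4 : (g : Matrix (Fin n) (Fin n) S) * h - g - h = (h : Matrix (Fin n) (Fin n) S) * g - g - h :=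
    add_right_cancel h3
  exact sub_left_injective (sub_left_injective h4)

/-- The kernel of the reduction modulo a nilpotent ideal is solvable. -/
theorem isSolvable_ker_map {S T : Type} [CommRing S] [CommRing T] (f : S →+* T) (m : ℕ)
    (hf : RingHom.ker f ^ m = ⊥) (n : ℕ) :
    Group.IsSolvable (Matrix.GeneralLinearGroup.map (n := Fin n) f).ker := by
  induction m generalizing S with
  | zero =>
    rw [pow_zero, Ideal.one_eq_top] at hf
    have hs : Subsingleton S := by
      rw [← subsingleton_iff_zero_eq_one]
      have : (1 : S) ∈ (⊥ : Ideal S) := by rw [← hf]; trivial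
      exact ((Submodule.mem_bot S).mp this).symm
    have : Subsingleton (GL (Fin n) S) := ⟨fun a b => Units.ext (Subsingleton.elim _ _)⟩
    infer_instance
  | succ m ih =>
    rcases Nat.eq_zero_or_pos m with rfl | hm
    · rw [zero_add, pow_one] at hf
      have hinj : Function.Injective f := (RingHom.injective_iff_ker_eq_bot f).mpr hf
      have : Subsingleton (Matrix.GeneralLinearGroup.map (n := Fin n) f).ker := by
        refine ⟨fun a b => ?_⟩
        apply Subtype.ext
        have hab : Matrix.GeneralLinearGroup.map (n := Fin n) f a.1 =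
            Matrix.GeneralLinearGroup.map (n := Fin n) f b.1 := by
          rw [MonoidHom.mem_ker.mp a.2, MonoidHom.mem_ker.mp b.2]
        apply Units.ext
        ext i j
        have h1 : (Matrix.GeneralLinearGroup.map (n := Fin n) f a.1 : Matrix (Fin n) (Fin n) T) i j =
          (Matrix.GeneralLinearGroup.map (n := Fin n) f b.1 : Matrix (Fin n) (Fin n) T) i j := by
          rw [hab]
        rw [Matrix.GeneralLinearGroup.map_apply, Matrix.GeneralLinearGroup.map_apply] at h1
        exact hinj h1
      infer_instance
    · set J : Ideal S := RingHom.ker f ^ m with hJ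
      have hJle : J ≤ RingHom.ker f := Ideal.pow_le_self (by omega)
      have hJJ : J * J = ⊥ := by
        rw [hJ, ← pow_add, ← le_bot_iff, ← hf]
        exact Ideal.pow_le_pow_right (by omega)
      let f' : S ⧸ J →+* T := Ideal.Quotient.lift J f (fun a ha => hJle ha)
      have hf'q : f'.comp (Ideal.Quotient.mk J) = f := Ideal.Quotient.lift_comp_mk J f _
      have hker : RingHom.ker f' ^ m = ⊥ := by
        have h1 : RingHom.ker f' = Ideal.map (Ideal.Quotient.mk J) (RingHom.ker f) := by
          rw [Ideal.ker_quotient_lift]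
        rw [h1, ← Ideal.map_pow]
        exact Ideal.map_quotient_self J
      have hsol := ih f' hker
      -- the map between the kernels
      let q := Matrix.GeneralLinearGroup.map (n := Fin n) (Ideal.Quotient.mk J)
      have hcomp : (Matrix.GeneralLinearGroup.map (n := Fin n) f').comp q =
          Matrix.GeneralLinearGroup.map (n := Fin n) f := by
        rw [← hf'q]
        exact (Matrix.GeneralLinearGroup.map_comp _ _).symm
      let A := (Matrix.GeneralLinearGroup.map (n := Fin n) f).ker
      let B := (Matrix.GeneralLinearGroup.map (n := Fin n) f').ker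
      let φ : A →* B := (q.comp A.subtype).codRestrict B (fun x => by
        rw [MonoidHom.mem_ker]
        have := MonoidHom.mem_ker.mp x.2
        rw [← hcomp] at this
        exact this)
      have : Group.IsSolvable φ.ker := by
        refine Group.isSolvable_of_comm (fun a b => ?_)
        have h1 : ∀ c : φ.ker, q c.1.1 = 1 := by
          intro c
          have := congrArg Subtype.val (MonoidHom.mem_ker.mp c.2)
          exact this
        apply Subtype.ext
        apply Subtype.ext
        exact GLNil_comm J hJJ n a.1.1 b.1.1 (h1 a) (h1 b)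
      exact Group.isSolvable_of_ker_le_range φ.ker.subtype φ (by rw [Subgroup.range_subtype])

theorem FJClosed.GL_nil {C : ∀ (G : Type) [Group G], Prop} (hC : FJClosed C) {S T : Type}
    [CommRing S] [CommRing T] (f : S →+* T) (m : ℕ) (hf : RingHom.ker f ^ m = ⊥) (n : ℕ)
    (h : C (GL (Fin n) T)) : C (GL (Fin n) S) :=
  hC.of_solvable_ker _ (isSolvable_ker_map f m hf n) h

end Pool.Agent.H8.FJ3
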