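import Pool.Agent.H8.FJ3.GL2
import Pool.Agent.H8.FJ3.GLNil

/-!
# The group `GL₂` over polynomial rings
-/

namespace Pool.Agent.H8.FJ3

open Matrix

theorem gl2Poly_map_injective {S T : Type} [CommRing S] [CommRing T] (f : S →+* T)
    (hf : Function.Injective f) :
    Function.Injective (Matrix.GeneralLinearGroup.map (n := Fin 2) f) := by
  intro x y hxy
  refine Matrix.GeneralLinearGroup.ext fun i j => hf ?_
  have h : (Matrix.GeneralLinearGroup.map (n := Fin 2) f x).1 i j =
      (Matrix.GeneralLinearGroup.map (n := Fin 2) f y).1 i j := by rw [hxy]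
  exact h

theorem gl2Poly_mem_range {S T : Type} [CommRing S] [CommRing T] (f : S →+* T)
    (hf : Function.Injective f) (g : GL (Fin 2) T) (h1 : ∀ i j, g.1 i j ∈ f.range)
    (h2 : ∀ i j, g.2 i j ∈ f.range) : g ∈ (Matrix.GeneralLinearGroup.map (n := Fin 2) f).range := by
  choose A hA using h1
  choose B hB using h2
  have hA' : (RingHom.mapMatrix f) (Matrix.of A) = g.1 := by
    ext i j
    exact hA i j
  have hB' : (RingHom.mapMatrix f) (Matrix.of B) = g.2 := by
    ext i j
    exact hB i j
  have hinj : Function.Injective (RingHom.mapMatrix (m := Fin 2) f) := by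
    intro x y hxy
    ext i j
    have h : (RingHom.mapMatrix f x) i j = (RingHom.mapMatrix f y) i j := by rw [hxy]
    exact hf h
  refine ⟨⟨Matrix.of A, Matrix.of B, hinj ?_, hinj ?_⟩, ?_⟩
  · rw [map_mul, hA', hB', map_one]
    exact g.3
  · rw [map_mul, hA', hB', map_one]
    exact g.4
  · exact Units.ext hA'

theorem FJClosed.gl2Poly_sub {C : ∀ (G : Type) [Group G], Prop} (hC : FJClosed C) {S T : Type}
    [CommRing S] [CommRing T] (f : S →+* T) (hf : Function.Injective f) (h : C (GL (Fin 2) T)) :
    C (GL (Fin 2) S) :=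
  hC.sub _ (gl2Poly_map_injective f hf) h

theorem FJClosed.GL2_polynomial {C : ∀ (G : Type) [Group G], Prop} (hC : FJClosed C) {R : Type}
    [CommRing R] [IsDomain R] (h : C (GL (Fin 2) R)) : C (GL (Fin 2) (Polynomial R)) := by
  refine hC.GL2 (deg := Polynomial.natDegree)
    (J := fun m => Ideal.span {(Polynomial.X : Polynomial R) ^ m}) ⟨?_, ?_, ?_⟩ ?_
  · intro r s hr hs
    exact Polynomial.natDegree_mul hr hs
  · intro r s
    exact Polynomial.natDegree_add_le r s
  · intro n
    refine ⟨n + 1, fun r hr hdeg => ?_⟩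
    by_contra hne
    have h1 := Polynomial.natDegree_le_of_dvd (Ideal.mem_span_singleton.1 hr) hne
    rw [Polynomial.natDegree_X_pow] at h1
    omega
  · intro m
    rcases Nat.eq_zero_or_pos m with hm | hm
    · subst hm
      have hs : Subsingleton (Polynomial R ⧸ Ideal.span {(Polynomial.X : Polynomial R) ^ 0}) := by
        rw [pow_zero, Ideal.span_singleton_one]
        exact Ideal.Quotient.subsingleton_iff.2 rfl
      have : Subsingleton
          (GL (Fin 2) (Polynomial R ⧸ Ideal.span {(Polynomial.X : Polynomial R) ^ 0})) :=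
        ⟨fun x y => Matrix.GeneralLinearGroup.ext fun i j => Subsingleton.elim _ _⟩
      exact hC.finite _
    · let f : (Polynomial R ⧸ Ideal.span {(Polynomial.X : Polynomial R) ^ m}) →+* R :=
        Ideal.Quotient.lift _ (Polynomial.evalRingHom 0) (by
          intro a ha
          obtain ⟨b, rfl⟩ := Ideal.mem_span_singleton.1 ha
          simp [hm.ne'])
      refine hC.GL_nil f m ?_ 2 h
      have hker : RingHom.ker f ≤
          Ideal.span {(Ideal.Quotient.mk (Ideal.span {(Polynomial.X : Polynomial R) ^ m})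
            Polynomial.X)} := by
        intro x hx
        obtain ⟨p, rfl⟩ := Ideal.Quotient.mk_surjective x
        have h1 : Polynomial.eval 0 p = 0 := hx
        have h2 : (Polynomial.X : Polynomial R) ∣ p := by
          rw [Polynomial.X_dvd_iff, Polynomial.coeff_zero_eq_eval_zero]
          exact h1
        exact Ideal.mem_span_singleton.2 (map_dvd _ h2)
      refine le_bot_iff.1 ((Ideal.pow_right_mono hker m).trans ?_)
      rw [Ideal.span_singleton_pow, ← map_pow]
      have h3 : (Ideal.Quotient.mk (Ideal.span {(Polynomial.X : Polynomial R) ^ m}))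
          (Polynomial.X ^ m) = 0 :=
        Ideal.Quotient.eq_zero_iff_mem.2 (Ideal.subset_span rfl)
      rw [h3, Ideal.span_singleton_eq_bot.2 rfl]

theorem FJClosed.gl2Poly_fin {C : ∀ (G : Type) [Group G], Prop} (hC : FJClosed C)
    (R : Type) [CommRing R] [IsDomain R] (h : C (GL (Fin 2) R)) (n : ℕ) :
    C (GL (Fin 2) (MvPolynomial (Fin n) R)) := by
  induction n with
  | zero =>
    exact hC.gl2Poly_sub (MvPolynomial.isEmptyAlgEquiv R (Fin 0)).toRingEquiv.toRingHom
      (MvPolynomial.isEmptyAlgEquiv R (Fin 0)).injective h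
  | succ n ih =>
    exact hC.gl2Poly_sub (MvPolynomial.finSuccEquiv R n).toRingEquiv.toRingHom
      (MvPolynomial.finSuccEquiv R n).injective (hC.GL2_polynomial ih)

theorem FJClosed.gl2Poly_finite {C : ∀ (G : Type) [Group G], Prop} (hC : FJClosed C)
    (σ R : Type) [Finite σ] [CommRing R] [IsDomain R] (h : C (GL (Fin 2) R)) :
    C (GL (Fin 2) (MvPolynomial σ R)) := by
  obtain ⟨n, ⟨e⟩⟩ := Finite.exists_equiv_fin σ
  exact hC.gl2Poly_sub (MvPolynomial.renameEquiv R e).toRingEquiv.toRingHom
    (MvPolynomial.renameEquiv R e).injective (hC.gl2Poly_fin R h n)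

/-- The inclusion of the polynomials in the variables of `s`. -/
noncomputable def gl2PolyInc (R : Type) {σ : Type} [CommRing R] (s : Set σ) :
    MvPolynomial s R →+* MvPolynomial σ R :=
  (MvPolynomial.rename (R := R) (Subtype.val : s → σ)).toRingHom

theorem gl2PolyInc_injective (R : Type) {σ : Type} [CommRing R] (s : Set σ) :
    Function.Injective (gl2PolyInc R s) :=
  MvPolynomial.rename_injective _ Subtype.val_injective

theorem gl2PolyInc_mem (R : Type) {σ : Type} [CommRing R] (s : Set σ) (p : MvPolynomial σ R)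
    (hp : ↑p.vars ⊆ s) : p ∈ (gl2PolyInc R s).range := by
  have h1 : p ∈ MvPolynomial.supported R s := MvPolynomial.mem_supported.2 hp
  rw [MvPolynomial.supported_eq_range_rename] at h1
  exact h1

theorem FJClosed.GL2_mvPolynomial {C : ∀ (G : Type) [Group G], Prop} (hC : FJClosed C)
    (σ R : Type) [CommRing R] [IsDomain R] (h : C (GL (Fin 2) R)) :
    C (GL (Fin 2) (MvPolynomial σ R)) := by
  classical
  have hmono : ∀ s t : Finset σ, s ⊆ t →
      (Matrix.GeneralLinearGroup.map (n := Fin 2) (gl2PolyInc R (s : Set σ))).range ≤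
      (Matrix.GeneralLinearGroup.map (n := Fin 2) (gl2PolyInc R (t : Set σ))).range := by
    rintro s t hst _ ⟨g, rfl⟩
    refine gl2Poly_mem_range _ (gl2PolyInc_injective R _) _ ?_ ?_
    · intro i j
      refine gl2PolyInc_mem R _ _ ?_
      have h1 : (gl2PolyInc R (s : Set σ)) (g.1 i j) ∈ MvPolynomial.supported R (s : Set σ) := by
        rw [MvPolynomial.supported_eq_range_rename]
        exact ⟨g.1 i j, rfl⟩
      exact (MvPolynomial.mem_supported.1 h1).trans (Finset.coe_subset.2 hst)
    · intro i j
      refine gl2PolyInc_mem R _ _ ?_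
      have h1 : (gl2PolyInc R (s : Set σ)) (g.2 i j) ∈ MvPolynomial.supported R (s : Set σ) := by
        rw [MvPolynomial.supported_eq_range_rename]
        exact ⟨g.2 i j, rfl⟩
      exact (MvPolynomial.mem_supported.1 h1).trans (Finset.coe_subset.2 hst)
  refine hC.union (I := Finset σ)
    (fun s => (Matrix.GeneralLinearGroup.map (n := Fin 2) (gl2PolyInc R (s : Set σ))).range)
    ?_ ?_ ?_
  · intro s t
    exact ⟨s ∪ t, hmono _ _ Finset.subset_union_left, hmono _ _ Finset.subset_union_right⟩
  · intro g
    refine ⟨(Finset.univ : Finset (Fin 2 × Fin 2)).biUnion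
      fun p => (g.1 p.1 p.2).vars ∪ (g.2 p.1 p.2).vars, ?_⟩
    refine gl2Poly_mem_range _ (gl2PolyInc_injective R _) _ ?_ ?_
    · intro i j
      refine gl2PolyInc_mem R _ _ ?_
      intro x hx
      exact Finset.mem_coe.2 (Finset.mem_biUnion.2
        ⟨(i, j), Finset.mem_univ _, Finset.mem_union_left _ hx⟩)
    · intro i j
      refine gl2PolyInc_mem R _ _ ?_
      intro x hx
      exact Finset.mem_coe.2 (Finset.mem_biUnion.2
        ⟨(i, j), Finset.mem_univ _, Finset.mem_union_right _ hx⟩)
  · intro s
    exact hC.of_mulEquiv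
      (MonoidHom.ofInjective (gl2Poly_map_injective _ (gl2PolyInc_injective R (s : Set σ))))
      (hC.gl2Poly_finite _ R h)

end Pool.Agent.H8.FJ3
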