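import Pool.Agent.H8.FJ3.FPC

/-!
# Graph products
-/

namespace Pool.Agent.H8.FJ3

open Pool.Agent.H8.FJ2

/-- The graph product over an induced subgraph embeds. -/
theorem gmap_injective {X Y A : Type} [Group A] {E : SimpleGraph X} {F : SimpleGraph Y} (e : X → Y)
    (hinj : Function.Injective e) (he : ∀ x y, E.Adj x y ↔ F.Adj (e x) (e y)) :
    Function.Injective (gmap (A := A) (E := E) (F := F) e (fun x y => (he x y).1)) := by
  classical
  let φ : Y → A →* GProd X A E := fun y => if h : ∃ x, e x = y then gof E h.choose else 1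
  have hφ : ∀ x, φ (e x) = gof E x := by
    intro x
    have h : ∃ x', e x' = e x := ⟨x, rfl⟩
    have h1 : h.choose = x := hinj h.choose_spec
    show (if h : ∃ x', e x' = e x then gof E h.choose else 1) = _
    rw [dif_pos h, h1]
  have hφ' : ∀ y, (¬ ∃ x, e x = y) → φ y = 1 := fun y h => dif_neg h
  have hc : ∀ y y', F.Adj y y' → ∀ a b, φ y a * φ y' b = φ y' b * φ y a := by
    intro y y' hyy a b
    by_cases h : ∃ x, e x = y
    · by_cases h' : ∃ x, e x = y'
      · obtain ⟨x, rfl⟩ := h
        obtain ⟨x', rfl⟩ := h'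
        rw [hφ, hφ]
        exact gof_comm ((he x x').2 hyy) a b
      · rw [hφ' y' h', MonoidHom.one_apply, mul_one, one_mul]
    · rw [hφ' y h, MonoidHom.one_apply, mul_one, one_mul]
  have hid : (glift φ hc).comp (gmap (A := A) (E := E) (F := F) e (fun x y => (he x y).1)) =
      MonoidHom.id _ := by
    refine ghom_ext (fun x a => ?_)
    rw [MonoidHom.comp_apply, gmap_gof, glift_gof, hφ]
    rfl
  intro z w hzw
  have h1 : glift φ hc (gmap (A := A) (E := E) (F := F) e (fun x y => (he x y).1) z) = z :=
    congrArg (fun f : GProd X A E →* GProd X A E => f z) hid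
  have h2 : glift φ hc (gmap (A := A) (E := E) (F := F) e (fun x y => (he x y).1) w) = w :=
    congrArg (fun f : GProd X A E →* GProd X A E => f w) hid
  rw [← h1, hzw, h2]

section Embed

variable {X A : Type} [Group A] (E : SimpleGraph X) (v : X)

/-- The graph product over the complement of the vertex. -/
abbrev GPc : Type := GProd {x // x ≠ v} A (E.comap Subtype.val)

/-- The subgroup generated by the neighbours of the vertex. -/
def gpL : Subgroup (GProd {x // x ≠ v} A (E.comap Subtype.val)) :=
  Subgroup.closure {g | ∃ (x : {x // x ≠ v}) (a : A), E.Adj x.1 v ∧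
    g = gof (E.comap Subtype.val) x a}

/-- The inclusion of the graph product over the complement. -/
noncomputable def gpI : GProd {x // x ≠ v} A (E.comap Subtype.val) →* GProd X A E :=
  gmap (E := E.comap Subtype.val) (F := E) Subtype.val (fun _ _ h => h)

theorem gpI_gof (x : {x // x ≠ v}) (a : A) :
    gpI E v (gof (E.comap Subtype.val) x a) = gof E x.1 a :=
  gmap_gof (E := E.comap Subtype.val) (F := E) Subtype.val (fun _ _ h => h) x a

theorem gpI_comm (l : GProd {x // x ≠ v} A (E.comap Subtype.val)) (hl : l ∈ gpL (A := A) E v)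
    (a : A) : gpI E v l * gof E v a = gof E v a * gpI E v l := by
  unfold gpL at hl
  induction hl using Subgroup.closure_induction with
  | mem x hx =>
    obtain ⟨y, b, hy, rfl⟩ := hx
    rw [gpI_gof]
    exact gof_comm hy b a
  | one => rw [map_one, one_mul, mul_one]
  | mul x y _ _ hx hy => rw [map_mul, mul_assoc, hy, ← mul_assoc, hx, mul_assoc]
  | inv x _ hx =>
    rw [map_inv, inv_mul_eq_iff_eq_mul, ← mul_assoc, hx, mul_inv_cancel_right]

/-- The homomorphism from the free product. -/
noncomputable def gpK : KK (GProd {x // x ≠ v} A (E.comap Subtype.val) ⧸ gpL (A := A) E v) A →*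
    GProd X A E :=
  Monoid.CoprodI.lift (fun s => (MulAut.conj (gpI E v (Quotient.out s))).toMonoidHom.comp
    (gof E v))

theorem gpK_lt (p : GProd {x // x ≠ v} A (E.comap Subtype.val)) (a : A) :
    gpK E v (lt (QuotientGroup.mk p) a) = gpI E v p * gof E v a * (gpI E v p)⁻¹ := by
  unfold gpK
  rw [Monoid.CoprodI.lift_of]
  obtain ⟨l, hl⟩ := QuotientGroup.mk_out_eq_mul (gpL (A := A) E v) p
  show gpI E v (Quotient.out (QuotientGroup.mk p : _ ⧸ gpL (A := A) E v)) * gof E v a *
    (gpI E v (Quotient.out (QuotientGroup.mk p : _ ⧸ gpL (A := A) E v)))⁻¹ = _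
  rw [hl, map_mul, mul_inv_rev, mul_assoc (gpI E v p), gpI_comm E v _ l.2, mul_assoc, mul_assoc,
    mul_assoc, mul_inv_cancel_left]

end Embed

/-- Removing a vertex: the graph product embeds in the extension of the free product of copies of
`A` by the graph product over the complement. -/
theorem exists_gp_embed {X A : Type} [Group A] (E : SimpleGraph X) (v : X) :
    ∃ f : GProd X A E →* (pD (GProd {x // x ≠ v} A (E.comap Subtype.val))
        (GProd {x // x ≠ v} A (E.comap Subtype.val) ⧸
          Subgroup.closure {g | ∃ (x : {x // x ≠ v}) (a : A), E.Adj x.1 v ∧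
            g = gof (E.comap Subtype.val) x a}) A).FP,
      Function.Injective f := by
  classical
  show ∃ f : GProd X A E →* (pD (GProd {x // x ≠ v} A (E.comap Subtype.val))
        (GProd {x // x ≠ v} A (E.comap Subtype.val) ⧸ gpL (A := A) E v) A).FP,
      Function.Injective f
  let D := pD (GProd {x // x ≠ v} A (E.comap Subtype.val))
        (GProd {x // x ≠ v} A (E.comap Subtype.val) ⧸ gpL (A := A) E v) A
  have hθ : ∀ (g : GProd {x // x ≠ v} A (E.comap Subtype.val))
      (s : GProd {x // x ≠ v} A (E.comap Subtype.val) ⧸ gpL (A := A) E v) (a : A),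
      D.θ g (lt s a) = lt (g • s) a := by
    intro g s a
    rw [FPD.θ_apply, FPD.act_of]
    rfl
  let φ : X → A →* D.FP := fun x => if h : x = v then
    (SemidirectProduct.inl).comp (lt (QuotientGroup.mk 1)) else
    (SemidirectProduct.inr).comp (gof (E.comap Subtype.val) ⟨x, h⟩)
  have hφv : φ v = (SemidirectProduct.inl).comp (lt (QuotientGroup.mk 1)) := dif_pos rfl
  have hφn : ∀ x (h : x ≠ v), φ x = (SemidirectProduct.inr).comp
      (gof (E.comap Subtype.val) ⟨x, h⟩) := fun x h => dif_neg h
  have key : ∀ (y : X) (h : y ≠ v) (a b : A), E.Adj y v → φ y b * φ v a = φ v a * φ y b := by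
    intro y h a b hy
    rw [hφv, hφn y h]
    have hl : gof (E.comap Subtype.val) (⟨y, h⟩ : {x // x ≠ v}) b ∈ gpL (A := A) E v :=
      Subgroup.subset_closure ⟨⟨y, h⟩, b, hy, rfl⟩
    have h1 := SemidirectProduct.inl_aut (φ := D.θ)
      (gof (E.comap Subtype.val) (⟨y, h⟩ : {x // x ≠ v}) b)
      (lt (QuotientGroup.mk 1 : _ ⧸ gpL (A := A) E v) a)
    have h2 : (gof (E.comap Subtype.val) (⟨y, h⟩ : {x // x ≠ v}) b) •
        (QuotientGroup.mk 1 : _ ⧸ gpL (A := A) E v) = QuotientGroup.mk 1 := by
      show QuotientGroup.mk (_ * 1) = _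
      rw [mul_one]
      refine QuotientGroup.eq.2 ?_
      rw [mul_one]
      exact inv_mem hl
    rw [hθ, h2] at h1
    show SemidirectProduct.inr (gof (E.comap Subtype.val) (⟨y, h⟩ : {x // x ≠ v}) b) *
      SemidirectProduct.inl (lt (QuotientGroup.mk 1 : _ ⧸ gpL (A := A) E v) a) =
      SemidirectProduct.inl (lt (QuotientGroup.mk 1 : _ ⧸ gpL (A := A) E v) a) *
      SemidirectProduct.inr (gof (E.comap Subtype.val) (⟨y, h⟩ : {x // x ≠ v}) b)
    rw [map_inv] at h1
    exact (mul_inv_eq_iff_eq_mul.1 h1.symm)
  have hc : ∀ x y, E.Adj x y → ∀ a b, φ x a * φ y b = φ y b * φ x a := by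
    intro x y hxy a b
    by_cases hx : x = v
    · subst hx
      have hy : y ≠ x := fun h => E.loopless.irrefl x (h ▸ hxy)
      exact (key y hy a b hxy.symm).symm
    · by_cases hy : y = v
      · subst hy
        exact key x hx b a hxy
      · rw [hφn x hx, hφn y hy]
        show SemidirectProduct.inr _ * SemidirectProduct.inr _ =
          SemidirectProduct.inr _ * SemidirectProduct.inr _
        rw [← map_mul, ← map_mul]
        exact congrArg _ (gof_comm (E := E.comap Subtype.val) (x := (⟨x, hx⟩ : {x // x ≠ v}))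
          (y := ⟨y, hy⟩) hxy a b)
  let k : D.FP →* GProd X A E := SemidirectProduct.lift (gpK E v) (gpI E v) (by
    intro g
    apply Monoid.CoprodI.ext_hom
    intro s
    apply MonoidHom.ext
    intro a
    obtain ⟨p, rfl⟩ := QuotientGroup.mk_surjective s
    show gpK E v (D.θ g (lt (QuotientGroup.mk p) a)) =
      gpI E v g * gpK E v (lt (QuotientGroup.mk p) a) * (gpI E v g)⁻¹
    rw [hθ]
    have h2 : g • (QuotientGroup.mk p : _ ⧸ gpL (A := A) E v) = QuotientGroup.mk (g * p) := rfl
    rw [h2, gpK_lt, gpK_lt, map_mul]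
    group)
  have hid : k.comp (glift φ hc) = MonoidHom.id _ := by
    refine ghom_ext (fun x a => ?_)
    rw [MonoidHom.comp_apply, glift_gof]
    by_cases hx : x = v
    · subst hx
      rw [hφv]
      show k (SemidirectProduct.inl _) = _
      rw [SemidirectProduct.lift_inl, gpK_lt, map_one, one_mul, inv_one, mul_one]
      rfl
    · rw [hφn x hx]
      show k (SemidirectProduct.inr _) = _
      rw [SemidirectProduct.lift_inr, gpI_gof]
      rfl
  refine ⟨glift φ hc, ?_⟩
  intro z w hzw
  have h1 : k (glift φ hc z) = z := congrArg (fun f : GProd X A E →* GProd X A E => f z) hid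
  have h2 : k (glift φ hc w) = w := congrArg (fun f : GProd X A E →* GProd X A E => f w) hid
  rw [← h1, hzw, h2]

theorem FJClosed.gprod {C : ∀ (G : Type) [Group G], Prop} (hC : FJClosed C) {X A : Type}
    [Group A] [Finite X] (E : SimpleGraph X) (hA : C A) : C (GProd X A E) := by
  classical
  have key : ∀ n : ℕ, ∀ (Y : Type) [Finite Y] (F : SimpleGraph Y), Nat.card Y = n →
      C (GProd Y A F) := by
    intro n
    induction n with
    | zero =>
      intro Y _ F hY
      have hempty : IsEmpty Y := by
        rcases Nat.card_eq_zero.1 hY with h | h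
        · exact h
        · exact absurd ‹Finite Y› (not_finite_iff_infinite.2 h)
      have h1 : (MonoidHom.id (GProd Y A F)) = 1 :=
        ghom_ext (fun x a => (hempty.false x).elim)
      have h2 : Subsingleton (GProd Y A F) := ⟨fun z w => by
        have hz : z = 1 := congrArg (fun f : GProd Y A F →* GProd Y A F => f z) h1
        have hw : w = 1 := congrArg (fun f : GProd Y A F →* GProd Y A F => f w) h1
        rw [hz, hw]⟩
      exact hC.finite _
    | succ n ih =>
      intro Y _ F hY
      have hne : Nonempty Y := by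
        by_contra h
        rw [not_nonempty_iff] at h
        rw [Nat.card_of_isEmpty] at hY
        omega
      obtain ⟨v⟩ := hne
      obtain ⟨f, hf⟩ := exists_gp_embed (A := A) F v
      refine hC.sub f hf (hC.fpd (ih _ _ ?_) hA)
      have h1 := Nat.card_congr (Equiv.optionSubtypeNe v)
      rw [Finite.card_option, hY] at h1
      omega
  exact key _ X E rfl

end Pool.Agent.H8.FJ3
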