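import Pool.Agent.H8.FJ3.LI
import Pool.Agent.H8.FJ3.GP
import Pool.Agent.H8.FJ3.EPPA

/-!
# Graph wreath products
-/

namespace Pool.Agent.H8.FJ3

section

variable {X A : Type} [Group A] {E : SimpleGraph X}

/-- The graph product over a finite set of vertices, mapped to the graph product. -/
private noncomputable def gwG (E : SimpleGraph X) (A : Type) [Group A] (S : Finset X) :
    GProd {x // x ∈ S} A (E.comap Subtype.val) →* GProd X A E :=
  gmap (E := E.comap Subtype.val) (F := E) (fun x : {x // x ∈ S} => x.1) (fun _ _ h => h)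

private theorem gwG_injective (S : Finset X) : Function.Injective (gwG E A S) :=
  gmap_injective (E := E.comap Subtype.val) (F := E) (fun x : {x // x ∈ S} => x.1)
    Subtype.val_injective (fun _ _ => Iff.rfl)

/-- The map for an inclusion. -/
private noncomputable def gwI (E : SimpleGraph X) (A : Type) [Group A] {S T : Finset X} (h : S ⊆ T) :
    GProd {x // x ∈ S} A (E.comap Subtype.val) →* GProd {x // x ∈ T} A (E.comap Subtype.val) :=
  gmap (E := E.comap Subtype.val) (F := E.comap Subtype.val)
    (fun x : {x // x ∈ S} => (⟨x.1, h x.2⟩ : {x // x ∈ T})) (fun _ _ h => h)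

private theorem gwG_gof (S : Finset X) (x : {x // x ∈ S}) (a : A) :
    gwG E A S (gof (E.comap Subtype.val) x a) = gof E x.1 a :=
  gmap_gof (E := E.comap Subtype.val) (F := E) (fun x : {x // x ∈ S} => x.1) (fun _ _ h => h) x a

private theorem gwI_gof {S T : Finset X} (h : S ⊆ T) (x : {x // x ∈ S}) (a : A) :
    gwI E A h (gof (E.comap Subtype.val) x a) = gof (E.comap Subtype.val) ⟨x.1, h x.2⟩ a :=
  gmap_gof (E := E.comap Subtype.val) (F := E.comap Subtype.val)
    (fun x : {x // x ∈ S} => (⟨x.1, h x.2⟩ : {x // x ∈ T})) (fun _ _ h => h) x a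

private theorem gwG_gwI {S T : Finset X} (h : S ⊆ T) (z) :
    gwG E A T (gwI E A h z) = gwG E A S z := by
  have : (gwG E A T).comp (gwI E A h) = gwG E A S := by
    refine ghom_ext fun x a => ?_
    rw [MonoidHom.comp_apply, gwI_gof, gwG_gof, gwG_gof]
  rw [← this]
  rfl

private theorem gwG_exists (w : GProd X A E) : ∃ S : Finset X, w ∈ (gwG E A S).range := by
  classical
  obtain ⟨v, rfl⟩ := QuotientGroup.mk'_surjective _ w
  induction v using Monoid.CoprodI.induction_on with
  | one => exact ⟨∅, by rw [map_one]; exact Subgroup.one_mem _⟩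
  | of x a =>
    refine ⟨{x}, gof (E.comap Subtype.val) ⟨x, Finset.mem_singleton_self x⟩ a, ?_⟩
    rw [gwG_gof]
    rfl
  | mul u v hu hv =>
    obtain ⟨S, u', hu'⟩ := hu
    obtain ⟨T, v', hv'⟩ := hv
    refine ⟨S ∪ T, ?_⟩
    rw [map_mul]
    refine Subgroup.mul_mem _ ?_ ?_
    · exact ⟨gwI E A Finset.subset_union_left u', by rw [gwG_gwI, hu']⟩
    · exact ⟨gwI E A Finset.subset_union_right v', by rw [gwG_gwI, hv']⟩

end

theorem FJClosed.gwreath {C : ∀ (G : Type) [Group G], Prop} (hC : FJClosed C) {X A G : Type}
    [Group A] [Group G] [MulAction G X] {E : SimpleGraph X}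
    (hE : ∀ (g : G) (x y : X), E.Adj x y → E.Adj (g • x) (g • y)) (hA : C A) (hG : C G) :
    C (GWr A hE) := by
  classical
  set N : Subgroup (GWr A hE) := (SemidirectProduct.rightHom : GWr A hE →* G).ker with hN
  have hquot : C (GWr A hE ⧸ N) :=
    hC.of_mulEquiv (QuotientGroup.quotientKerEquivOfSurjective
      (SemidirectProduct.rightHom : GWr A hE →* G) SemidirectProduct.rightHom_surjective).symm hG
  refine hC.of_locInner N ?_ hquot
  -- the subgroups
  let j : ∀ S : Finset X, GProd {x // x ∈ S} A (E.comap Subtype.val) →* GWr A hE :=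
    fun S => (SemidirectProduct.inl).comp (gwG E A S)
  have hj : ∀ S, Function.Injective (j S) := fun S =>
    SemidirectProduct.inl_injective.comp (gwG_injective S)
  have hjI : ∀ {S T : Finset X} (h : S ⊆ T) (z), j T (gwI E A h z) = j S z := by
    intro S T h z
    show SemidirectProduct.inl (gwG E A T (gwI E A h z)) = SemidirectProduct.inl (gwG E A S z)
    rw [gwG_gwI]
  have hmono : ∀ {S T : Finset X}, S ⊆ T → (j S).range ≤ (j T).range := by
    rintro S T h _ ⟨z, rfl⟩
    exact ⟨gwI E A h z, hjI h z⟩
  refine ⟨Finset X, ⟨∅⟩, fun S => (j S).range, ?_, ?_, ?_⟩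
  · intro S T
    exact ⟨S ∪ T, hmono Finset.subset_union_left, hmono Finset.subset_union_right⟩
  · intro x
    constructor
    · intro hx
      have hx' : x.right = 1 := hx
      obtain ⟨S, z, hz⟩ := gwG_exists x.left
      refine ⟨S, z, ?_⟩
      show SemidirectProduct.inl (gwG E A S z) = x
      rw [hz]
      exact SemidirectProduct.ext rfl hx'.symm
    · rintro ⟨S, z, rfl⟩
      rw [hN, MonoidHom.mem_ker]
      rfl
  · intro g1 S
    set w := g1.left with hw
    set g := g1.right with hg
    have hg1 : g1 = SemidirectProduct.inl w * SemidirectProduct.inr g :=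
      (SemidirectProduct.inl_left_mul_inr_right g1).symm
    obtain ⟨Sw, w0, hw0⟩ := gwG_exists w
    set T : Finset X := (S ∪ S.image (fun x => g • x)) ∪ Sw with hT
    have hST : S ⊆ T := Finset.subset_union_left.trans Finset.subset_union_left
    have hgT : ∀ x ∈ S, g • x ∈ T := fun x hx =>
      Finset.mem_union_left _ (Finset.mem_union_right _ (Finset.mem_image_of_mem _ hx))
    have hwT : Sw ⊆ T := Finset.subset_union_right
    set w' := gwI E A hwT w0 with hw'
    have hw'' : gwG E A T w' = w := by rw [hw', gwG_gwI, hw0]
    let τ : {x // x ∈ S} → {x // x ∈ T} := fun x => ⟨g • x.1, hgT x.1 x.2⟩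
    let gτ : GProd {x // x ∈ S} A (E.comap Subtype.val) →*
        GProd {x // x ∈ T} A (E.comap Subtype.val) :=
      gmap (E := E.comap Subtype.val) (F := E.comap Subtype.val) τ (fun x y h => hE g x.1 y.1 h)
    have hgτ : ∀ x a, gτ (gof (E.comap Subtype.val) x a) = gof (E.comap Subtype.val) (τ x) a :=
      fun x a => gmap_gof (E := E.comap Subtype.val) (F := E.comap Subtype.val) τ
        (fun x y h => hE g x.1 y.1 h) x a
    have hτ : ∀ z, gact A hE g (gwG E A S z) = gwG E A T (gτ z) := by
      intro z
      have : ((gact A hE g).toMonoidHom).comp (gwG E A S) = (gwG E A T).comp gτ := by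
        refine ghom_ext fun x a => ?_
        show gact A hE g (gwG E A S (gof (E.comap Subtype.val) x a)) =
          gwG E A T (gτ (gof (E.comap Subtype.val) x a))
        rw [gwG_gof, gact_gof, hgτ, gwG_gof]
      exact congrArg (fun f : _ →* _ => f z) this
    have hconj : ∀ z, g1 * j S z * g1⁻¹ = j T (w' * gτ z * w'⁻¹) := by
      intro z
      have e1 : (SemidirectProduct.inr g : GWr A hE) * j S z * (SemidirectProduct.inr g)⁻¹ =
          j T (gτ z) := by
        show (SemidirectProduct.inr g : GWr A hE) * SemidirectProduct.inl (gwG E A S z) *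
          (SemidirectProduct.inr g)⁻¹ = SemidirectProduct.inl (gwG E A T (gτ z))
        rw [← hτ, SemidirectProduct.inl_aut, map_inv]
      have e2 : j T w' = SemidirectProduct.inl w := by
        show SemidirectProduct.inl (gwG E A T w') = SemidirectProduct.inl w
        rw [hw'']
      rw [map_mul, map_mul, map_inv, e2, ← e1, hg1]
      group
    refine ⟨T, hmono hST, ?_, ?_⟩
    · rintro _ ⟨z, rfl⟩
      exact ⟨_, (hconj z).symm⟩
    · obtain ⟨Y, hYfin, F, e, heinj, headj, hext⟩ :=
        eppa {x // x ∈ T} (E.comap Subtype.val)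
      -- the extension of the partial isomorphism
      obtain ⟨α, hα1, hα2⟩ := hext {x | x.1 ∈ S} (fun x => τ ⟨x.1.1, x.2⟩) (by
          intro x y hxy
          have h1 : g • x.1.1 = g • y.1.1 := congrArg Subtype.val hxy
          exact Subtype.ext (Subtype.ext (MulAction.injective g h1))) (by
          intro x y
          constructor
          · intro h
            exact hE g _ _ h
          · intro h
            have h1 : E.Adj (g • x.1.1) (g • y.1.1) := h
            have h2 := hE g⁻¹ _ _ h1
            rw [inv_smul_smul, inv_smul_smul] at h2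
            exact h2)
      let Γ : Subgroup (Equiv.Perm Y) :=
        { carrier := {p | ∀ x y, F.Adj x y ↔ F.Adj (p x) (p y)}
          one_mem' := fun _ _ => Iff.rfl
          mul_mem' := fun {p q} hp hq x y => (hq x y).trans (hp (q x) (q y))
          inv_mem' := fun {p} hp x y => by
            have h1 := hp (p⁻¹ x) (p⁻¹ y)
            have h2 : ∀ z, p (p⁻¹ z) = z := fun z => Equiv.apply_symm_apply p z
            rw [h2, h2] at h1
            exact h1.symm }
      have hF : ∀ (p : Γ) (x y : Y), F.Adj x y → F.Adj (p • x) (p • y) :=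
        fun p x y h => (p.2 x y).1 h
      have hCP : C (GWr A hF) := by
        have hfin : ((SemidirectProduct.rightHom : GWr A hF →* Γ).ker).FiniteIndex :=
          Subgroup.finiteIndex_ker _
        refine hC.fi _ hfin ?_
        refine hC.sub (G := GProd Y A F)
          { toFun := fun x => x.1.left
            map_one' := rfl
            map_mul' := fun x y => by
              have hx : x.1.right = 1 := x.2
              show (x.1 * y.1).left = _
              rw [SemidirectProduct.mul_left, hx, map_one]
              rfl } ?_ (hC.gprod F hA)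
        intro x y hxy
        apply Subtype.ext
        have hx : x.1.right = 1 := x.2
        have hy : y.1.right = 1 := y.2
        exact SemidirectProduct.ext hxy (hx.trans hy.symm)
      let ge : GProd {x // x ∈ T} A (E.comap Subtype.val) →* GProd Y A F :=
        gmap (E := E.comap Subtype.val) (F := F) e (fun x y => (headj x y).1)
      have hge' : ∀ x a, ge (gof (E.comap Subtype.val) x a) = gof F (e x) a :=
        fun x a => gmap_gof (E := E.comap Subtype.val) (F := F) e (fun x y => (headj x y).1) x a
      have hge : Function.Injective ge := gmap_injective e heinj headj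
      let ι : (j T).range →* GWr A hF :=
        ((SemidirectProduct.inl).comp ge).comp (MonoidHom.ofInjective (hj T)).symm.toMonoidHom
      have hιj : ∀ (x : (j T).range) (z), (x : GWr A hE) = j T z →
          ι x = SemidirectProduct.inl (ge z) := by
        intro x z hxz
        have h1 : (MonoidHom.ofInjective (hj T)).symm x = z := by
          rw [MulEquiv.symm_apply_eq]
          exact Subtype.ext hxz
        show SemidirectProduct.inl (ge ((MonoidHom.ofInjective (hj T)).symm x)) = _
        rw [h1]
      let αΓ : Γ := ⟨α, hα1⟩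
      have hact : ∀ z, gact A hF αΓ (ge (gwI E A hST z)) = ge (gτ z) := by
        intro z
        have : (((gact A hF αΓ).toMonoidHom).comp ge).comp (gwI E A hST) = ge.comp gτ := by
          refine ghom_ext fun x a => ?_
          show gact A hF αΓ (ge (gwI E A hST (gof (E.comap Subtype.val) x a))) =
            ge (gτ (gof (E.comap Subtype.val) x a))
          rw [gwI_gof, hgτ, hge', hge', gact_gof]
          have h1 : αΓ • e ⟨x.1, hST x.2⟩ = e (τ x) := hα2 ⟨⟨x.1, hST x.2⟩, x.2⟩
          rw [h1]
        exact congrArg (fun f : _ →* _ => f z) this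
      refine ⟨GWr A hF, inferInstance, ι,
        SemidirectProduct.inl (ge w') * SemidirectProduct.inr αΓ, hCP, ?_, ?_⟩
      · refine (SemidirectProduct.inl_injective.comp hge).comp ?_
        exact (MonoidHom.ofInjective (hj T)).symm.injective
      · intro x y hx hy
        obtain ⟨z, hz⟩ := hx
        have e1 : ι x = SemidirectProduct.inl (ge (gwI E A hST z)) :=
          hιj x _ (by rw [hjI, hz])
        have e2 : ι y = SemidirectProduct.inl (ge (w' * gτ z * w'⁻¹)) :=
          hιj y _ (by rw [hy, ← hz, hconj])
        rw [e1, e2, map_mul, map_mul, map_mul, map_mul, map_inv, map_inv, ← hact,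
          SemidirectProduct.inl_aut, map_inv]
        group

end Pool.Agent.H8.FJ3
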