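import Pool.Agent.H8.FJ3.FPC

/-!
# HNN extensions with an inner identification of the associated subgroups
-/

namespace Pool.Agent.H8.FJ3

open Pool.Agent.H8.FJ2

open HNNExtension HNNExtension.NormalWord

section HnnEmbed

variable {N P : Type} [Group N] [Group P]

/-- The conjugates of the stable letter by representatives of the cosets. -/
noncomputable def hnnC (A' : Subgroup P) (s : P ⧸ A') :
    HNNExtension P A' A' (MulEquiv.refl A') :=
  of s.out * t * (of s.out)⁻¹

theorem hnnC_mk (A' : Subgroup P) (x : P) :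
    hnnC A' (QuotientGroup.mk x) = of x * t * (of x)⁻¹ := by
  have h1 : x⁻¹ * (QuotientGroup.mk x : P ⧸ A').out ∈ A' := by
    rw [← QuotientGroup.eq]
    exact (QuotientGroup.out_eq' _).symm
  set y := (QuotientGroup.mk x : P ⧸ A').out with hy
  have h2 : (t : HNNExtension P A' A' (MulEquiv.refl A')) * of (x⁻¹ * y) =
      of (x⁻¹ * y) * t := HNNExtension.t_mul_of (φ := MulEquiv.refl A') ⟨x⁻¹ * y, h1⟩
  have h3 : y = x * (x⁻¹ * y) := by group
  unfold hnnC
  rw [← hy, h3, map_mul of x, mul_assoc (of x), ← h2]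
  group

/-- The homomorphism on the free product. -/
noncomputable def hnnK (A' : Subgroup P) :
    KK (P ⧸ A') (Multiplicative ℤ) →* HNNExtension P A' A' (MulEquiv.refl A') :=
  Monoid.CoprodI.lift (fun s => zpowersHom _ (hnnC A' s))

theorem hnnK_lt (A' : Subgroup P) (s : P ⧸ A') (n : Multiplicative ℤ) :
    hnnK A' (lt s n) = hnnC A' s ^ (Multiplicative.toAdd n) := by
  unfold hnnK
  rw [Monoid.CoprodI.lift_of]
  rfl

theorem hnnC_smul (A' : Subgroup P) (x : P) (s : P ⧸ A') :
    hnnC A' (x • s) = of x * hnnC A' s * (of x)⁻¹ := by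
  obtain ⟨y, rfl⟩ := QuotientGroup.mk_surjective s
  have h : (x • (QuotientGroup.mk y : P ⧸ A')) = QuotientGroup.mk (x * y) := rfl
  rw [h, hnnC_mk, hnnC_mk, map_mul]
  group

theorem hnn_conj_zpow {G : Type} [Group G] (a b : G) (n : ℤ) :
    (a * b * a⁻¹) ^ n = a * b ^ n * a⁻¹ := conj_zpow

/-- The homomorphism from the extension of the free product. -/
noncomputable def hnnF (A' : Subgroup P) : (pD P (P ⧸ A') (Multiplicative ℤ)).FP →*
    HNNExtension P A' A' (MulEquiv.refl A') :=
  SemidirectProduct.lift (hnnK A') of (by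
    intro x
    apply Monoid.CoprodI.ext_hom
    intro s
    apply MonoidHom.ext
    intro n
    show hnnK A' ((pD P (P ⧸ A') (Multiplicative ℤ)).θ x (lt s n)) =
      of x * hnnK A' (lt s n) * (of x)⁻¹
    rw [FPD.θ_apply, FPD.act_of]
    show hnnK A' (lt (x • s) n) = of x * hnnK A' (lt s n) * (of x)⁻¹
    rw [hnnK_lt, hnnK_lt, hnnC_smul, hnn_conj_zpow])

/-- The factor `p` before a syllable with a positive exponent. -/
noncomputable def hnnNx (p : P) : List (ℤˣ × N) → P
  | [] => 1
  | x :: _ => if x.1 = 1 then p else 1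

/-- The translation of the syllables. -/
noncomputable def hnnConv (ι : N →* P) (p : P) : List (ℤˣ × N) → List (ℤˣ × P)
  | [] => []
  | x :: l => (x.1, (if x.1 = 1 then 1 else p⁻¹) * ι x.2 * hnnNx p l) :: hnnConv ι p l

theorem hnnConv_prod {A B : Subgroup N} {φ : A ≃* B} (A' : Subgroup P) (ι : N →* P) (p : P)
    (F : HNNExtension N A B φ →* HNNExtension P A' A' (MulEquiv.refl A'))
    (hF : ∀ n, F (of n) = of (ι n)) (hFt : F t = of p * t) (l : List (ℤˣ × N)) :
    F ((l.map (fun x => t ^ (x.1 : ℤ) * of x.2)).prod) =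
      of (hnnNx p l) * ((hnnConv ι p l).map (fun x => t ^ (x.1 : ℤ) * of x.2)).prod := by
  induction l with
  | nil => simp [hnnNx, hnnConv]
  | cons x l ih =>
    obtain ⟨u, n⟩ := x
    rw [List.map_cons, List.prod_cons, map_mul, ih, hnnConv, List.map_cons, List.prod_cons]
    rcases Int.units_eq_one_or u with rfl | rfl
    · simp only [hnnNx, if_true, Units.val_one, zpow_one, one_mul, map_mul, hF, hFt]
      group
    · have h : ¬ ((-1 : ℤˣ) = 1) := by decide
      simp only [hnnNx, h, if_false, Units.val_neg, Units.val_one, zpow_neg, zpow_one, map_mul,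
        map_inv, hF, hFt, map_one, one_mul]
      group

theorem hnnConv_chain {A B : Subgroup N} {φ : A ≃* B} (ι : N →* P)
    (hι : Function.Injective ι) (p : P)
    (hp : ∀ a : A, ι (φ a : N) = p * ι (a : N) * p⁻¹) (l : List (ℤˣ × N))
    (h : l.IsChain (fun a b => a.2 ∈ toSubgroup A B a.1 → a.1 = b.1)) :
    (hnnConv ι p l).IsChain
      (fun a b => a.2 ∈ toSubgroup (A.map ι) (A.map ι) a.1 → a.1 = b.1) := by
  induction l with
  | nil => exact List.isChain_nil
  | cons x l ih =>
    rw [List.isChain_cons] at h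
    obtain ⟨h1, h2⟩ := h
    rw [hnnConv, List.isChain_cons]
    refine ⟨?_, ih h2⟩
    rcases l with _ | ⟨y, l⟩
    · intro z hz
      simp [hnnConv] at hz
    · intro z hz hmem
      have h3 := h1 y (by simp)
      simp only [hnnConv, List.head?_cons, Option.mem_def, Option.some.injEq] at hz
      subst hz
      obtain ⟨u, n⟩ := x
      obtain ⟨v, m⟩ := y
      simp only at h3 hmem ⊢
      rcases Int.units_eq_one_or u with rfl | rfl <;>
        rcases Int.units_eq_one_or v with rfl | rfl
      · rfl
      · apply h3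
        have h : ¬ ((-1 : ℤˣ) = 1) := by decide
        simp only [hnnNx, h, if_false, if_true, one_mul, mul_one, toSubgroup_one] at hmem ⊢
        obtain ⟨a, ha, hae⟩ := hmem
        rw [← hι hae]
        exact ha
      · apply h3
        have h : ¬ ((-1 : ℤˣ) = 1) := by decide
        simp only [hnnNx, h, if_false, if_true, toSubgroup_neg_one] at hmem ⊢
        obtain ⟨a, ha, hae⟩ := hmem
        have h4 := hp ⟨a, ha⟩
        have h5 : ι n = ι (φ ⟨a, ha⟩ : N) := by
          rw [h4]
          show ι n = p * ι a * p⁻¹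
          rw [hae]
          group
        rw [hι h5]
        exact (φ ⟨a, ha⟩).2
      · rfl

/-- Injectivity by Britton's lemma. -/
theorem hnn_injective (A B : Subgroup N) (φ : A ≃* B)
    (ι : N →* P) (hι : Function.Injective ι) (p : P)
    (hp : ∀ a : A, ι (φ a : N) = p * ι (a : N) * p⁻¹)
    (F : HNNExtension N A B φ →* HNNExtension P (A.map ι) (A.map ι) (MulEquiv.refl (A.map ι)))
    (hF : ∀ n, F (of n) = of (ι n)) (hFt : F t = of p * t) : Function.Injective F := by
  rw [injective_iff_map_eq_one]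
  intro x hx
  obtain ⟨d⟩ := TransversalPair.nonempty N A B
  obtain ⟨w, rfl⟩ : ∃ w : NormalWord d, w.prod φ = x :=
    ⟨NormalWord.equiv φ d x, (NormalWord.equiv φ d).symm_apply_apply x⟩
  let w' : ReducedWord P (A.map ι) (A.map ι) :=
    { head := ι w.head * hnnNx p w.toList
      toList := hnnConv ι p w.toList
      chain := hnnConv_chain (φ := φ) ι hι p hp w.toList w.chain }
  have h1 : F (w.prod φ) = w'.prod (MulEquiv.refl (A.map ι)) := by
    show F (of w.head * (w.toList.map (fun x => t ^ (x.1 : ℤ) * of x.2)).prod) =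
      of (ι w.head * hnnNx p w.toList) *
        ((hnnConv ι p w.toList).map (fun x => t ^ (x.1 : ℤ) * of x.2)).prod
    rw [map_mul, hF, hnnConv_prod (A.map ι) ι p F hF hFt, map_mul, mul_assoc]
  have h2 : w'.toList = [] := by
    refine ReducedWord.toList_eq_nil_of_mem_of_range (MulEquiv.refl (A.map ι)) w' ?_
    rw [← h1, hx]
    exact one_mem _
  have h3 : w.toList = [] := by
    have h4 : hnnConv ι p w.toList = [] := h2
    cases hw : w.toList with
    | nil => rfl
    | cons y l =>
      rw [hw, hnnConv] at h4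
      exact absurd h4 (by simp)
  have h5 : w.prod φ = of w.head := by
    show of w.head * (w.toList.map (fun x => t ^ (x.1 : ℤ) * of x.2)).prod = of w.head
    rw [h3, List.map_nil, List.prod_nil, mul_one]
  rw [h5, hF] at hx
  have h6 : ι w.head = 1 :=
    HNNExtension.of_injective (MulEquiv.refl (A.map ι)) (by rw [hx, map_one])
  have h7 : w.head = 1 := hι (by rw [h6, map_one])
  rw [h5, h7, map_one]

end HnnEmbed

/-- The homomorphism to the extension of the free group on `P ⧸ A'` by `P`. -/
theorem exists_hnn_embed {N P : Type} [Group N] [Group P] (A B : Subgroup N) (φ : A ≃* B)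
    (ι : N →* P) (hι : Function.Injective ι) (p : P)
    (hp : ∀ a : A, ι (φ a : N) = p * ι (a : N) * p⁻¹) :
    ∃ f : HNNExtension N A B φ →* (pD P (P ⧸ A.map ι) (Multiplicative ℤ)).FP,
      Function.Injective f := by
  have hfix : ∀ a : A, (pD P (P ⧸ A.map ι) (Multiplicative ℤ)).θ (ι a)
      (lt (QuotientGroup.mk 1) (Multiplicative.ofAdd 1)) =
      lt (QuotientGroup.mk 1) (Multiplicative.ofAdd 1) := by
    intro a
    rw [FPD.θ_apply, FPD.act_of]
    show lt (ι a • (QuotientGroup.mk 1 : P ⧸ A.map ι)) (Multiplicative.ofAdd 1) =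
      lt (QuotientGroup.mk 1) (Multiplicative.ofAdd 1)
    have h : (ι a • (QuotientGroup.mk 1 : P ⧸ A.map ι)) = QuotientGroup.mk 1 := by
      show (QuotientGroup.mk (ι a * 1) : P ⧸ A.map ι) = QuotientGroup.mk 1
      rw [QuotientGroup.eq, mul_one, mul_one]
      exact inv_mem ⟨a, a.2, rfl⟩
    rw [h]
  let τ : (pD P (P ⧸ A.map ι) (Multiplicative ℤ)).FP :=
    SemidirectProduct.inl (lt (QuotientGroup.mk 1) (Multiplicative.ofAdd 1))
  have hcomm : ∀ a : A, τ * SemidirectProduct.inr (ι a) = SemidirectProduct.inr (ι a) * τ := by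
    intro a
    have h := SemidirectProduct.inl_aut (φ := (pD P (P ⧸ A.map ι) (Multiplicative ℤ)).θ) (ι a)
      (lt (QuotientGroup.mk 1) (Multiplicative.ofAdd 1))
    rw [hfix a] at h
    show SemidirectProduct.inl _ * _ = _ * SemidirectProduct.inl _
    conv_lhs => rw [h]
    rw [map_inv, inv_mul_cancel_right]
  let f : HNNExtension N A B φ →* (pD P (P ⧸ A.map ι) (Multiplicative ℤ)).FP :=
    HNNExtension.lift (SemidirectProduct.inr.comp ι) (SemidirectProduct.inr p * τ) (by
      intro a
      show SemidirectProduct.inr p * τ * SemidirectProduct.inr (ι a) =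
        SemidirectProduct.inr (ι (φ a)) * (SemidirectProduct.inr p * τ)
      rw [hp a, mul_assoc, hcomm a, map_mul, map_mul, map_inv]
      group)
  refine ⟨f, ?_⟩
  have hinj : Function.Injective ((hnnF (A.map ι)).comp f) := by
    refine hnn_injective A B φ ι hι p hp _ ?_ ?_
    · intro n
      show hnnF (A.map ι) (f (of n)) = of (ι n)
      have h : f (of n) = SemidirectProduct.inr (ι n) := HNNExtension.lift_of _ _ _ n
      rw [h]
      unfold hnnF
      rw [SemidirectProduct.lift_inr]
    · show hnnF (A.map ι) (f t) = of p * t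
      have h : f t = SemidirectProduct.inr p * τ := HNNExtension.lift_t _ _ _
      rw [h, map_mul]
      show hnnF (A.map ι) (SemidirectProduct.inr p) * hnnF (A.map ι) (SemidirectProduct.inl _) =
        of p * t
      unfold hnnF
      rw [SemidirectProduct.lift_inr, SemidirectProduct.lift_inl, hnnK_lt, hnnC_mk]
      simp
  intro x y hxy
  exact hinj (congrArg (hnnF (A.map ι)) hxy)

theorem FJClosed.hnn {C : ∀ (G : Type) [Group G], Prop} (hC : FJClosed C) {N P : Type} [Group N]
    [Group P] (A B : Subgroup N) (φ : A ≃* B) (ι : N →* P) (hι : Function.Injective ι) (p : P)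
    (hp : ∀ a : A, ι (φ a : N) = p * ι (a : N) * p⁻¹) (hP : C P) : C (HNNExtension N A B φ) := by
  obtain ⟨f, hf⟩ := exists_hnn_embed A B φ ι hι p hp
  exact hC.sub f hf (hC.fpd hP (hC.solv inferInstance))

end Pool.Agent.H8.FJ3
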