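import Pool.Agent.H8.FJ3.HNN

/-!
# Extensions by groups with a locally inner action
-/

namespace Pool.Agent.H8.FJ3

/-- A system of pairs of subgroups of `N` for the conjugation by `g`. -/
structure LIData (G : Type) [Group G] (g : G) (N : Subgroup G) (J : Type) where
  /-- the small subgroup -/
  a : J → Subgroup G
  /-- the large subgroup -/
  b : J → Subgroup G
  hle : ∀ j, a j ≤ b j
  hab : ∀ j, ∀ x ∈ a j, g * x * g⁻¹ ∈ b j
  hbN : ∀ j, b j ≤ N
  up : ∀ i j, ∀ z ∈ N, ∃ k, (a i ≤ a k ∧ b i ≤ b k) ∧ (a j ≤ a k ∧ b j ≤ b k) ∧ b i ≤ a k ∧ z ∈ a k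

namespace LIData

noncomputable section

variable {G : Type} [Group G] {g : G} {N : Subgroup G} {J : Type} (D : LIData G g N J)

/-- The conjugation by `g`. -/
def cj (j : J) : ((D.a j).subgroupOf (D.b j)) →* D.b j where
  toFun x := ⟨g * (x.1 : G) * g⁻¹, D.hab j x.1 x.2⟩
  map_one' := Subtype.ext (by simp)
  map_mul' x y := Subtype.ext (by
    show g * ((x.1 : G) * (y.1 : G)) * g⁻¹ = (g * (x.1 : G) * g⁻¹) * (g * (y.1 : G) * g⁻¹)
    group)

theorem cj_inj (j : J) : Function.Injective (D.cj j) := by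
  intro x y hxy
  have h1 : g * (x.1 : G) * g⁻¹ = g * (y.1 : G) * g⁻¹ := congrArg Subtype.val hxy
  apply Subtype.ext
  apply Subtype.ext
  exact mul_left_cancel (mul_right_cancel h1)

/-- The HNN extension of the pair `j`. -/
abbrev HH (j : J) : Type :=
  HNNExtension (D.b j) ((D.a j).subgroupOf (D.b j)) (D.cj j).range
    (MonoidHom.ofInjective (D.cj_inj j))

/-- The canonical homomorphism. -/
abbrev o (j : J) : D.b j →* D.HH j := HNNExtension.of

/-- The stable letter. -/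
abbrev τ (j : J) : D.HH j := HNNExtension.t

theorem t_of (j : J) (x y : D.b j) (hx : (x : G) ∈ D.a j) (hy : (y : G) = g * x * g⁻¹) :
    D.τ j * D.o j x = D.o j y * D.τ j := by
  have h := HNNExtension.t_mul_of (φ := MonoidHom.ofInjective (D.cj_inj j))
    (⟨x, hx⟩ : (D.a j).subgroupOf (D.b j))
  have h2 : ((MonoidHom.ofInjective (D.cj_inj j)
      (⟨x, hx⟩ : (D.a j).subgroupOf (D.b j)) : (D.cj j).range) : D.b j) = y :=
    Subtype.ext hy.symm
  rw [h2] at h
  exact h

/-- The transition maps. -/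
def tr {i j : J} (h : D.a i ≤ D.a j) (h' : D.b i ≤ D.b j) : D.HH i →* D.HH j :=
  HNNExtension.lift ((D.o j).comp (Subgroup.inclusion h')) (D.τ j) (fun x =>
    D.t_of j (Subgroup.inclusion h' x) (Subgroup.inclusion h'
      ((MonoidHom.ofInjective (D.cj_inj i) x : (D.cj i).range) : D.b i)) (h x.2) rfl)

theorem tr_o {i j : J} (h : D.a i ≤ D.a j) (h' : D.b i ≤ D.b j) (x : D.b i) :
    D.tr h h' (D.o i x) = D.o j (Subgroup.inclusion h' x) :=
  HNNExtension.lift_of _ _ _ _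

theorem tr_t {i j : J} (h : D.a i ≤ D.a j) (h' : D.b i ≤ D.b j) :
    D.tr h h' (D.τ i) = D.τ j :=
  HNNExtension.lift_t _ _ _

theorem tr_id (i : J) (h : D.a i ≤ D.a i) (h' : D.b i ≤ D.b i) (x : D.HH i) :
    D.tr h h' x = x := by
  have h1 : D.tr h h' = MonoidHom.id _ := by
    apply HNNExtension.hom_ext
    · ext y
      exact D.tr_o h h' y
    · exact D.tr_t h h'
  rw [h1]
  rfl

theorem tr_tr {i j k : J} (h1 : D.a i ≤ D.a j) (h1' : D.b i ≤ D.b j) (h2 : D.a j ≤ D.a k)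
    (h2' : D.b j ≤ D.b k) (x : D.HH i) :
    D.tr h2 h2' (D.tr h1 h1' x) = D.tr (h1.trans h2) (h1'.trans h2') x := by
  have h3 : (D.tr h2 h2').comp (D.tr h1 h1') = D.tr (h1.trans h2) (h1'.trans h2') := by
    apply HNNExtension.hom_ext
    · ext y
      show D.tr h2 h2' (D.tr h1 h1' (D.o i y)) = D.tr (h1.trans h2) (h1'.trans h2') (D.o i y)
      rw [D.tr_o, D.tr_o, D.tr_o]
      rfl
    · show D.tr h2 h2' (D.tr h1 h1' (D.τ i)) = D.tr (h1.trans h2) (h1'.trans h2') (D.τ i)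
      rw [D.tr_t, D.tr_t, D.tr_t]
  rw [← h3]
  rfl

/-- The homomorphism to `G`. -/
def toG (j : J) : D.HH j →* G :=
  HNNExtension.lift (D.b j).subtype g (fun x => by
    show g * (x.1 : G) = (g * (x.1 : G) * g⁻¹) * g
    group)

theorem toG_o (j : J) (x : D.b j) : D.toG j (D.o j x) = x := HNNExtension.lift_of _ _ _ _

theorem toG_t (j : J) : D.toG j (D.τ j) = g := HNNExtension.lift_t _ _ _

theorem toG_tr {i j : J} (h : D.a i ≤ D.a j) (h' : D.b i ≤ D.b j) (x : D.HH i) :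
    D.toG j (D.tr h h' x) = D.toG i x := by
  have h3 : (D.toG j).comp (D.tr h h') = D.toG i := by
    apply HNNExtension.hom_ext
    · ext y
      show D.toG j (D.tr h h' (D.o i y)) = D.toG i (D.o i y)
      rw [D.tr_o, D.toG_o, D.toG_o]
      rfl
    · show D.toG j (D.tr h h' (D.τ i)) = D.toG i (D.τ i)
      rw [D.tr_t, D.toG_t, D.toG_t]
  rw [← h3]
  rfl

theorem move (hN : N.Normal) (j : J) (y : D.b j) (s : ℤ) :
    ∃ (k : J) (_ : D.a j ≤ D.a k) (hb : D.b j ≤ D.b k) (z : D.b k),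
      D.τ k ^ s * D.o k (Subgroup.inclusion hb y) * D.τ k ^ (-s) = D.o k z := by
  induction s using Int.induction_on with
  | zero =>
    exact ⟨j, le_rfl, le_rfl, y, by
      rw [neg_zero, zpow_zero, one_mul, mul_one]
      rfl⟩
  | succ i ih =>
    obtain ⟨k, ha, hb, z, hz⟩ := ih
    obtain ⟨l, ⟨h1, h2⟩, -, h3, -⟩ := D.up k k 1 N.one_mem
    have hz' := congrArg (D.tr h1 h2) hz
    rw [map_mul, map_mul, map_zpow, map_zpow, D.tr_t, D.tr_o, D.tr_o] at hz'
    have hzb : (z : G) ∈ D.a l := h3 z.2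
    refine ⟨l, ha.trans h1, hb.trans h2, ⟨g * (z : G) * g⁻¹, D.hab l z hzb⟩, ?_⟩
    have ht := D.t_of l (Subgroup.inclusion h2 z) ⟨g * (z : G) * g⁻¹, D.hab l z hzb⟩ hzb rfl
    have e1 : D.τ l ^ ((i : ℤ) + 1) * D.o l (Subgroup.inclusion (hb.trans h2) y) *
        D.τ l ^ (-((i : ℤ) + 1)) = D.τ l * (D.τ l ^ (i : ℤ) *
          D.o l (Subgroup.inclusion h2 (Subgroup.inclusion hb y)) * D.τ l ^ (-(i : ℤ))) *
          (D.τ l)⁻¹ := by
      have e2 : Subgroup.inclusion h2 (Subgroup.inclusion hb y) =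
          Subgroup.inclusion (hb.trans h2) y := rfl
      rw [e2]
      group
    rw [e1, hz', ht]
    group
  | pred i ih =>
    obtain ⟨k, ha, hb, z, hz⟩ := ih
    have hw : g⁻¹ * (z : G) * g ∈ N := by
      have := hN.conj_mem (z : G) (D.hbN k z.2) g⁻¹
      simpa using this
    obtain ⟨l, ⟨h1, h2⟩, -, -, h4⟩ := D.up k k _ hw
    have hz' := congrArg (D.tr h1 h2) hz
    rw [map_mul, map_mul, map_zpow, map_zpow, D.tr_t, D.tr_o, D.tr_o] at hz'
    refine ⟨l, ha.trans h1, hb.trans h2, ⟨g⁻¹ * (z : G) * g, D.hle l h4⟩, ?_⟩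
    have ht := D.t_of l ⟨g⁻¹ * (z : G) * g, D.hle l h4⟩ (Subgroup.inclusion h2 z) h4 (by
      show (z : G) = g * (g⁻¹ * (z : G) * g) * g⁻¹
      group)
    have e1 : D.τ l ^ (-(i : ℤ) - 1) * D.o l (Subgroup.inclusion (hb.trans h2) y) *
        D.τ l ^ (-(-(i : ℤ) - 1)) = (D.τ l)⁻¹ * (D.τ l ^ (-(i : ℤ)) *
          D.o l (Subgroup.inclusion h2 (Subgroup.inclusion hb y)) * D.τ l ^ (-(-(i : ℤ)))) *
          D.τ l := by
      have e2 : Subgroup.inclusion h2 (Subgroup.inclusion hb y) =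
          Subgroup.inclusion (hb.trans h2) y := rfl
      rw [e2]
      group
    rw [e1, hz', mul_assoc, ← ht]
    group

theorem claim (hN : N.Normal) (j : J) (x : D.HH j) :
    ∃ (k : J) (ha : D.a j ≤ D.a k) (hb : D.b j ≤ D.b k) (n : D.b k) (s : ℤ),
      D.tr ha hb x = D.o k n * D.τ k ^ s := by
  induction x using HNNExtension.induction_on with
  | of y => exact ⟨j, le_rfl, le_rfl, y, 0, by rw [D.tr_id, zpow_zero, mul_one]⟩
  | t => exact ⟨j, le_rfl, le_rfl, 1, 1, by rw [D.tr_id, zpow_one, map_one, one_mul]⟩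
  | mul x y hx hy =>
    obtain ⟨k1, ha1, hb1, n1, s1, h1⟩ := hx
    obtain ⟨k2, ha2, hb2, n2, s2, h2⟩ := hy
    obtain ⟨k3, ⟨a1, b1⟩, ⟨a2, b2⟩, -, -⟩ := D.up k1 k2 1 N.one_mem
    obtain ⟨k, a3, b3, z, hz⟩ := D.move hN k3 (Subgroup.inclusion b2 n2) s1
    refine ⟨k, ha1.trans (a1.trans a3), hb1.trans (b1.trans b3),
      Subgroup.inclusion (b1.trans b3) n1 * z, s1 + s2, ?_⟩
    have e1 : D.tr (ha1.trans (a1.trans a3)) (hb1.trans (b1.trans b3)) x =
        D.o k (Subgroup.inclusion (b1.trans b3) n1) * D.τ k ^ s1 := by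
      rw [← D.tr_tr ha1 hb1 (a1.trans a3) (b1.trans b3), h1, map_mul, map_zpow, D.tr_o, D.tr_t]
    have e2 : D.tr (ha1.trans (a1.trans a3)) (hb1.trans (b1.trans b3)) y =
        D.o k (Subgroup.inclusion b3 (Subgroup.inclusion b2 n2)) * D.τ k ^ s2 := by
      have e3 := D.tr_tr ha2 hb2 (a2.trans a3) (b2.trans b3) y
      rw [h2, map_mul, map_zpow, D.tr_o, D.tr_t] at e3
      exact e3.symm
    rw [map_mul, e1, e2, map_mul, ← hz]
    group
  | inv x hx =>
    obtain ⟨k1, ha1, hb1, n1, s1, h1⟩ := hx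
    obtain ⟨k, a3, b3, z, hz⟩ := D.move hN k1 n1⁻¹ (-s1)
    refine ⟨k, ha1.trans a3, hb1.trans b3, z, -s1, ?_⟩
    have e1 : D.tr (ha1.trans a3) (hb1.trans b3) x =
        D.o k (Subgroup.inclusion b3 n1) * D.τ k ^ s1 := by
      rw [← D.tr_tr ha1 hb1 a3 b3, h1, map_mul, map_zpow, D.tr_o, D.tr_t]
    rw [map_inv, e1, ← hz, map_inv, map_inv]
    group

end

end LIData

theorem FJClosed.of_locInner {C : ∀ (G : Type) [Group G], Prop} (hC : FJClosed C) {G : Type}
    [Group G] (N : Subgroup G) [N.Normal] (hN : LocInner C G N) (hQ : C (G ⧸ N)) : C G := by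
  obtain ⟨I, hI, K, hdir, hmem, hK⟩ := hN
  have hKN : ∀ i, K i ≤ N := fun i x hx => (hmem x).2 ⟨i, hx⟩
  -- every `K i` is in the class
  have hCK : ∀ i, C (K i) := by
    intro i
    obtain ⟨j, hij, -, P, hP, ι, -, hCP, hι, -⟩ := hK 1 i
    exact hC.mono hij (hC.sub ι hι hCP)
  have hCN : C N := by
    refine hC.union (fun i => (K i).subgroupOf N) ?_ ?_ ?_
    · intro i j
      obtain ⟨k, hk1, hk2⟩ := hdir i j
      exact ⟨k, fun x hx => hk1 hx, fun x hx => hk2 hx⟩
    · intro x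
      obtain ⟨i, hi⟩ := (hmem x).1 x.2
      exact ⟨i, hi⟩
    · intro i
      let e : ((K i).subgroupOf N) →* K i :=
        { toFun := fun x => ⟨(x.1 : G), x.2⟩
          map_one' := rfl
          map_mul' := fun _ _ => rfl }
      refine hC.sub e ?_ (hCK i)
      intro x y hxy
      apply Subtype.ext
      apply Subtype.ext
      have h1 : ((e x : K i) : G) = (e y : K i) := congrArg Subtype.val hxy
      exact h1
  refine hC.ext (QuotientGroup.mk' N) hQ (fun q => ?_)
  obtain ⟨g, rfl⟩ := QuotientGroup.mk'_surjective N q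
  set M : Subgroup G := (Subgroup.zpowers (QuotientGroup.mk' N g)).comap (QuotientGroup.mk' N)
    with hM
  have hNM : N ≤ M := by
    intro x hx
    rw [hM, Subgroup.mem_comap]
    have : QuotientGroup.mk' N x = 1 := (QuotientGroup.eq_one_iff x).2 hx
    rw [this]
    exact Subgroup.one_mem _
  have hgM : g ∈ M := by
    rw [hM, Subgroup.mem_comap]
    exact Subgroup.mem_zpowers _
  by_cases hfin : IsOfFinOrder (QuotientGroup.mk' N g)
  · -- finite order
    let p : M →* Subgroup.zpowers (QuotientGroup.mk' N g) :=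
      { toFun := fun x => ⟨QuotientGroup.mk' N x.1, x.2⟩
        map_one' := Subtype.ext (map_one _)
        map_mul' := fun x y => Subtype.ext (map_mul _ _ _) }
    have hf : Finite (Subgroup.zpowers (QuotientGroup.mk' N g)) :=
      (finite_zpowers.2 hfin).to_subtype
    have hfi : p.ker.FiniteIndex := Subgroup.finiteIndex_ker p
    refine hC.fi p.ker hfi ?_
    have hker : ∀ x : p.ker, (x.1.1 : G) ∈ N := by
      intro x
      have h1 : QuotientGroup.mk' N x.1.1 = 1 := congrArg Subtype.val x.2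
      exact (QuotientGroup.eq_one_iff _).1 h1
    let e : p.ker →* N :=
      { toFun := fun x => ⟨(x.1.1 : G), hker x⟩
        map_one' := rfl
        map_mul' := fun _ _ => rfl }
    refine hC.sub e ?_ hCN
    intro x y hxy
    apply Subtype.ext
    apply Subtype.ext
    have h1 : ((e x : N) : G) = (e y : N) := congrArg Subtype.val hxy
    exact h1
  · -- infinite order
    have hinf : ∀ s : ℤ, g ^ s ∈ N → s = 0 := by
      intro s hs
      by_contra hs0
      apply hfin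
      rw [isOfFinOrder_iff_zpow_eq_one]
      refine ⟨s, hs0, ?_⟩
      rw [← map_zpow]
      exact (QuotientGroup.eq_one_iff _).2 hs
    -- the index set
    let Good : I × I → Prop := fun p => K p.1 ≤ K p.2 ∧ (∀ x ∈ K p.1, g * x * g⁻¹ ∈ K p.2) ∧
      ∃ (P : Type) (_ : Group P) (ι : K p.2 →* P) (r : P), C P ∧ Function.Injective ι ∧
        ∀ x y : K p.2, (x : G) ∈ K p.1 → (y : G) = g * x * g⁻¹ → ι y = r * ι x * r⁻¹
    let J : Type := {p : I × I // Good p}
    have hup : ∀ (i j : J) (z : G), z ∈ N → ∃ k : J, (K i.1.1 ≤ K k.1.1 ∧ K i.1.2 ≤ K k.1.2) ∧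
        (K j.1.1 ≤ K k.1.1 ∧ K j.1.2 ≤ K k.1.2) ∧ K i.1.2 ≤ K k.1.1 ∧ z ∈ K k.1.1 := by
      intro i j z hz
      obtain ⟨i0, hi0⟩ := (hmem z).1 hz
      obtain ⟨k1, h1, h2⟩ := hdir i.1.1 i.1.2
      obtain ⟨k2, h3, h4⟩ := hdir j.1.1 j.1.2
      obtain ⟨k3, h5, h6⟩ := hdir k1 k2
      obtain ⟨k4, h7, h8⟩ := hdir k3 i0
      obtain ⟨l, hl⟩ := hK g k4
      have hkl : K k4 ≤ K l := hl.1
      refine ⟨⟨(k4, l), hl⟩, ⟨(h1.trans h5).trans h7, ((h2.trans h5).trans h7).trans hkl⟩,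
        ⟨(h3.trans h6).trans h7, ((h4.trans h6).trans h7).trans hkl⟩, (h2.trans h5).trans h7,
        h8 hi0⟩
    let D : LIData G g N J :=
      { a := fun p => K p.1.1
        b := fun p => K p.1.2
        hle := fun p => p.2.1
        hab := fun p => p.2.2.1
        hbN := fun p => hKN _
        up := hup }
    let pre : Preorder J :=
      { le := fun i j => D.a i ≤ D.a j ∧ D.b i ≤ D.b j
        le_refl := fun i => ⟨le_rfl, le_rfl⟩
        le_trans := fun i j k h1 h2 => ⟨h1.1.trans h2.1, h1.2.trans h2.2⟩ }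
    have hle : ∀ i j : J, i ≤ j → D.a i ≤ D.a j ∧ D.b i ≤ D.b j := fun i j h => h
    have hdirJ : IsDirected J (· ≤ ·) := ⟨fun i j => by
      obtain ⟨k, h1, h2, -, -⟩ := hup i j 1 N.one_mem
      exact ⟨k, h1, h2⟩⟩
    have hneJ : Nonempty J := by
      obtain ⟨l, hl⟩ := hK g hI.some
      exact ⟨⟨(hI.some, l), hl⟩⟩
    have htoM : ∀ (j : J) (x : D.HH j), D.toG j x ∈ M := by
      intro j x
      induction x using HNNExtension.induction_on with
      | of y =>
        have h1 : D.toG j (D.o j y) = y := D.toG_o j y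
        rw [h1]
        exact hNM (D.hbN j y.2)
      | t =>
        have h1 : D.toG j (D.τ j) = g := D.toG_t j
        rw [h1]
        exact hgM
      | mul x y hx hy =>
        rw [map_mul]
        exact M.mul_mem hx hy
      | inv x hx =>
        rw [map_inv]
        exact M.inv_mem hx
    refine hC.colim (I := J) (fun j => D.HH j) (fun i j hij => D.tr (hle i j hij).1 (hle i j hij).2)
      (fun i x => D.tr_id i _ _ x) (fun i j k hij hjk x => D.tr_tr _ _ _ _ x)
      (fun j => (D.toG j).codRestrict M (htoM j)) ?_ ?_ ?_ ?_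
    · intro i j hij x
      apply Subtype.ext
      exact D.toG_tr (hle i j hij).1 (hle i j hij).2 x
    · intro y
      have hy : QuotientGroup.mk' N y.1 ∈ Subgroup.zpowers (QuotientGroup.mk' N g) := y.2
      obtain ⟨s, hs⟩ := Subgroup.mem_zpowers_iff.1 hy
      have hn : (y : G) * (g ^ s)⁻¹ ∈ N := by
        rw [← QuotientGroup.eq_one_iff]
        show QuotientGroup.mk' N ((y : G) * (g ^ s)⁻¹) = 1
        rw [map_mul, map_inv, map_zpow, hs, mul_inv_cancel]
      obtain ⟨j, -, -, -, hj⟩ := hup hneJ.some hneJ.some _ hn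
      refine ⟨j, D.o j ⟨_, D.hle j hj⟩ * D.τ j ^ s, ?_⟩
      apply Subtype.ext
      show D.toG j (D.o j ⟨_, D.hle j hj⟩ * D.τ j ^ s) = y
      rw [map_mul, map_zpow, D.toG_o, D.toG_t, inv_mul_cancel_right]
    · intro i x hx
      have hx1 : D.toG i x = 1 := congrArg Subtype.val hx
      obtain ⟨k, ha, hb, n, s, h⟩ := D.claim inferInstance i x
      refine ⟨k, ⟨ha, hb⟩, ?_⟩
      have h2 := D.toG_tr ha hb x
      rw [h, map_mul, map_zpow, D.toG_o, D.toG_t, hx1] at h2
      have h3 : g ^ s ∈ N := by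
        have h4 : g ^ s = (n : G)⁻¹ := (inv_eq_of_mul_eq_one_right h2).symm
        rw [h4]
        exact N.inv_mem (D.hbN k n.2)
      have h5 := hinf s h3
      rw [h5, zpow_zero, mul_one] at h2
      have h6 : n = 1 := Subtype.ext h2
      show D.tr ha hb x = 1
      rw [h, h5, h6, map_one, zpow_zero, mul_one]
    · intro j
      obtain ⟨P, hP, ι, r, hCP, hι, hr⟩ := j.2.2.2
      refine hC.hnn _ _ _ ι hι r ?_ hCP
      intro x
      exact hr _ _ x.2 rfl

end Pool.Agent.H8.FJ3
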