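import Pool.Agent.H8.FJ3.Basic
import Pool.Agent.H8.FJ2.TreeLem

/-!
# The tree of an ultrametric length function
-/

namespace Pool.Agent.H8.FJ3

section

variable {G : Type} [Group G]

/-- The distance function of the point at the distance `n` from the base vertex on the segment from
the base vertex to its image under `y`. -/
def pt (M : G → ℕ) (y : G) (n : ℕ) : G → ℤ :=
  fun z => max (2 * (M z : ℤ) - n) (2 * (M (y⁻¹ * z) : ℤ) - 2 * M y + n)

/-- The vertices. -/
def LV (M : G → ℕ) : Type := {f : G → ℤ // ∃ y n, n ≤ 2 * M y ∧ f = pt M y n}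

/-- The graph. -/
def LG (M : G → ℕ) : SimpleGraph (LV M) where
  Adj f f' := ∀ z, f.1 z - f'.1 z = 1 ∨ f'.1 z - f.1 z = 1
  symm := ⟨fun _ _ h z => (h z).symm⟩
  loopless := ⟨fun f h => by rcases h 1 with h | h <;> simp at h⟩

variable {M : G → ℕ} (hM : Ultra M)

include hM

private theorem lt_inv (g h : G) : M (g⁻¹ * h) = M (h⁻¹ * g) := by
  rw [← hM.inv (g⁻¹ * h), mul_inv_rev, inv_inv]

/-- `pt M y n` and `pt M y' n` coincide if `n` is at most the Gromov product. -/
theorem Ultra.pt_eq {y y' : G} {n : ℕ} (h : M (y⁻¹ * y') + n ≤ M y + M y') :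
    pt M y n = pt M y' n := by
  funext z
  unfold pt
  have h1 := hM.four y z y'
  have h2 := hM.four y' z y
  have h3 := lt_inv hM y' y
  rw [h3] at h2
  omega

/-- The vertices are permuted by the left translations. -/
theorem Ultra.translate (a : G) (f : G → ℤ) (hf : ∃ y n, n ≤ 2 * M y ∧ f = pt M y n) :
    ∃ y n, n ≤ 2 * M y ∧ (fun z => f (a⁻¹ * z)) = pt M y n := by
  obtain ⟨y, n, hn, rfl⟩ := hf
  have e1 : ∀ z, y⁻¹ * (a⁻¹ * z) = (a * y)⁻¹ * z := fun z => by rw [mul_inv_rev, mul_assoc]
  have e2 : M ((a * y)⁻¹ * a) = M y := by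
    rw [mul_inv_rev, inv_mul_cancel_right, hM.inv]
  have e3 : M (a⁻¹ * (a * y)) = M y := by
    rw [inv_mul_cancel_left]
  have m1 := hM.mul a y
  have m2 : M y ≤ M a + M (a * y) := by
    have := hM.mul a⁻¹ (a * y)
    rw [e3, hM.inv] at this
    exact this
  have m3 : M a ≤ M (a * y) + M y := by
    have := hM.mul (a * y) y⁻¹
    rw [mul_inv_cancel_right, hM.inv] at this
    exact this
  by_cases hc : n + M (a * y) ≤ M a + M y
  · refine ⟨a, 2 * M a - n, by omega, ?_⟩
    funext z
    have h1 := hM.four (a * y) z a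
    have h2 := hM.four a (a * y) z
    have h3 := lt_inv hM z (a * y)
    rw [e2] at h1
    rw [e3, h3] at h2
    unfold pt
    rw [e1]
    have hn2 : n ≤ 2 * M a := by omega
    push_cast [hn2]
    omega
  · refine ⟨a * y, n + 2 * M (a * y) - 2 * M y, by omega, ?_⟩
    funext z
    have h1 := hM.four a z (a * y)
    have h2 := hM.four a (a * y) z
    have h3 := lt_inv hM z (a * y)
    rw [e3] at h1
    rw [e3, h3] at h2
    unfold pt
    rw [e1]
    have hn2 : 2 * M y ≤ n + 2 * M (a * y) := by omega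
    push_cast [hn2]
    omega

private theorem lt_pt_one (y : G) (n : ℕ) : pt M y n 1 = n := by
  unfold pt
  rw [mul_one, hM.inv, hM.one]
  omega

private theorem lt_pt_zero (y : G) : pt M y 0 = pt M 1 0 := by
  apply hM.pt_eq
  rw [mul_one, hM.inv, hM.one]

private theorem lt_adj (y : G) (n : ℕ) (hn : 1 ≤ n) (z : G) :
    pt M y n z - pt M y (n - 1) z = 1 ∨ pt M y (n - 1) z - pt M y n z = 1 := by
  unfold pt
  push_cast [hn]
  omega

theorem Ultra.isTree : (LG M).IsTree := by
  classical
  -- chosen representatives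
  have hch : ∀ v : LV M, ∃ y : G, ∃ n : ℕ, n ≤ 2 * M y ∧ v.1 = pt M y n := fun v => v.2
  choose Y N hN hYN using hch
  have hone : ∀ v : LV M, v.1 1 = N v := by
    intro v
    rw [hYN v]
    exact lt_pt_one hM _ _
  set r : LV M := ⟨pt M 1 0, 1, 0, Nat.zero_le _, rfl⟩ with hr
  have hr1 : r.1 1 = 0 := by
    show pt M 1 0 1 = 0
    rw [lt_pt_one hM]
    rfl
  refine Pool.Agent.H8.FJ2.isTree_of_parent (LG M) r (fun v => N v)
    (fun v => ⟨pt M (Y v) (N v - 1), Y v, N v - 1, by have := hN v; omega, rfl⟩) ?_ ?_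
  · intro v hv
    have hN1 : 1 ≤ N v := by
      by_contra hcon
      apply hv
      apply Subtype.ext
      rw [hYN v]
      have h0 : N v = 0 := by omega
      rw [h0]
      exact lt_pt_zero hM _
    constructor
    · intro z
      show v.1 z - pt M (Y v) (N v - 1) z = 1 ∨ pt M (Y v) (N v - 1) z - v.1 z = 1
      rw [hYN v]
      exact lt_adj hM (Y v) (N v) hN1 z
    · have h1 := hone ⟨pt M (Y v) (N v - 1), Y v, N v - 1, by have := hN v; omega, rfl⟩
      have h2 : pt M (Y v) (N v - 1) 1 = ((N v - 1 : ℕ) : ℤ) := lt_pt_one hM _ _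
      have h3 : ((N v - 1 : ℕ) : ℤ)
          = N ⟨pt M (Y v) (N v - 1), Y v, N v - 1, by have := hN v; omega, rfl⟩ := by
        rw [← h2]
        exact h1
      have h4 : N v - 1 = N ⟨pt M (Y v) (N v - 1), Y v, N v - 1, by have := hN v; omega, rfl⟩ := by
        exact_mod_cast h3
      show N ⟨pt M (Y v) (N v - 1), Y v, N v - 1, by have := hN v; omega, rfl⟩ < N v
      omega
  · -- adjacent vertices
    have key : ∀ v w : LV M, (∀ z, v.1 z - w.1 z = 1 ∨ w.1 z - v.1 z = 1) → N w = N v + 1 →
        w ≠ r ∧ v = ⟨pt M (Y w) (N w - 1), Y w, N w - 1, by have := hN w; omega, rfl⟩ := by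
      intro v w hadj hNw
      constructor
      · intro hwr
        have h1 := hone w
        rw [hwr, hr1, ← hwr] at h1
        omega
      · apply Subtype.ext
        show v.1 = pt M (Y w) (N w - 1)
        have h1 := hadj (Y w)
        have hNw2 : N w - 1 = N v := by omega
        rw [hNw2]
        rw [hYN v] at h1 ⊢
        rw [hYN w] at h1
        apply hM.pt_eq
        have hNw3 := hN w
        unfold pt at h1
        rw [inv_mul_cancel, hM.one] at h1
        omega
    intro v w hadj
    have h1 := hadj 1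
    rw [hone v, hone w] at h1
    rcases h1 with h1 | h1
    · left
      exact key w v (fun z => (hadj z).symm) (by omega)
    · right
      exact key v w hadj (by omega)

/-- The action by the left translations. -/
def Ultra.action : MulAction G (LV M) where
  smul a f := ⟨fun z => f.1 (a⁻¹ * z), hM.translate a f.1 f.2⟩
  one_smul f := Subtype.ext (funext fun z => by
    show f.1 (1⁻¹ * z) = f.1 z
    rw [inv_one, one_mul])
  mul_smul a b f := Subtype.ext (funext fun z => by
    show f.1 ((a * b)⁻¹ * z) = f.1 (b⁻¹ * (a⁻¹ * z))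
    rw [mul_inv_rev, mul_assoc])

end

end Pool.Agent.H8.FJ3
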