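import Pool.Agent.H8.FJ3.LTree

/-!
# Groups with an ultrametric length function
-/

namespace Pool.Agent.H8.FJ3

section

variable {G : Type} [Group G] {M : G → ℕ} (hM : Ultra M)

include hM

/-- The step of the induction over the products of generators. -/
theorem Ultra.exists_gen_step {y s : G} (S : Set G) (hs : s = 1 ∨ s ∈ S ∨ s⁻¹ ∈ S)
    (ih : ∀ n : ℕ, n ≤ 2 * M y → ∃ (a t : G) (m : ℕ), (t = 1 ∨ t ∈ S ∨ t⁻¹ ∈ S) ∧ m ≤ 2 * M t ∧
      ∀ z, pt M y n z = pt M t m (a⁻¹ * z)) (n : ℕ) (hn : n ≤ 2 * M (y * s)) :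
    ∃ (a t : G) (m : ℕ), (t = 1 ∨ t ∈ S ∨ t⁻¹ ∈ S) ∧ m ≤ 2 * M t ∧
      ∀ z, pt M (y * s) n z = pt M t m (a⁻¹ * z) := by
  have hm := hM.mul y s
  have hys : M (y⁻¹ * (y * s)) = M s := by rw [inv_mul_cancel_left]
  by_cases h : M s + n ≤ M y + M (y * s)
  · have h1 : pt M y n = pt M (y * s) n := hM.pt_eq (by rw [hys]; exact h)
    obtain ⟨a, t, m, h2, h3, h4⟩ := ih n (by omega)
    exact ⟨a, t, m, h2, h3, fun z => by rw [← h1]; exact h4 z⟩
  · refine ⟨y, s, n + 2 * M s - 2 * M (y * s), hs, by omega, fun z => ?_⟩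
    have e1 := hM.four y (y * s) z
    have e2 := hM.four y z (y * s)
    rw [hys] at e1 e2
    have e3 : M (z⁻¹ * (y * s)) = M ((y * s)⁻¹ * z) := by
      rw [← hM.inv (z⁻¹ * (y * s))]
      congr 1
      group
    rw [e3] at e1
    have e4 : M (s⁻¹ * (y⁻¹ * z)) = M ((y * s)⁻¹ * z) := by
      congr 1
      group
    unfold pt
    rw [e4]
    have e5 : ((n + 2 * M s - 2 * M (y * s) : ℕ) : ℤ) = n + 2 * M s - 2 * M (y * s) := by
      omega
    rw [e5]
    omega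

/-- Every vertex is a translate of a point of a segment from the base vertex to its image under a
generator. -/
theorem Ultra.exists_gen (S : Set G) (hS : Subgroup.closure S = ⊤) (v : LV M) :
    ∃ (a s : G) (n : ℕ), (s = 1 ∨ s ∈ S ∨ s⁻¹ ∈ S) ∧ n ≤ 2 * M s ∧
      ∀ z, v.1 z = pt M s n (a⁻¹ * z) := by
  have key : ∀ y : G, ∀ n : ℕ, n ≤ 2 * M y → ∃ (a t : G) (m : ℕ), (t = 1 ∨ t ∈ S ∨ t⁻¹ ∈ S) ∧
      m ≤ 2 * M t ∧ ∀ z, pt M y n z = pt M t m (a⁻¹ * z) := by
    intro y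
    have hy : y ∈ Subgroup.closure S := by rw [hS]; exact Subgroup.mem_top y
    induction hy using Subgroup.closure_induction_right with
    | one =>
      intro n hn
      exact ⟨1, 1, n, Or.inl rfl, hn, fun z => by rw [inv_one, one_mul]⟩
    | mul_right x _ s hs ih => exact hM.exists_gen_step S (Or.inr (Or.inl hs)) ih
    | mul_inv_cancel x _ s hs ih =>
      exact hM.exists_gen_step S (Or.inr (Or.inr (by rwa [inv_inv]))) ih
  obtain ⟨f, y, n, hn, rfl⟩ := v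
  obtain ⟨a, t, m, h1, h2, h3⟩ := key y n hn
  exact ⟨a, t, m, h1, h2, h3⟩

theorem Ultra.parity (v : LV M) : ∃ n : ℕ, ∀ z, ∃ k : ℤ, v.1 z = n + 2 * k := by
  obtain ⟨f, y, n, hn, rfl⟩ := v
  refine ⟨n, fun z => ?_⟩
  show ∃ k : ℤ, pt M y n z = n + 2 * k
  unfold pt
  rcases le_total (2 * (M z : ℤ) - n) (2 * (M (y⁻¹ * z) : ℤ) - 2 * M y + n) with h | h
  · rw [max_eq_right h]
    exact ⟨M (y⁻¹ * z) - M y, by ring⟩
  · rw [max_eq_left h]
    exact ⟨M z - n, by ring⟩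

end

/-- The version for finitely generated groups. -/
theorem FJClosed.of_length_fg {C : ∀ (G : Type) [Group G], Prop} (hC : FJClosed C) {G : Type}
    [Group G] (M : G → ℕ) (hM : Ultra M) (S : Set G) (hSf : S.Finite)
    (hS : Subgroup.closure S = ⊤)
    (h : ∀ n : ℕ, ∃ (Q : Type) (_ : Group Q) (ψ : G →* Q), C Q ∧
      ∀ g, M g ≤ n → ψ g = 1 → g = 1) : C G := by
  obtain ⟨n0, hn0⟩ : ∃ n0 : ℕ, ∀ s ∈ S, 2 * M s ≤ n0 :=
    ⟨hSf.toFinset.sup (fun s => 2 * M s), fun s hs =>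
      Finset.le_sup (f := fun s => 2 * M s) (hSf.mem_toFinset.2 hs)⟩
  obtain ⟨Q, instQ, ψ, hQ, hψ⟩ := h n0
  letI : MulAction G (LV M) := hM.action
  have hsmul : ∀ (g : G) (v : LV M) (z : G), (g • v).1 z = v.1 (g⁻¹ * z) := fun _ _ _ => rfl
  refine hC.of_tree (V := LV M) (LG M) hM.isTree ?_ ?_ ψ ?_ hQ
  · intro g v w hvw z
    exact hvw (g⁻¹ * z)
  · intro g v w hvw hgv
    exfalso
    obtain ⟨n, hn⟩ := hM.parity v
    obtain ⟨k, hk⟩ := hn 1
    obtain ⟨l, hl⟩ := hn (g⁻¹ * 1)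
    have h1 : w.1 1 = v.1 (g⁻¹ * 1) := by rw [← hgv]; rfl
    rcases hvw 1 with h2 | h2 <;> omega
  · intro v g hg hψg
    obtain ⟨a, s, m, h1, h2, h3⟩ := hM.exists_gen S hS v
    have hs : 2 * M s ≤ n0 := by
      rcases h1 with h1 | h1 | h1
      · rw [h1, hM.one]
        exact Nat.zero_le _
      · exact hn0 s h1
      · rw [← hM.inv s]
        exact hn0 _ h1
    have hva : v.1 a = m := by
      rw [h3 a, inv_mul_cancel]
      unfold pt
      rw [hM.one, mul_one, hM.inv]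
      omega
    have hvga : v.1 (g * a) = m := by
      have h4 : (g • v).1 (g * a) = v.1 (g⁻¹ * (g * a)) := hsmul g v (g * a)
      rw [hg, inv_mul_cancel_left, hva] at h4
      exact h4
    have h5 : M (a⁻¹ * (g * a)) ≤ n0 := by
      rw [h3 (g * a)] at hvga
      unfold pt at hvga
      omega
    have h6 : a⁻¹ * (g * a) = 1 := by
      refine hψ _ h5 ?_
      rw [map_mul, map_mul, hψg, one_mul, ← map_mul, inv_mul_cancel, map_one]
    rw [inv_mul_eq_one] at h6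
    exact (mul_eq_right.1 h6.symm)

/-- A group with an ultrametric length function such that the sets of the elements of bounded
length are separated from `1` by homomorphisms to groups of the class. -/
theorem FJClosed.of_length {C : ∀ (G : Type) [Group G], Prop} (hC : FJClosed C) {G : Type}
    [Group G] (M : G → ℕ) (hM : Ultra M)
    (h : ∀ n : ℕ, ∃ (Q : Type) (_ : Group Q) (ψ : G →* Q), C Q ∧
      ∀ g, M g ≤ n → ψ g = 1 → g = 1) : C G := by
  refine hC.of_fg (fun K hK => ?_)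
  have hfg : Group.FG K := (Group.fg_iff_subgroup_fg K).2 hK
  obtain ⟨S, hS, hSf⟩ := Group.fg_iff.1 hfg
  refine hC.of_length_fg (fun k : K => M k) ?_ S hSf hS ?_
  · exact ⟨hM.one, fun g => hM.inv g, fun g h => hM.mul g h, fun g h k => hM.four g h k⟩
  · intro n
    obtain ⟨Q, instQ, ψ, hQ, hψ⟩ := h n
    refine ⟨Q, instQ, ψ.comp K.subtype, hQ, fun g hg hg1 => ?_⟩
    exact Subtype.ext (hψ g hg hg1)

end Pool.Agent.H8.FJ3
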