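import Pool.Agent.H8.FJ3.LI

/-!
# Extensions by locally finite groups
-/

namespace Pool.Agent.H8.FJ3

/-- An injective homomorphism between subgroups of a finite group is induced by an inner
automorphism of the symmetric group. -/
theorem exists_perm {F : Type} [Group F] [Finite F] (K : Subgroup F) (f : K →* F)
    (hf : Function.Injective f) : ∃ p : Equiv.Perm F, ∀ k : K,
      MulAction.toPermHom F F (f k) = p * MulAction.toPermHom F F (k : F) * p⁻¹ := by
  obtain ⟨T1, hT1, -⟩ := K.exists_isComplement_right 1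
  obtain ⟨T2, hT2, -⟩ := f.range.exists_isComplement_right 1
  have e1 : {e : K × T1 ≃ F // ∀ k t, e (k, t) = (k : F) * (t : F)} :=
    ⟨Equiv.ofBijective _ hT1, fun _ _ => rfl⟩
  have e2 : {e : f.range × T2 ≃ F // ∀ k t, e (k, t) = (k : F) * (t : F)} :=
    ⟨Equiv.ofBijective _ hT2, fun _ _ => rfl⟩
  obtain ⟨e1, he1⟩ := e1
  obtain ⟨e2, he2⟩ := e2
  let φ : K ≃* f.range := MonoidHom.ofInjective hf
  have hK : Nat.card K = Nat.card f.range := Nat.card_congr φ.toEquiv
  have h1 : Nat.card K * Nat.card T1 = Nat.card F := by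
    rw [← Nat.card_prod]
    exact Nat.card_congr e1
  have h2 : Nat.card K * Nat.card T2 = Nat.card F := by
    rw [hK, ← Nat.card_prod]
    exact Nat.card_congr e2
  have h3 : Nat.card T1 = Nat.card T2 :=
    Nat.eq_of_mul_eq_mul_left Nat.card_pos (h1.trans h2.symm)
  have hF1 : Finite T1 := inferInstance
  have hF2 : Finite T2 := inferInstance
  obtain ⟨τ⟩ : Nonempty (T1 ≃ T2) := Finite.card_eq.1 h3
  let p : Equiv.Perm F := (e1.symm.trans (Equiv.prodCongr φ.toEquiv τ)).trans e2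
  have hp : ∀ (k : K) (t : T1), p ((k : F) * (t : F)) = f k * (τ t : F) := by
    intro k t
    rw [← he1]
    show e2 ((Equiv.prodCongr φ.toEquiv τ) (e1.symm (e1 (k, t)))) = _
    rw [Equiv.symm_apply_apply]
    exact he2 _ _
  have hp2 : ∀ (k : K) (x : F), p ((k : F) * x) = f k * p x := by
    intro k x
    obtain ⟨⟨k1, t⟩, rfl⟩ := e1.surjective x
    rw [he1, hp, ← mul_assoc, ← Subgroup.coe_mul, hp, map_mul, mul_assoc]
  refine ⟨p, fun k => ?_⟩
  rw [eq_mul_inv_iff_mul_eq]
  ext x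
  exact (hp2 k x).symm

theorem FJClosed.of_locallyFinite {C : ∀ (G : Type) [Group G], Prop} (hC : FJClosed C) {G : Type}
    [Group G] (N : Subgroup G) [N.Normal] (hN : ∀ K : Subgroup G, K ≤ N → K.FG → Finite K)
    (hQ : C (G ⧸ N)) : C G := by
  refine hC.of_locInner N ?_ hQ
  have hNor : N.Normal := inferInstance
  refine ⟨{K : Subgroup G // K ≤ N ∧ K.FG}, ⟨⟨⊥, bot_le, ⟨∅, by simp⟩⟩⟩, fun K => K.1, ?_, ?_, ?_⟩
  · intro a b
    exact ⟨⟨a.1 ⊔ b.1, sup_le a.2.1 b.2.1, a.2.2.sup b.2.2⟩, le_sup_left, le_sup_right⟩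
  · intro x
    constructor
    · intro hx
      refine ⟨⟨Subgroup.closure {x}, ?_, ⟨{x}, by simp⟩⟩, Subgroup.subset_closure rfl⟩
      rw [Subgroup.closure_le]
      rintro y rfl
      exact hx
    · rintro ⟨i, hi⟩
      exact i.2.1 hi
  · rintro g ⟨K, hKN, hKfg⟩
    have hcN : K.map (MulAut.conj g).toMonoidHom ≤ N := by
      rintro _ ⟨x, hx, rfl⟩
      exact hNor.conj_mem x (hKN hx) g
    have hcfg : (K.map (MulAut.conj g).toMonoidHom).FG := by
      classical
      obtain ⟨s, hs⟩ := hKfg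
      exact ⟨s.image (MulAut.conj g).toMonoidHom, by
        rw [Finset.coe_image, ← MonoidHom.map_closure, hs]⟩
    set L : Subgroup G := K ⊔ K.map (MulAut.conj g).toMonoidHom with hL
    have hLN : L ≤ N := sup_le hKN hcN
    have hLfg : L.FG := hKfg.sup hcfg
    have hfin : Finite L := hN L hLN hLfg
    have hmem : ∀ x ∈ K, g * x * g⁻¹ ∈ L := fun x hx =>
      (le_sup_right : K.map (MulAut.conj g).toMonoidHom ≤ L) ⟨x, hx, rfl⟩
    let f : K.subgroupOf L →* L :=
      { toFun := fun x => ⟨g * (x : L) * g⁻¹, hmem _ (Subgroup.mem_subgroupOf.1 x.2)⟩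
        map_one' := Subtype.ext (by simp)
        map_mul' := fun x y => Subtype.ext (by simp) }
    have hf : Function.Injective f := by
      intro x y hxy
      apply Subtype.ext
      apply Subtype.ext
      have h1 : g * ((x : L) : G) * g⁻¹ = g * ((y : L) : G) * g⁻¹ := congrArg Subtype.val hxy
      exact mul_left_cancel (mul_right_cancel h1)
    obtain ⟨p, hp⟩ := exists_perm (K.subgroupOf L) f hf
    refine ⟨⟨L, hLN, hLfg⟩, le_sup_left, hmem, Equiv.Perm L, inferInstance,
      MulAction.toPermHom L L, p, hC.finite _, MulAction.toPerm_injective, ?_⟩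
    intro x y hx hy
    have h1 := hp ⟨x, Subgroup.mem_subgroupOf.2 hx⟩
    have h2 : f ⟨x, Subgroup.mem_subgroupOf.2 hx⟩ = y := Subtype.ext hy.symm
    rw [h2] at h1
    exact h1

end Pool.Agent.H8.FJ3
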