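import Pool.Agent.H8.FJ3.Rec
import Pool.Agent.H8.FJ3.GL2Poly
import Pool.Agent.H8.FJ3.LocFin
import Pool.Agent.H8.FJ3.GWreath
import Pool.Agent.H8.FJ3.FinAutC
import Pool.Agent.H8.FJ2.Auto

/-!
# Closure theorems
-/

namespace Pool.Agent.H8.FJ3

open Pool.Agent.H8.FJ Pool.Agent.H8.FJ2 Matrix

theorem main (C : ∀ (G : Type) [Group G], Prop) (hC : FJClosed C) :
    (∀ (X : Type) [Finite X] (K : Subgroup (TAut X)),
      K ≤ Subgroup.closure {g | (∃ n, PolyType n g) ∨ (Automatic g ∧ PolyActivity g)} → C K) ∧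
    (∀ (G X H : Type) [Group G] [Finite X] [Group H] (φ : G →* Wr X G) (π : G →* H),
      Function.Surjective π → (∀ g, π g = 1 ↔ ∃ n, Killed φ n g) → C G → C H) ∧
    (∀ (G : Type) [Group G] (N : Subgroup G) [N.Normal], LocInner C G N → C (G ⧸ N) → C G) ∧
    (∀ (G : Type) [Group G] (N : Subgroup G) [N.Normal],
      (∀ K : Subgroup G, K ≤ N → K.FG → Finite K) → C (G ⧸ N) → C G) ∧
    (∀ (X A G : Type) [Group A] [Group G] [MulAction G X] (E : SimpleGraph X)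
      (hE : ∀ (g : G) (x y : X), E.Adj x y → E.Adj (g • x) (g • y)), C A → C G → C (GWr A hE)) ∧
    (∀ (R X G : Type) [Ring R] [Group G] [MulAction G X],
      (∀ n : ℕ, C ((Fin n → R) ≃ₗ[R] (Fin n → R))) → C G → C (FinAut R X G)) ∧
    (∀ (G : Type) [Group G] (M : G → ℕ), Ultra M → (∀ n : ℕ, ∃ (Q : Type) (_ : Group Q)
      (ψ : G →* Q), C Q ∧ ∀ g, M g ≤ n → ψ g = 1 → g = 1) → C G) ∧
    (∀ (R : Type) [CommRing R] [IsDomain R] (deg : R → ℕ) (J : ℕ → Ideal R), DegSep deg J →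
      (∀ m, C (GL (Fin 2) (R ⧸ J m))) → C (GL (Fin 2) R)) ∧
    (∀ (σ R : Type) [CommRing R] [IsDomain R], C (GL (Fin 2) R) →
      C (GL (Fin 2) (MvPolynomial σ R))) :=
  ⟨fun _ _ _ hK => hC.of_FJClass (FJClass.of_gens hK),
    fun _ _ _ _ _ _ φ π hπ hker h => hC.of_recursion φ π hπ hker h,
    fun _ _ N _ hN hQ => hC.of_locInner N hN hQ,
    fun _ _ N _ hN hQ => hC.of_locallyFinite N hN hQ,
    fun _ _ _ _ _ _ _ hE hA hG => hC.gwreath hE hA hG,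
    fun _ _ _ _ _ _ hR hG => hC.finAut hR hG,
    fun _ _ M hM h => hC.of_length M hM h,
    fun _ _ _ _ _ h hJ => hC.GL2 h hJ,
    fun σ R _ _ h => hC.GL2_mvPolynomial σ R h⟩

end Pool.Agent.H8.FJ3
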