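import Pool.Agent.H8.FJ3.Basic

/-!
# Wreath recursions
-/

namespace Pool.Agent.H8.FJ3

open Pool.Agent.H8.FJ

section

variable {G X : Type} [Group G] (φ : G →* Wr X G)

private theorem rec_one (n : ℕ) : Killed φ n 1 := by
  induction n with
  | zero => rfl
  | succ n ih =>
    refine ⟨by rw [map_one, Wr.one_perm], fun x => ?_⟩
    rw [map_one, Wr.one_sec]
    exact ih

private theorem rec_mul (n : ℕ) : ∀ g h, Killed φ n g → Killed φ n h → Killed φ n (g * h) := by
  induction n with
  | zero =>
    intro g h hg hh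
    have hg' : g = 1 := hg
    have hh' : h = 1 := hh
    show g * h = 1
    rw [hg', hh', one_mul]
  | succ n ih =>
    intro g h hg hh
    refine ⟨by rw [map_mul, Wr.mul_perm, hg.1, hh.1, one_mul], fun x => ?_⟩
    rw [map_mul, Wr.mul_sec]
    exact ih _ _ (hg.2 _) (hh.2 _)

private theorem rec_inv (n : ℕ) : ∀ g, Killed φ n g → Killed φ n g⁻¹ := by
  induction n with
  | zero =>
    intro g hg
    have hg' : g = 1 := hg
    show g⁻¹ = 1
    rw [hg', inv_one]
  | succ n ih =>
    intro g hg
    refine ⟨by rw [map_inv, Wr.inv_perm, hg.1, inv_one], fun x => ?_⟩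
    rw [map_inv, Wr.inv_sec]
    exact ih _ (hg.2 _)

private theorem rec_conj (n : ℕ) : ∀ g h, Killed φ n g → Killed φ n (h * g * h⁻¹) := by
  induction n with
  | zero =>
    intro g h hg
    have hg' : g = 1 := hg
    show h * g * h⁻¹ = 1
    rw [hg', mul_one, mul_inv_cancel]
  | succ n ih =>
    intro g h hg
    refine ⟨by rw [map_mul, map_mul, Wr.mul_perm, Wr.mul_perm, hg.1, mul_one, map_inv,
      Wr.inv_perm, mul_inv_cancel], fun x => ?_⟩
    rw [map_mul, map_mul, Wr.mul_sec, Wr.mul_sec, map_inv, Wr.inv_perm, Wr.inv_sec, hg.1,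
      Equiv.Perm.one_apply]
    exact ih _ _ (hg.2 _)

private theorem rec_succ (n : ℕ) : ∀ g, Killed φ n g → Killed φ (n + 1) g := by
  induction n with
  | zero =>
    intro g hg
    have hg' : g = 1 := hg
    rw [hg']
    exact rec_one φ 1
  | succ n ih =>
    intro g hg
    exact ⟨hg.1, fun x => ih _ (hg.2 x)⟩

/-- The subgroup of the elements killed by the `n`-th iterate. -/
def recKer (n : ℕ) : Subgroup G where
  carrier := {g | Killed φ n g}
  one_mem' := rec_one φ n
  mul_mem' := fun {g h} hg hh => rec_mul φ n g h hg hh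
  inv_mem' := fun {g} hg => rec_inv φ n g hg

private theorem rec_mem {n : ℕ} {g : G} : g ∈ recKer φ n ↔ Killed φ n g := Iff.rfl

instance recKer_normal (n : ℕ) : (recKer φ n).Normal := ⟨fun g hg h => rec_conj φ n g h hg⟩

private theorem rec_mono {m n : ℕ} (h : m ≤ n) : recKer φ m ≤ recKer φ n := by
  induction h with
  | refl => exact le_rfl
  | step _ ih => exact ih.trans (fun g hg => rec_succ φ _ g hg)

private theorem rec_ker (n : ℕ) :
    ((Wr.map (QuotientGroup.mk' (recKer φ n))).comp φ).ker = recKer φ (n + 1) := by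
  ext g
  rw [MonoidHom.mem_ker]
  constructor
  · intro h
    refine ⟨congrArg Wr.perm h, fun x => ?_⟩
    have h1 : (QuotientGroup.mk' (recKer φ n)) ((φ g).sec x) = 1 :=
      congrFun (congrArg Wr.sec h) x
    exact (QuotientGroup.eq_one_iff _).1 h1
  · intro h
    refine Wr.ext h.1 (fun x => ?_)
    exact (QuotientGroup.eq_one_iff (N := recKer φ n) _).2 (h.2 x)

end

/-- The quotient of a group of the class by the elements killed by a wreath recursion. -/
theorem FJClosed.of_recursion {C : ∀ (G : Type) [Group G], Prop} (hC : FJClosed C)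
    {G X H : Type} [Group G] [Group H] [Finite X] (φ : G →* Wr X G) (π : G →* H)
    (hπ : Function.Surjective π) (hker : ∀ g, π g = 1 ↔ ∃ n, Killed φ n g) (h : C G) : C H := by
  have hK : ∀ n, C (G ⧸ recKer φ n) := by
    intro n
    induction n with
    | zero =>
      refine hC.sub (QuotientGroup.lift (recKer φ 0) (MonoidHom.id G) ?_) ?_ h
      · intro x hx
        exact hx
      · rw [injective_iff_map_eq_one]
        intro x hx
        obtain ⟨y, rfl⟩ := QuotientGroup.mk_surjective x
        exact (QuotientGroup.eq_one_iff y).2 hx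
    | succ n ih =>
      have h1 : C (G ⧸ ((Wr.map (QuotientGroup.mk' (recKer φ n))).comp φ).ker) :=
        hC.sub (QuotientGroup.kerLift _) (QuotientGroup.kerLift_injective _) (hC.wr ih)
      exact hC.of_mulEquiv (QuotientGroup.quotientMulEquivOfEq (rec_ker φ n)) h1
  have hle : ∀ n, recKer φ n ≤ π.ker := fun n g hg => (hker g).2 ⟨n, hg⟩
  refine hC.colim (I := ℕ) (fun n => G ⧸ recKer φ n)
    (fun i j hij => QuotientGroup.map _ _ (MonoidHom.id _) (rec_mono φ hij)) ?_ ?_
    (fun n => QuotientGroup.lift (recKer φ n) π (hle n)) ?_ ?_ ?_ hK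
  · intro i x
    obtain ⟨y, rfl⟩ := QuotientGroup.mk_surjective x
    rfl
  · intro i j k h1 h2 x
    obtain ⟨y, rfl⟩ := QuotientGroup.mk_surjective x
    rfl
  · intro i j h1 x
    obtain ⟨y, rfl⟩ := QuotientGroup.mk_surjective x
    rfl
  · intro y
    obtain ⟨x, rfl⟩ := hπ y
    exact ⟨0, QuotientGroup.mk x, rfl⟩
  · intro i x hx
    obtain ⟨y, rfl⟩ := QuotientGroup.mk_surjective x
    have h1 : π y = 1 := hx
    obtain ⟨n, hn⟩ := (hker y).1 h1
    refine ⟨max i n, le_max_left _ _, ?_⟩
    exact (QuotientGroup.eq_one_iff (N := recKer φ (max i n)) y).2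
      (rec_mono φ (le_max_right _ _) hn)

end Pool.Agent.H8.FJ3
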